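import Pool.Agent.Helper29.DY.St

/-!
# The chambers of the fan and the functional of the bisector (MP_d13a5e_al)

`E = fe b1 b2 bO v y g`: the root is `E (k+1) (-u_k) + E k u_(k+1) + v e_(k+1)`.
-/

set_option autoImplicit false

namespace DY.St29

open Pool.Agent.Helper62.DY (RT)
open Pool.Agent.Helper32.DY (fw fe fe_mem fe_z fe_n fw_two z1_nonneg z1_one fm fm_rec bf Two)

/-- value of `e_(k+1)` under the functional `t ↦ 1, d2 ↦ -κ, d1 ↦ f` -/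
noncomputable def ev (b1 b2 bO κ f : ℝ) : ℕ → ℝ
  | 0 => f
  | k + 1 => ev b1 b2 bO κ f k - fw b1 bO (k + 1) * fm b2 κ (k + 1)

theorem fan_val (b1 b2 bO κ f v y g : ℝ) (k : ℕ) :
    fe b1 b2 bO v y g (k + 1) * fm b2 κ k - fe b1 b2 bO v y g k * fm b2 κ (k + 1) +
      v * ev b1 b2 bO κ f k = g - κ * y + v * f := by
  induction k with
  | zero =>
    show g * 1 - y * (κ * 1 - 0) + v * f = _
    ring
  | succ k ih =>
    have e1 : fe b1 b2 bO v y g (k + 1 + 1) = 2 * b2 * fe b1 b2 bO v y g (k + 1) +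
        fw b1 bO (k + 1) * v - fe b1 b2 bO v y g k := rfl
    have e2 : ev b1 b2 bO κ f (k + 1) = ev b1 b2 bO κ f k - fw b1 bO (k + 1) * fm b2 κ (k + 1) := rfl
    have e3 := fm_rec b2 κ k
    have e4 : fm b2 κ (k + 1 + 1) = fm b2 κ (k + 2) := rfl
    rw [e1, e2, e4, e3]
    linear_combination ih

/-- the coefficient triples in the chamber number `k` -/
def Rk (R : ℝ → ℝ → ℝ → Prop) (k : ℕ) (g x1 x2 : ℝ) : Prop :=
  (k % 2 = 0 ∧ R g x1 x2) ∨ (k % 2 = 1 ∧ R x2 x1 g)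

section

variable {b1 b2 bO : ℝ} {R : ℝ → ℝ → ℝ → Prop}

theorem rt_k (h : RT b1 b2 bO R) (k : ℕ) : RT (fw b1 bO k / 2) b2 (fw b1 bO (k + 1) / 2) (Rk R k) := by
  rcases Nat.mod_two_eq_zero_or_one k with hk | hk
  · have e1 : fw b1 bO k / 2 = b1 := by unfold fw; rw [if_pos hk]; ring
    have e2 : fw b1 bO (k + 1) / 2 = bO := by unfold fw; rw [if_neg (by omega)]; ring
    have e3 : Rk R k = R := by
      funext g x1 x2
      unfold Rk
      apply propext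
      constructor
      · rintro (⟨-, h1⟩ | ⟨h1, -⟩)
        · exact h1
        · omega
      · intro h1
        exact Or.inl ⟨hk, h1⟩
    rw [e1, e2, e3]
    exact h
  · have e1 : fw b1 bO k / 2 = bO := by unfold fw; rw [if_neg (by omega)]; ring
    have e2 : fw b1 bO (k + 1) / 2 = b1 := by unfold fw; rw [if_pos (by omega)]; ring
    have e3 : Rk R k = fun g x1 x2 => R x2 x1 g := by
      funext g x1 x2
      unfold Rk
      apply propext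
      constructor
      · rintro (⟨h1, -⟩ | ⟨-, h1⟩)
        · omega
        · exact h1
      · intro h1
        exact Or.inr ⟨hk, h1⟩
    rw [e1, e2, e3]
    exact h.swap0

theorem rk_mem (h : RT b1 b2 bO R) {g v y : ℝ} (hy : R g v y) (k : ℕ) :
    Rk R k (fe b1 b2 bO v y g (k + 1)) v (fe b1 b2 bO v y g k) := by
  rcases fe_mem h hy k with ⟨h0, h1, -⟩ | ⟨h0, h1, -⟩
  · exact Or.inl ⟨h0, h1⟩
  · exact Or.inr ⟨h0, h1⟩

theorem fm_sq (b2 κ : ℝ) (k : ℕ) :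
    fm b2 κ (k + 1) * sq b2 (k + 2) - fm b2 κ (k + 2) * sq b2 (k + 1) = 1 := by
  show (κ * sq b2 (k + 1) - sq b2 k) * sq b2 (k + 2) - (κ * sq b2 (k + 2) - sq b2 (k + 1)) * sq b2 (k + 1) = 1
  linear_combination sq_cassini b2 k

variable {κ f g x1 x2 g' v y2 : ℝ}

/-- the form of the root with `κ t + d2`, and with `u_(k+1)` -/
theorem two_B (T : Two b1 b2 bO R κ f g x1 x2 g' v y2) {τ : ℝ} {k : ℕ} (hk : 0 < fm b2 κ (k + 2))
    (hs : 0 < sq b2 (k + 2)) (hd : sq b2 (k + 1) = τ * (sq b2 (k + 2) + 1))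
    (hK : (κ - τ) * (y2 * x1 - x2 * v) ≤ x1) :
    τ + fm b2 κ (k + 2) ≤ fe b1 b2 bO v y2 g' (k + 1) - b2 * fe b1 b2 bO v y2 g' (k + 2) -
      fw b1 bO (k + 2) / 2 * v := by
  obtain ⟨δ, hδ⟩ : ∃ δ, δ = 2 * b1 * v + 2 * b2 * y2 - 2 * g' := ⟨_, rfl⟩
  obtain ⟨c, hc⟩ : ∃ c, c = (2 * y2 - 2 * b2 * g' - 2 * bO * v) -
    κ * (2 * b1 * v + 2 * b2 * y2 - 2 * g') := ⟨_, rfl⟩
  have hd1 := (T.diff k).2
  rw [← hc, ← hδ] at hd1
  have hδ0 : 0 ≤ δ := by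
    rw [hδ]
    linarith [T.obt]
  have hD : 0 < y2 * x1 - x2 * v := by linarith [T.st]
  have hn := T.h.n _ _ _ T.hy
  have hDc : (y2 * x1 - x2 * v) * c = 2 * x1 - 2 * v * bf b1 b2 bO g x1 x2 g' v y2 := by
    have hfx : κ * x2 = g + f * x1 := by linarith [T.fx]
    have hfy : κ * y2 = g' + f * v := by linarith [T.fy]
    have h2 : κ * (y2 * x1 - x2 * v) = g' * x1 - g * v := by
      linear_combination x1 * hfy - v * hfx
    rw [hc]
    unfold bf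
    linear_combination (-(2 * b1 * v + 2 * b2 * y2 - 2 * g')) * h2 + 2 * x1 * hn
  have hc0 : 2 * (κ - τ) ≤ c := by
    have h1 : v * bf b1 b2 bO g x1 x2 g' v y2 ≤ 0 :=
      mul_nonpos_of_nonneg_of_nonpos (by linarith [T.v1]) T.hB
    have h2 : (y2 * x1 - x2 * v) * (2 * (κ - τ)) ≤ (y2 * x1 - x2 * v) * c := by
      rw [hDc]
      linarith
    exact le_of_mul_le_mul_left h2 hD
  have h3 : sq b2 (k + 2) * (2 * (κ - τ)) ≤ sq b2 (k + 2) * c := mul_le_mul_of_nonneg_left hc0 hs.le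
  have h4 : 0 ≤ fm b2 κ (k + 2) * δ := mul_nonneg hk.le hδ0
  have e1 : fe b1 b2 bO v y2 g' (k + 3) = 2 * b2 * fe b1 b2 bO v y2 g' (k + 2) +
        fw b1 bO (k + 2) * v - fe b1 b2 bO v y2 g' (k + 1) := rfl
  rw [e1] at hd1
  have e2 : fm b2 κ (k + 2) = κ * sq b2 (k + 2) - sq b2 (k + 1) := rfl
  rw [e2] at h4 hd1 ⊢
  rw [hd] at h4 hd1 ⊢
  nlinarith

/-- the sign of the form in the chamber -/
theorem two_bb (T : Two b1 b2 bO R κ f g x1 x2 g' v y2) (k : ℕ) :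
    0 < fm b2 κ (k + 2) * (fe b1 b2 bO v y2 g' (k + 2) - b2 * fe b1 b2 bO v y2 g' (k + 1) -
      fw b1 bO (k + 1) / 2 * v) + fm b2 κ (k + 1) * (fe b1 b2 bO v y2 g' (k + 1) -
      b2 * fe b1 b2 bO v y2 g' (k + 2) - fw b1 bO (k + 2) / 2 * v) := by
  have hc := T.b_pos
  obtain ⟨h1, h2⟩ := T.diff k
  have e1 : fe b1 b2 bO v y2 g' (k + 3) = 2 * b2 * fe b1 b2 bO v y2 g' (k + 2) +
        fw b1 bO (k + 2) * v - fe b1 b2 bO v y2 g' (k + 1) := rfl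
  have e2 : fe b1 b2 bO v y2 g' (k + 2) = 2 * b2 * fe b1 b2 bO v y2 g' (k + 1) +
        fw b1 bO (k + 1) * v - fe b1 b2 bO v y2 g' k := rfl
  have h3 := fm_sq b2 κ k
  rw [e1] at h2
  have h4 : fe b1 b2 bO v y2 g' (k + 2) - b2 * fe b1 b2 bO v y2 g' (k + 1) - fw b1 bO (k + 1) / 2 * v =
      -(fe b1 b2 bO v y2 g' k - fe b1 b2 bO v y2 g' (k + 2)) / 2 := by
    linear_combination (1 / 2) * e2
  have h5 : fe b1 b2 bO v y2 g' (k + 1) - b2 * fe b1 b2 bO v y2 g' (k + 2) - fw b1 bO (k + 2) / 2 * v =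
      (fe b1 b2 bO v y2 g' (k + 1) - (2 * b2 * fe b1 b2 bO v y2 g' (k + 2) +
        fw b1 bO (k + 2) * v - fe b1 b2 bO v y2 g' (k + 1))) / 2 := by
    ring
  rw [h4, h5, h1, h2]
  nlinarith

/-- (*) in the chamber before `F` -/
theorem two_star (T : Two b1 b2 bO R κ f g x1 x2 g' v y2) {τ : ℝ} {k : ℕ}
    (Ti : Ta b2 τ (sq b2 (k + 2)) (sq b2 (k + 3)) (sq b2 (k + 1))) (hk1 : 0 < fm b2 κ (k + 1))
    (hk : 0 < fm b2 κ (k + 2)) (hK : (κ - τ) * (y2 * x1 - x2 * v) ≤ x1) :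
    1 ≤ (1 - b2 * τ) * fe b1 b2 bO v y2 g' (k + 2) + τ * (fe b1 b2 bO v y2 g' (k + 1) -
      b2 * fe b1 b2 bO v y2 g' (k + 2) - fw b1 bO (k + 2) / 2 * v) := by
  have hB := two_B T hk Ti.s0 Ti.hd hK
  have hv := T.v1
  have hx1 := T.p1
  refine star (rt_k T.h (k + 1)) Ti (x := v) (X := fe b1 b2 bO v y2 g' (k + 1))
    (Y' := fe b1 b2 bO x1 x2 g (k + 2)) (x' := x1) (X' := fe b1 b2 bO x1 x2 g (k + 1))
    (ra := fm b2 κ (k + 1)) (qu := fm b2 κ (k + 2)) (f := ev b1 b2 bO κ f (k + 1))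
    (rk_mem T.h T.hy (k + 1)) (rk_mem T.h T.hx (k + 1)) (T.e_pos hk) hv
    (z1_nonneg (fe_z T.h T.hx (by linarith) _)) (z1_nonneg (fe_z T.h T.hx (by linarith) _)) hx1 hk
    ?_ ?_ ?_ (two_bb T k) (by linarith)
  · have h1 := fan_val b1 b2 bO κ f v y2 g' (k + 1)
    have e1 : fe b1 b2 bO v y2 g' (k + 1 + 1) = fe b1 b2 bO v y2 g' (k + 2) := rfl
    have e2 : fm b2 κ (k + 1 + 1) = fm b2 κ (k + 2) := rfl
    rw [e1, e2] at h1
    rw [h1]
    linarith [T.fy]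
  · have h1 := fan_val b1 b2 bO κ f x1 x2 g (k + 1)
    have e1 : fe b1 b2 bO x1 x2 g (k + 1 + 1) = fe b1 b2 bO x1 x2 g (k + 2) := rfl
    have e2 : fm b2 κ (k + 1 + 1) = fm b2 κ (k + 2) := rfl
    rw [e1, e2] at h1
    rw [h1]
    linarith [T.fx]
  · have h1 := (T.cross (k + 1)).1
    have h2 : fe b1 b2 bO v y2 g' (k + 1) * x1 - v * fe b1 b2 bO x1 x2 g (k + 1) =
        fm b2 κ (k + 1) * (y2 * x1 - x2 * v) := by linarith
    rw [h2]
    have h3 : 0 < y2 * x1 - x2 * v := by linarith [T.st]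
    exact (mul_pos hk1 h3).ne'

end

section doubling

variable (b1 b2 bO κ f : ℝ)

/-- doubling formulas -/
theorem dbl (l : ℕ) :
    sq b2 (2 * l + 1) = sq b2 (l + 1) ^ 2 - sq b2 l ^ 2 ∧
    sq b2 (2 * l + 2) = sq b2 (l + 1) * (sq b2 (l + 2) - sq b2 l) ∧
    fm b2 κ (2 * l + 1) = sq b2 (l + 1) * fm b2 κ (l + 1) - sq b2 l * fm b2 κ l ∧
    fm b2 κ (2 * l + 2) = sq b2 (l + 1) * fm b2 κ (l + 2) - sq b2 l * fm b2 κ (l + 1) := by
  induction l with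
  | zero =>
    refine ⟨?_, ?_, ?_, ?_⟩
    · show (1 : ℝ) = 1 ^ 2 - 0 ^ 2
      ring
    · show 2 * b2 * 1 - 0 = 1 * (2 * b2 * 1 - 0 - 0)
      ring
    · show κ * 1 - 0 = 1 * (κ * 1 - 0) - 0 * 1
      ring
    · show κ * (2 * b2 * 1 - 0) - 1 = 1 * (κ * (2 * b2 * 1 - 0) - 1) - 0 * (κ * 1 - 0)
      ring
  | succ l ih =>
    obtain ⟨i1, i2, i3, i4⟩ := ih
    have e1 : 2 * (l + 1) + 1 = 2 * l + 1 + 2 := by ring
    have e2 : 2 * (l + 1) + 2 = 2 * l + 2 + 2 := by ring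
    have a1 : sq b2 (2 * l + 1 + 2) = 2 * b2 * sq b2 (2 * l + 2) - sq b2 (2 * l + 1) := rfl
    have a2 : sq b2 (2 * l + 2 + 2) = 2 * b2 * sq b2 (2 * l + 1 + 2) - sq b2 (2 * l + 2) := rfl
    have a3 := fm_rec b2 κ (2 * l + 1)
    have a3' : fm b2 κ (2 * l + 1 + 1) = fm b2 κ (2 * l + 2) := rfl
    have a4 := fm_rec b2 κ (2 * l + 2)
    have a4' : fm b2 κ (2 * l + 2 + 1) = fm b2 κ (2 * l + 1 + 2) := rfl
    rw [a3'] at a3
    rw [a4', a3] at a4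
    have s2 : sq b2 (l + 2) = 2 * b2 * sq b2 (l + 1) - sq b2 l := rfl
    have s3 : sq b2 (l + 1 + 2) = 2 * b2 * sq b2 (l + 2) - sq b2 (l + 1) := rfl
    have s2' : sq b2 (l + 1 + 1) = sq b2 (l + 2) := rfl
    have f2 := fm_rec b2 κ l
    have f3 := fm_rec b2 κ (l + 1)
    have f2' : fm b2 κ (l + 1 + 1) = fm b2 κ (l + 2) := rfl
    rw [f2'] at f3
    rw [e1, e2, a2, a1, a4, a3, i1, i2, i3, i4, s2', f2', s3, s2, f3, f2]
    refine ⟨?_, ?_, ?_, ?_⟩ <;> ring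

/-- closed form of the values of `e_k` -/
theorem ev_cl (l : ℕ) :
    ev b1 b2 bO κ f (2 * l) = f - 2 * sq b2 l * (bO * fm b2 κ l + b1 * fm b2 κ (l + 1)) ∧
    ev b1 b2 bO κ f (2 * l + 1) = f - 2 * (bO * sq b2 (l + 1) + b1 * sq b2 l) * fm b2 κ (l + 1) := by
  induction l with
  | zero =>
    constructor
    · show f = f - 2 * 0 * _
      ring
    · show f - (2 * bO) * fm b2 κ 1 = f - 2 * (bO * 1 + b1 * 0) * fm b2 κ 1
      ring
  | succ l ih =>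
    obtain ⟨-, -, i3, i4⟩ := dbl b2 κ l
    obtain ⟨-, -, j3, -⟩ := dbl b2 κ (l + 1)
    have e1 : 2 * (l + 1) = 2 * l + 1 + 1 := by ring
    have w1 : fw b1 bO (2 * l + 1 + 1) = 2 * b1 := by unfold fw; rw [if_pos (by omega)]
    have w2 : fw b1 bO (2 * l + 1 + 1 + 1) = 2 * bO := by unfold fw; rw [if_neg (by omega)]
    have a1 : ev b1 b2 bO κ f (2 * l + 1 + 1) = ev b1 b2 bO κ f (2 * l + 1) -
        fw b1 bO (2 * l + 1 + 1) * fm b2 κ (2 * l + 1 + 1) := rfl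
    have a2 : ev b1 b2 bO κ f (2 * l + 1 + 1 + 1) = ev b1 b2 bO κ f (2 * l + 1 + 1) -
        fw b1 bO (2 * l + 1 + 1 + 1) * fm b2 κ (2 * l + 1 + 1 + 1) := rfl
    have a3 : fm b2 κ (2 * l + 1 + 1) = fm b2 κ (2 * l + 2) := rfl
    have s2 : sq b2 (l + 1 + 1) = 2 * b2 * sq b2 (l + 1) - sq b2 l := rfl
    have f2 := fm_rec b2 κ l
    have f2' : fm b2 κ (l + 1 + 1) = fm b2 κ (l + 2) := rfl
    have h1 : ev b1 b2 bO κ f (2 * l + 1 + 1) =
        f - 2 * sq b2 (l + 1) * (bO * fm b2 κ (l + 1) + b1 * fm b2 κ (l + 1 + 1)) := by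
      rw [a1, w1, ih.2, a3, i4, f2']
      ring
    rw [e1]
    refine ⟨h1, ?_⟩
    have a4 : fm b2 κ (2 * l + 1 + 1 + 1) = fm b2 κ (2 * (l + 1) + 1) := by
      congr 1
    rw [a2, w2, h1, a4, j3]
    ring

end doubling

section functional

variable {b1 b2 bO τ : ℝ}

theorem fm_last {k : ℕ} (hd : sq b2 (k + 1) = τ * (sq b2 (k + 2) + 1)) : fm b2 τ (k + 2) = -τ := by
  show τ * sq b2 (k + 2) - sq b2 (k + 1) = -τ
  rw [hd]
  ring

theorem fm_pen {k : ℕ} (hS : sq b2 (k + 3) * τ = sq b2 (k + 2) - 1)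
    (hd : sq b2 (k + 1) = τ * (sq b2 (k + 2) + 1)) : fm b2 τ (k + 1) = 1 - 2 * b2 * τ := by
  have h1 : fm b2 τ (k + 3) = 2 * b2 * fm b2 τ (k + 2) - fm b2 τ (k + 1) := fm_rec b2 τ (k + 1)
  have h2 : fm b2 τ (k + 3) = τ * sq b2 (k + 3) - sq b2 (k + 2) := rfl
  rw [fm_last hd, h2] at h1
  linarith

/-- the functional in the chamber before `F` -/
theorem Lval {k : ℕ} (hS : sq b2 (k + 3) * τ = sq b2 (k + 2) - 1)
    (hd : sq b2 (k + 1) = τ * (sq b2 (k + 2) + 1)) (f v y g : ℝ) :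
    g - τ * y + v * f = (1 - b2 * τ) * fe b1 b2 bO v y g (k + 2) + τ * (fe b1 b2 bO v y g (k + 1) -
      b2 * fe b1 b2 bO v y g (k + 2) - fw b1 bO (k + 2) / 2 * v) +
      (fw b1 bO (k + 2) / 2 * τ + ev b1 b2 bO τ f (k + 1)) * v := by
  have h1 := fan_val b1 b2 bO τ f v y g (k + 1)
  have e1 : fe b1 b2 bO v y g (k + 1 + 1) = fe b1 b2 bO v y g (k + 2) := rfl
  have e2 : fm b2 τ (k + 1 + 1) = fm b2 τ (k + 2) := rfl
  rw [e1, e2, fm_last hd, fm_pen hS hd] at h1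
  linear_combination (-1 : ℝ) * h1

/-- even index `j = 2 l + 4`: `τ s_(l+2) = s_(l+1)`, the last value is `f - 2 bO τ` -/
theorem even_ix {l : ℕ} (hs : 0 < sq b2 (2 * l + 3)) (hd : sq b2 (2 * l + 2) = τ * (sq b2 (2 * l + 3) + 1))
    (f : ℝ) : τ * sq b2 (l + 2) = sq b2 (l + 1) ∧ ev b1 b2 bO τ f (2 * l + 2) = f - 2 * bO * τ := by
  obtain ⟨-, i2, -, -⟩ := dbl b2 τ l
  obtain ⟨j1, -, -, -⟩ := dbl b2 τ (l + 1)
  have c1 := sq_cassini b2 l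
  have e1 : sq b2 (2 * (l + 1) + 1) = sq b2 (2 * l + 3) := by congr 1
  have e2 : sq b2 (l + 1 + 1) = sq b2 (l + 2) := rfl
  rw [e1, e2] at j1
  have h1 : sq b2 (2 * l + 3) + 1 = sq b2 (l + 2) * (sq b2 (l + 2) - sq b2 l) := by
    linear_combination j1 - c1
  have hne : sq b2 (l + 2) - sq b2 l ≠ 0 := by
    intro h2
    rw [h2, mul_zero] at h1
    linarith
  have h2 : τ * sq b2 (l + 2) = sq b2 (l + 1) := by
    rw [i2, h1] at hd
    have h3 : (sq b2 (l + 2) - sq b2 l) * (τ * sq b2 (l + 2) - sq b2 (l + 1)) = 0 := by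
      linear_combination -hd
    rcases mul_eq_zero.1 h3 with h4 | h4
    · exact absurd h4 hne
    · linarith
  refine ⟨h2, ?_⟩
  have h3 := (ev_cl b1 b2 bO τ f (l + 1)).1
  have e3 : 2 * (l + 1) = 2 * l + 2 := by ring
  rw [e3] at h3
  rw [h3]
  have f1 : fm b2 τ (l + 1) = τ * sq b2 (l + 1) - sq b2 l := rfl
  have f2 : fm b2 τ (l + 1 + 1) = τ * sq b2 (l + 2) - sq b2 (l + 1) := rfl
  rw [f1, f2, h2]
  have h4 : sq b2 (l + 2) ≠ 0 := by
    intro h5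
    rw [h5, zero_mul] at h1
    linarith
  have h5 : sq b2 (l + 1) * (τ * sq b2 (l + 1) - sq b2 l) = τ := by
    have h6 : sq b2 (l + 2) * (sq b2 (l + 1) * (τ * sq b2 (l + 1) - sq b2 l) - τ) = 0 := by
      have h7 : sq b2 (l + 2) * (τ * sq b2 (l + 1) - sq b2 l) = 1 := by
        linear_combination sq b2 (l + 1) * h2 + c1
      linear_combination sq b2 (l + 1) * h7 - h2
    rcases mul_eq_zero.1 h6 with h7 | h7
    · exact absurd h7 h4
    · linarith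
  linear_combination (-2 * bO) * h5

/-- odd index `j = 2 l + 3` -/
theorem odd_ix {l : ℕ} (hs : 0 < sq b2 (2 * l + 2)) (hd : sq b2 (2 * l + 1) = τ * (sq b2 (2 * l + 2) + 1))
    (f : ℝ) : τ * (sq b2 (l + 2) + sq b2 (l + 1)) = sq b2 (l + 1) + sq b2 l ∧
      (ev b1 b2 bO τ f (2 * l + 1) - f) * (sq b2 (l + 2) + sq b2 (l + 1)) =
        -2 * (bO * sq b2 (l + 1) + b1 * sq b2 l) := by
  obtain ⟨i1, i2, -, -⟩ := dbl b2 τ l
  have c1 := sq_cassini b2 l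
  have h1 : sq b2 (2 * l + 2) + 1 = (sq b2 (l + 1) - sq b2 l) * (sq b2 (l + 2) + sq b2 (l + 1)) := by
    linear_combination i2 - c1
  have hne : sq b2 (l + 1) - sq b2 l ≠ 0 := by
    intro h2
    rw [h2, zero_mul] at h1
    linarith
  have h2 : τ * (sq b2 (l + 2) + sq b2 (l + 1)) = sq b2 (l + 1) + sq b2 l := by
    rw [i1, h1] at hd
    have h3 : (sq b2 (l + 1) - sq b2 l) * (τ * (sq b2 (l + 2) + sq b2 (l + 1)) -
        (sq b2 (l + 1) + sq b2 l)) = 0 := by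
      linear_combination -hd
    rcases mul_eq_zero.1 h3 with h4 | h4
    · exact absurd h4 hne
    · linarith
  refine ⟨h2, ?_⟩
  rw [(ev_cl b1 b2 bO τ f l).2]
  have f1 : fm b2 τ (l + 1) = τ * sq b2 (l + 1) - sq b2 l := rfl
  rw [f1]
  have h5 : (τ * sq b2 (l + 1) - sq b2 l) * (sq b2 (l + 2) + sq b2 (l + 1)) = 1 := by
    linear_combination sq b2 (l + 1) * h2 + c1
  linear_combination (-2 * (bO * sq b2 (l + 1) + b1 * sq b2 l)) * h5

end functional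

end DY.St29
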