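import Pool.Agent.Helper29.DY.Ix

/-!
# The final step of the case GAP with `h = d2` (MP_d13a5e_al)

`q1 = ρ d1`, `r = ρ d2`; `(g, x1, x2)` is `x_R`, `(g', x1', x2')` is `x_L`.
-/

set_option autoImplicit false

namespace DY.St29

open Set
open Pool.Agent.Helper62.DY (RT rt_of_tri ult_low)
open Pool.Agent.Helper32.DY (fw fe fe_mem fe_z fe_n fw_two z1_nonneg z1_one fm fm_rec bf Two)

/-- the data at `F` -/
structure Co (b1 b bO : ℝ) (R : ℝ → ℝ → ℝ → Prop) (κ f q1 r g x1 x2 g' x1' x2' : ℝ) (k : ℕ) (τ : ℝ) :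
    Prop where
  T : Two b1 b bO R κ f g' x1' x2' g x1 x2
  I : Ix b κ r k τ
  r1 : g + x1 * q1 + x2 * r ≤ 1
  r0 : 0 ≤ g' + x1' * q1 + x2' * r
  z : 0 < x2 - 2 * bO * x1
  fa : 0 ≤ f - 2 * bO * κ

theorem e_le {c e y : ℝ} (he : e ^ 2 - 2 * c * e + 1 = 0) (he0 : 0 < e) (he1 : e ≤ 1) (hy : 0 < y)
    (h : 1 ≤ y ∨ y ^ 2 + 1 ≤ 2 * c * y) : e ≤ y := by
  by_contra hcon
  have hcon := not_le.1 hcon
  rcases h with h | h
  · linarith
  · have h1 : e * (y ^ 2 + 1) ≤ e * (2 * c * y) := mul_le_mul_of_nonneg_left h he0.le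
    have h2 : (y - e) * (e * y - 1) ≤ 0 := by
      have : e * (2 * c * y) = y * (e ^ 2 + 1) := by linear_combination (-y) * he
      nlinarith
    have h3 : 0 ≤ e * y - 1 := by
      by_contra h4
      have := mul_pos_of_neg_of_neg (by linarith : y - e < 0) (not_le.1 h4)
      linarith
    have h4 : e * y < 1 * 1 := by
      have h5 := mul_lt_mul_of_pos_left hcon he0
      have h6 := mul_le_mul_of_nonneg_left he1 he0.le
      linarith
    linarith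

theorem kinf_ex {c : ℝ} (hc : 1 < c) : ∃ e : ℝ, e ^ 2 - 2 * c * e + 1 = 0 ∧ 0 < e ∧ e < 1 := by
  have h1 : 0 < c ^ 2 - 1 := by nlinarith
  have h2 := Real.sq_sqrt h1.le
  have h3 := Real.sqrt_pos.2 h1
  obtain ⟨w, hw⟩ : ∃ w, w = Real.sqrt (c ^ 2 - 1) := ⟨_, rfl⟩
  rw [← hw] at h2 h3
  refine ⟨c - w, ?_, ?_, ?_⟩
  · linear_combination h2
  · nlinarith
  · nlinarith

namespace Co

variable {b1 b bO : ℝ} {R : ℝ → ℝ → ℝ → Prop} {κ f q1 r g x1 x2 g' x1' x2' : ℝ} {k : ℕ} {τ e : ℝ}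

theorem K (C : Co b1 b bO R κ f q1 r g x1 x2 g' x1' x2' k τ) : (κ - τ) * (x2 * x1' - x2' * x1) ≤ x1' := by
  have hD : 0 < x2 * x1' - x2' * x1 := by linarith [C.T.st]
  have h1 : x1' * (g + x1 * q1 + x2 * r) - x1 * (g' + x1' * q1 + x2' * r) =
      (x2 * x1' - x2' * x1) * (κ + r) := by
    linear_combination x1' * C.T.fy - x1 * C.T.fx
  have h2 : (x2 * x1' - x2' * x1) * (κ + r) ≤ x1' := by
    rw [← h1]
    have h3 := mul_le_mul_of_nonneg_left C.r1 (by linarith [C.T.p1] : 0 ≤ x1')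
    have h4 := mul_nonneg (by linarith [C.T.v1] : 0 ≤ x1) C.r0
    linarith
  have h3 : -τ ≤ r := by rcases C.I.alt with ⟨-, -, h⟩ | ⟨-, -, -, -, h⟩ <;> linarith
  have h4 := mul_le_mul_of_nonneg_left (by linarith : κ - τ ≤ κ + r) hD.le
  linarith

theorem B (C : Co b1 b bO R κ f q1 r g x1 x2 g' x1' x2' k τ) :
    τ + fm b κ (k + 2) ≤ fe b1 b bO x1 x2 g (k + 1) - b * fe b1 b bO x1 x2 g (k + 2) -
      fw b1 bO (k + 2) / 2 * x1 :=
  two_B C.T (C.I.hf _ le_rfl) (by linarith [C.I.pos (k + 2) (by omega) le_rfl]) C.I.hd C.K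

theorem Y1 (C : Co b1 b bO R κ f q1 r g x1 x2 g' x1' x2' k τ) : 1 ≤ fe b1 b bO x1 x2 g (k + 2) :=
  C.T.e_pos (C.I.hf _ le_rfl)

theorem X1 (C : Co b1 b bO R κ f q1 r g x1 x2 g' x1' x2' k τ) : 1 ≤ fe b1 b bO x1 x2 g (k + 1) :=
  C.T.e_pos (C.I.hf _ (by omega))

theorem sta (C : Co b1 b bO R κ f q1 r g x1 x2 g' x1' x2' k τ) :
    1 ≤ (1 - b * τ) * fe b1 b bO x1 x2 g (k + 2) + τ * (fe b1 b bO x1 x2 g (k + 1) -
      b * fe b1 b bO x1 x2 g (k + 2) - fw b1 bO (k + 2) / 2 * x1) ∧ (-τ < r ∨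
    1 < (1 - b * τ) * fe b1 b bO x1 x2 g (k + 2) + τ * (fe b1 b bO x1 x2 g (k + 1) -
      b * fe b1 b bO x1 x2 g (k + 2) - fw b1 bO (k + 2) / 2 * x1)) := by
  rcases C.I.alt with ⟨h1, -, h2⟩ | ⟨-, -, h1, h2, -⟩
  · exact ⟨two_star C.T h1 (C.I.hf _ (by omega)) (C.I.hf _ le_rfl) C.K, Or.inl h2⟩
  · have hB := C.B
    have hY := C.Y1
    have hm := C.I.hf _ le_rfl
    have hb := C.I.hb
    rw [h1] at hB ⊢
    have h3 : 1 < (1 - b * b) * fe b1 b bO x1 x2 g (k + 2) + b * (fe b1 b bO x1 x2 g (k + 1) -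
      b * fe b1 b bO x1 x2 g (k + 2) - fw b1 bO (k + 2) / 2 * x1) := by
      have h4 := mul_le_mul_of_nonneg_left hY (by nlinarith : 0 ≤ 1 - b * b)
      have h5 := mul_lt_mul_of_pos_left (lt_of_lt_of_le (by linarith : b < b + fm b κ (k + 2)) hB)
        (by linarith : 0 < b)
      linarith
    exact ⟨h3.le, Or.inr h3⟩

theorem fin (C : Co b1 b bO R κ f q1 r g x1 x2 g' x1' x2' k τ) (hea : -e ≤ q1 + 2 * bO * r)
    (hL : 1 < g - τ * (x2 - 2 * bO * x1) - e * x1) : False := by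
  have h3 : -τ ≤ r := by rcases C.I.alt with ⟨-, -, h⟩ | ⟨-, -, -, -, h⟩ <;> linarith
  have h1 := C.r1
  have h4 := mul_le_mul_of_nonneg_right h3 C.z.le
  have h5 := mul_le_mul_of_nonneg_right hea (by linarith [C.T.v1] : 0 ≤ x1)
  have h6 : g + x1 * q1 + x2 * r = g + r * (x2 - 2 * bO * x1) + (q1 + 2 * bO * r) * x1 := by ring
  rw [h6] at h1
  linarith

theorem L_eq (C : Co b1 b bO R κ f q1 r g x1 x2 g' x1' x2' k τ) (e : ℝ) :
    g - τ * (x2 - 2 * bO * x1) - e * x1 = (1 - b * τ) * fe b1 b bO x1 x2 g (k + 2) +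
      τ * (fe b1 b bO x1 x2 g (k + 1) - b * fe b1 b bO x1 x2 g (k + 2) - fw b1 bO (k + 2) / 2 * x1) +
      (fw b1 bO (k + 2) / 2 * τ + ev b1 b bO τ (2 * bO * τ - e) (k + 1)) * x1 := by
  rw [← Lval C.I.hS C.I.hd (2 * bO * τ - e) x1 x2 g]
  ring

theorem finG (C : Co b1 b bO R κ f q1 r g x1 x2 g' x1' x2' k τ) (hea : -e ≤ q1 + 2 * bO * r)
    (hG : 0 ≤ fw b1 bO (k + 2) / 2 * τ + ev b1 b bO τ (2 * bO * τ - e) (k + 1)) : False := by
  obtain ⟨h1, h2⟩ := C.sta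
  have h3 := C.L_eq e
  have h4 := mul_nonneg hG (by linarith [C.T.v1] : 0 ≤ x1)
  rcases h2 with h2 | h2
  · have h5 := C.r1
    have h6 := mul_lt_mul_of_pos_right h2 C.z
    have h7 := mul_le_mul_of_nonneg_right hea (by linarith [C.T.v1] : 0 ≤ x1)
    have h8 : g + x1 * q1 + x2 * r = g + r * (x2 - 2 * bO * x1) + (q1 + 2 * bO * r) * x1 := by ring
    rw [h8] at h5
    linarith
  · exact C.fin hea (by linarith)

theorem G_even (C : Co b1 b bO R κ f q1 r g x1 x2 g' x1' x2' k τ) {l : ℕ} (hk : k = 2 * l + 1) (e : ℝ) :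
    fw b1 bO (k + 2) / 2 * τ + ev b1 b bO τ (2 * bO * τ - e) (k + 1) = bO * τ - e := by
  subst hk
  have h1 : fw b1 bO (2 * l + 1 + 2) = 2 * bO := by unfold fw; rw [if_neg (by omega)]
  have h2 : 0 < sq b (2 * l + 3) := by
    have := C.I.pos (2 * l + 3) (by omega) (by omega)
    linarith
  have hd : sq b (2 * l + 2) = τ * (sq b (2 * l + 3) + 1) := C.I.hd
  have h3 := (even_ix (b1 := b1) (bO := bO) h2 hd (2 * bO * τ - e)).2
  have e3 : ev b1 b bO τ (2 * bO * τ - e) (2 * l + 1 + 1) = ev b1 b bO τ (2 * bO * τ - e) (2 * l + 2) := rfl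
  rw [h1, e3, h3]
  ring

theorem G_odd (C : Co b1 b bO R κ f q1 r g x1 x2 g' x1' x2' k τ) {l : ℕ} (hk : k = 2 * l) (e : ℝ) :
    (fw b1 bO (k + 2) / 2 * τ + ev b1 b bO τ (2 * bO * τ - e) (k + 1)) * (sq b (l + 2) + sq b (l + 1)) =
      b1 * (sq b (l + 1) - sq b l) + 2 * bO * sq b l - e * (sq b (l + 2) + sq b (l + 1)) := by
  subst hk
  have h1 : fw b1 bO (2 * l + 2) = 2 * b1 := by unfold fw; rw [if_pos (by omega)]
  have h2 : 0 < sq b (2 * l + 2) := by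
    have := C.I.pos (2 * l + 2) (by omega) (by omega)
    linarith
  obtain ⟨h3, h4⟩ := odd_ix (b1 := b1) (bO := bO) h2 C.I.hd (2 * bO * τ - e)
  rw [h1]
  linear_combination h4 + (b1 + 2 * bO) * h3

end Co

end DY.St29
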