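import Pool.Agent.Helper29.DY.Gp

/-!
# The case GAP with `h = d2`, `x_L = a` (MP_d13a5e_al)
-/

set_option autoImplicit false

namespace DY.St29

open Set
open Pool.Agent.Helper62.DY (RT rt_of_tri ult_low)
open Pool.Agent.Helper32.DY (fw fe fe_mem fe_z fe_n fw_two z1_nonneg z1_one fm fm_rec bf Two)

namespace Co

variable {b1 b bO : ℝ} {R : ℝ → ℝ → ℝ → Prop} {κ f q1 r g x1 x2 g' x1' x2' : ℝ} {k : ℕ} {τ e : ℝ}

/-- `s_n ≥ 0` in the range, and `s_n ≥ 1` -/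
theorem sn (C : Co b1 b bO R κ f q1 r g x1 x2 g' x1' x2' k τ) {n : ℕ} (h : n ≤ k + 2) : 0 ≤ sq b n := by
  rcases Nat.eq_zero_or_pos n with h1 | h1
  · rw [h1]
    exact le_rfl
  · linarith [C.I.pos n h1 h]

theorem s_mono (C : Co b1 b bO R κ f q1 r g x1 x2 g' x1' x2' k τ) {l : ℕ} (h : 2 * l ≤ k) :
    sq b l < sq b (l + 1) := by
  have h1 := C.I.pos (2 * l + 1) (by omega) (by omega)
  have h2 := (dbl b 0 l).1
  have h3 := C.sn (n := l) (by omega)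
  have h4 := C.sn (n := l + 1) (by omega)
  rw [h2] at h1
  by_contra h5
  have h6 := mul_self_le_mul_self h4 (not_lt.1 h5)
  nlinarith

theorem xLa (C : Co b1 b bO R κ f q1 r g x1 x2 g' x1' x2' k τ) (hz' : x2' = 2 * bO * x1') : False := by
  have hg' : 0 ≤ g' := z1_nonneg (C.T.h.z1 C.T.hx (by linarith [C.T.p1])).1
  have hf := C.T.fx
  have hx := C.T.p1
  have h1 := mul_nonneg C.fa (by linarith : 0 ≤ x1')
  have h2 : g' = 0 := by
    rw [hz'] at hf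
    linarith
  have h3 : 0 ≤ q1 + 2 * bO * r := by
    have h4 := C.r0
    rw [h2, hz'] at h4
    have h5 : 0 ≤ x1' * (q1 + 2 * bO * r) := by linarith
    exact nonneg_of_mul_nonneg_right h5 (by linarith)
  have hbO := C.T.h.bOn
  have hb1 := C.T.h.b1n
  have ht : 0 ≤ τ := by
    rcases C.I.alt with ⟨h4, -, -⟩ | ⟨-, -, h4, -, -⟩
    · exact h4.t0.le
    · rw [h4]
      linarith [C.I.hb]
  refine C.finG (e := 0) (by linarith) ?_
  obtain ⟨l, hl | hl⟩ : ∃ l, k = 2 * l ∨ k = 2 * l + 1 := ⟨k / 2, by omega⟩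
  · have h4 := C.G_odd hl 0
    have h5 := C.s_mono (l := l) (by omega)
    have h6 := C.sn (n := l) (by omega)
    have h7 := C.sn (n := l + 2) (by omega)
    have h8 : 0 ≤ b1 * (sq b (l + 1) - sq b l) := mul_nonneg hb1 (by linarith)
    have h9 : 0 ≤ 2 * bO * sq b l := mul_nonneg (by linarith) h6
    refine nonneg_of_mul_nonneg_left (b := sq b (l + 2) + sq b (l + 1)) ?_ (by linarith)
    rw [h4]
    linarith
  · rw [C.G_even hl 0]
    have := mul_nonneg hbO ht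
    linarith

end Co

section

variable {E : Type*} [AddCommGroup E] [Module ℝ E]
variable {Ψ : Set E} {B : E →ₗ[ℝ] E →ₗ[ℝ] ℝ} {ρ φ : E →ₗ[ℝ] ℝ} {t d1 d2 x x' : E}
variable {g x1 x2 g' x1' x2' al1 al2 : ℝ}

theorem co_of (X : Xs Ψ B ρ φ t d1 d2 x x' g x1 x2 g' x1' x2') (ha : 0 ≤ φ d1 + 2 * -B d1 d2 * φ d2)
    (hz : 0 < x2 - 2 * -B d1 d2 * x1) : ∃ k τ, Co (-B t d1) (-B t d2) (-B d1 d2)
      (fun g x1 x2 => g • t + x1 • d1 + x2 • d2 ∈ Ψ) (-φ d2) (φ d1) (ρ d1) (ρ d2) g x1 x2 g' x1' x2' k τ := by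
  obtain ⟨k, τ, I⟩ := ix X ha hz
  obtain ⟨h1, -, h3, -⟩ := X.le_one
  exact ⟨k, τ, two X, I, h1, h3, hz, by linarith⟩

/-- the data of two adjacent `O`-roots with `h = d2` -/
theorem of_d2 (O : OFA Ψ B φ d1 d2 al1 al2 0 1) : al1 = 1 ∧ al2 = 2 * -B d1 d2 := by
  have h1 := O.det
  have h2 := O.adj
  have h3 : al1 = 1 := by linarith
  refine ⟨h3, ?_⟩
  rw [h3] at h2
  linarith

/-- **GAP with `h = d2`, `x_L = a`** (all labels) -/
theorem gap_xLa (X : Xs Ψ B ρ φ t d1 d2 x x' g x1 x2 g' x1' x2') (O : OFA Ψ B φ d1 d2 al1 al2 0 1)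
    (h1 : 0 < al1 * x2 - al2 * x1) (h2 : al1 * x2' - al2 * x1' = 0) : False := by
  obtain ⟨e1, e2⟩ := of_d2 O
  have hfa := O.fa
  rw [e1, e2] at h1 h2 hfa
  obtain ⟨k, τ, C⟩ := co_of X (by linarith) (by linarith)
  exact C.xLa (by linarith)

end

end DY.St29
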