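import Pool.Agent.Helper29.DY.Gp

/-!
# Real inequalities for the case GAP with `h = d2`, `m_O ≥ 4` (MP_d13a5e_al)
-/

set_option autoImplicit false

namespace DY.St29

theorem e_lt {c e y : ℝ} (he : e ^ 2 - 2 * c * e + 1 = 0) (he0 : 0 < e) (he1 : e ≤ 1) (hy : 0 < y)
    (h : y ^ 2 + 1 < 2 * c * y) : e < y := by
  rcases (e_le he he0 he1 hy (Or.inr h.le)).lt_or_eq with h1 | h1
  · exact h1
  · exfalso
    rw [← h1] at h
    linarith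

/-- contradiction for `2 b1 = 1`, `X ≤ x1` -/
theorem n2 {b q X Y x : ℝ} (hbq : 1 ≤ 4 * (b * q)) (hY : 1 ≤ Y)
    (hn : Y ^ 2 + X ^ 2 + x ^ 2 - 2 * b * X * Y - X * x - 2 * q * Y * x = 1)
    (hD : 0 < X / 2 + q * Y - x) (hB : 0 < X - b * Y - x / 2) (hk : X ≤ x) : False := by
  have h1 : 0 < x - 2 * b * Y := by linarith
  have h2 : 0 < 2 * q * Y - x := by linarith
  have h3 : 0 < X - 2 * b * Y := by linarith
  have h4 := mul_pos h1 h2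
  have h5 := mul_nonneg (by linarith : 0 ≤ x - X) h3.le
  have h6 : Y ^ 2 * 1 ≤ Y ^ 2 * (4 * (b * q)) := mul_le_mul_of_nonneg_left hbq (sq_nonneg _)
  nlinarith

theorem r_pos {q : ℝ} (h : 1 ≤ 2 * q ^ 2) (h0 : 0 ≤ q) : 0 < q ∧ 7 / 10 ≤ q := by
  constructor
  · rcases h0.lt_or_eq with h1 | h1
    · exact h1
    · rw [← h1] at h
      norm_num at h
  · by_contra h1
    have h2 := mul_self_lt_mul_self h0 (not_le.1 h1)
    linarith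

theorem r_g {w : ℝ} (h : 3 ≤ w ^ 2) (h0 : 0 ≤ w) : w + 1 ≤ w ^ 2 := by
  nlinarith

/-- labels at least golden -/
theorem r_G {b : ℝ} (h : 2 * b + 1 ≤ (2 * b) ^ 2) (h0 : 0 < b) : 4 / 5 ≤ b ∧ 5 / 8 ≤ b ^ 2 := by
  have h1 : 4 / 5 ≤ b := by
    by_contra h2
    have h3 := not_le.1 h2
    nlinarith
  exact ⟨h1, by nlinarith⟩

theorem r_even1 {b1 b q τ e : ℝ} (h1 : 1 ≤ 2 * b * τ) (t0 : 0 < τ) (t1 : τ < 1) (hb1 : 1 ≤ 2 * b1)
    (hO : 1 ≤ 2 * q ^ 2) (hq0 : 0 < q) (hq7 : 7 / 10 ≤ q) (he : e ^ 2 - 2 * (b1 + 2 * q * b) * e + 1 = 0)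
    (he0 : 0 < e) (he1 : e ≤ 1) : e ≤ q * τ := by
  have h2 : 0 < q * τ := mul_pos hq0 t0
  refine e_le he he0 he1 h2 (Or.inr ?_)
  have h4 : q ^ 2 * 1 ≤ q ^ 2 * (2 * b * τ) := mul_le_mul_of_nonneg_left h1 (sq_nonneg _)
  have h5 : 1 * (q * τ) ≤ (2 * b1) * (q * τ) := mul_le_mul_of_nonneg_right hb1 h2.le
  have h7 : τ * (7 / 10) ≤ τ * q := mul_le_mul_of_nonneg_left hq7 t0.le
  have h9 : τ * τ ≤ 1 * τ := mul_le_mul_of_nonneg_right t1.le t0.le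
  have h8 : (1 / 2) * (2 - τ ^ 2) ≤ q ^ 2 * (2 - τ ^ 2) :=
    mul_le_mul_of_nonneg_right (by linarith) (by nlinarith)
  have h10 : 2 * (b1 + 2 * q * b) * (q * τ) = (2 * b1) * (q * τ) + 2 * (q ^ 2 * (2 * b * τ)) := by ring
  have h11 : (q * τ) ^ 2 = q ^ 2 * τ ^ 2 := by ring
  rw [h10, h11]
  linarith

theorem r_even0 {b q τ e : ℝ} (h1 : 2 * b ≤ τ * (4 * b ^ 2 - 1)) (h2 : 3 ≤ 4 * b ^ 2) (hb : 1 ≤ 2 * b)
    (t0 : 0 < τ) (t1 : τ < 1) (hO : 1 ≤ 2 * q ^ 2) (hq0 : 0 < q)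
    (he : e ^ 2 - 2 * (2 * q * b) * e + 1 = 0) (he0 : 0 < e) (he1 : e ≤ 1) : e ≤ q * τ := by
  have h3 : 2 ≤ τ * (4 * b - τ) := by
    obtain ⟨m, hm⟩ : ∃ m, m = 4 * b ^ 2 - 1 := ⟨_, rfl⟩
    rw [← hm] at h1
    have hm2 : 2 ≤ m := by linarith
    have h4 : 0 ≤ (τ * m - 2 * b) * (4 * b * m - τ * m - 2 * b) := by
      refine mul_nonneg (by linarith) ?_
      have h5 : τ * m ≤ 1 * m := mul_le_mul_of_nonneg_right t1.le (by linarith)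
      have h6 : (4 * b - 1) * 2 ≤ (4 * b - 1) * m := mul_le_mul_of_nonneg_left hm2 (by linarith)
      linarith
    have h7 : m ^ 2 * 2 ≤ m ^ 2 * (τ * (4 * b - τ)) := by
      have h8 : m ^ 2 * (τ * (4 * b - τ)) = (τ * m - 2 * b) * (4 * b * m - τ * m - 2 * b) +
          4 * b ^ 2 * (2 * m - 1) := by ring
      have h9 : 4 * b ^ 2 = m + 1 := by linarith
      rw [h8, h9]
      linarith
    exact le_of_mul_le_mul_left h7 (by positivity)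
  refine e_le he he0 he1 (mul_pos hq0 t0) (Or.inr ?_)
  have h5 : (1 / 2) * 2 ≤ q ^ 2 * (τ * (4 * b - τ)) := mul_le_mul (by linarith) h3 (by norm_num) (sq_nonneg _)
  have h6 : 2 * (2 * q * b) * (q * τ) = q ^ 2 * (τ * (4 * b - τ)) + (q * τ) ^ 2 := by ring
  rw [h6]
  linarith

theorem r_four {b q τ e : ℝ} (h1 : 2 * b * τ = 1) (hb : 0 < b) (hq0 : 0 < q) (t0 : 0 < τ)
    (h3 : q ^ 2 + 4 * b ^ 2 ≤ 8 * b ^ 2 * q ^ 2) (he : e ^ 2 - 2 * (2 * q * b) * e + 1 = 0) (he0 : 0 < e)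
    (he1 : e ≤ 1) : e ≤ q * τ := by
  refine e_le he he0 he1 (mul_pos hq0 t0) (Or.inr ?_)
  have h5 : 4 * b ^ 2 * ((q * τ) ^ 2 + 1) ≤ 4 * b ^ 2 * (2 * (2 * q * b) * (q * τ)) := by
    have e5 : 4 * b ^ 2 * ((q * τ) ^ 2 + 1) = q ^ 2 * (2 * b * τ) ^ 2 + 4 * b ^ 2 := by ring
    have e6 : 4 * b ^ 2 * (2 * (2 * q * b) * (q * τ)) = 8 * b ^ 2 * q ^ 2 * (2 * b * τ) := by ring
    rw [e5, e6, h1]
    linarith
  exact le_of_mul_le_mul_left h5 (by positivity)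

theorem r_cc {b q : ℝ} (hb : (2 * b) ^ 2 = 2) (hq : (2 * q) ^ 2 = 2) (hc : 1 < 2 * q * b) : False := by
  have h3 : (2 * q * b) ^ 2 = 1 := by
    have : (2 * q * b) ^ 2 = (2 * q) ^ 2 * (2 * b) ^ 2 / 4 := by ring
    rw [this, hb, hq]
    norm_num
  have h4 := mul_lt_mul'' hc hc zero_le_one zero_le_one
  linarith

theorem r_nn {Y D : ℝ} (hY : 1 ≤ Y) (hD : 0 < D) (h : Y ^ 2 + D ^ 2 = 1) : False := by
  have h1 := pow_pos hD 2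
  have h2 := mul_self_le_mul_self zero_le_one hY
  linarith

theorem r_GG1 {b q : ℝ} (hb : (2 * b) ^ 2 = 2) (hq : 3 ≤ (2 * q) ^ 2) : q ^ 2 + 4 * b ^ 2 ≤ 8 * b ^ 2 * q ^ 2 := by
  have h1 : 4 * b ^ 2 = 2 := by linarith
  have h2 : 8 * b ^ 2 * q ^ 2 = 2 * (4 * b ^ 2) * q ^ 2 := by ring
  rw [h2, h1]
  linarith

theorem r_GG2 {b q : ℝ} (hb : 5 / 8 ≤ b ^ 2) (hq : 5 / 8 ≤ q ^ 2) : q ^ 2 + 4 * b ^ 2 ≤ 8 * b ^ 2 * q ^ 2 := by
  have h1 := mul_nonneg (by linarith : 0 ≤ b ^ 2 - 5 / 8) (by linarith : 0 ≤ q ^ 2 - 5 / 8)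
  nlinarith

theorem r_gold1 {q : ℝ} (h : (2 * q) ^ 2 = 2 * q + 1) : q < 1 := by
  by_contra h1
  have h2 := not_lt.1 h1
  nlinarith

/-- golden ratio, `j = 5` -/
theorem r_odd5 {b1 b q e : ℝ} (h3 : (2 * b) ^ 2 = 2 * b + 1) (hb : 1 ≤ 2 * b) (hb8 : 4 / 5 ≤ b) (hb1 : 1 ≤ 2 * b1)
    (hO : 1 ≤ 2 * q ^ 2) (hq7 : 7 / 10 ≤ q) (he : e ^ 2 - 2 * (b1 + 2 * q * b) * e + 1 = 0)
    (he0 : 0 < e) (he1 : e ≤ 1) : e * (4 * b) ≤ b1 * (2 * b - 1) + 2 * q := by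
  have hy : 0 < (b1 * (2 * b - 1) + 2 * q) / (4 * b) := by
    apply div_pos _ (by linarith)
    have := mul_nonneg (by linarith : 0 ≤ b1) (by linarith : 0 ≤ 2 * b - 1)
    linarith
  have h5 := e_le he he0 he1 hy (Or.inr (by
    have h6 : (4 * b) ^ 2 * (((b1 * (2 * b - 1) + 2 * q) / (4 * b)) ^ 2 + 1) ≤
        (4 * b) ^ 2 * (2 * (b1 + 2 * q * b) * ((b1 * (2 * b - 1) + 2 * q) / (4 * b))) := by
      have hb0 : (4 * b) ≠ 0 := by linarith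
      have e7 : (4 * b) ^ 2 * (((b1 * (2 * b - 1) + 2 * q) / (4 * b)) ^ 2 + 1) =
          (b1 * (2 * b - 1) + 2 * q) ^ 2 + 16 * b ^ 2 := by
        field_simp
        ring
      have e8 : (4 * b) ^ 2 * (2 * (b1 + 2 * q * b) * ((b1 * (2 * b - 1) + 2 * q) / (4 * b))) =
          8 * b * (b1 + 2 * q * b) * (b1 * (2 * b - 1) + 2 * q) := by
        field_simp
        ring
      rw [e7, e8]
      have hb9 : b ≤ 9 / 10 := by nlinarith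
      have e9 : (b1 * (2 * b - 1) + 2 * q) ^ 2 = b1 ^ 2 * (2 - 2 * b) + 4 * b1 * q * (2 * b - 1) +
          4 * q ^ 2 := by linear_combination (b1 ^ 2) * h3
      have e10 : 8 * b * (b1 + 2 * q * b) * (b1 * (2 * b - 1) + 2 * q) =
          4 * b1 ^ 2 + 24 * b1 * q * b + 8 * q ^ 2 * (2 * b + 1) := by
        linear_combination (4 * b1 ^ 2 + 8 * b * b1 * q + 8 * q ^ 2) * h3
      have h11 : 1 / 4 ≤ b1 ^ 2 := by nlinarith
      have h12 : 7 / 20 ≤ b1 * q := by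
        have := mul_le_mul (by linarith : 1 / 2 ≤ b1) hq7 (by norm_num) (by linarith)
        linarith
      have h13 := mul_le_mul_of_nonneg_right h11 (by linarith : 0 ≤ 2 + 2 * b)
      have h14 := mul_le_mul_of_nonneg_right h12 (by linarith : 0 ≤ 16 * b + 4)
      have h15 := mul_le_mul_of_nonneg_right (by linarith : 1 / 2 ≤ q ^ 2) (by linarith : 0 ≤ 16 * b + 4)
      have h16 : 16 * b ^ 2 = 8 * b + 4 := by linarith
      rw [e9, e10, h16]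
      linarith
    exact le_of_mul_le_mul_left h6 (by positivity)))
  have h6 : e * (4 * b) ≤ (b1 * (2 * b - 1) + 2 * q) / (4 * b) * (4 * b) :=
    mul_le_mul_of_nonneg_right h5 (by linarith)
  rw [div_mul_cancel₀ _ (by linarith : (4 * b) ≠ 0)] at h6
  exact h6

/-- the bound of `e_3` -/
theorem r_e3 {b1 b q τ e : ℝ} (h3 : 3 ≤ (2 * b) ^ 2) (hb0 : 0 < b) (hbt : 1 ≤ 2 * b * τ) (t0 : 0 < τ) (t1 : τ < 1)
    (hb1 : 1 ≤ 2 * b1) (hq7 : 7 / 10 ≤ q)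
    (he : e ^ 2 - 2 * (b1 * (4 * b ^ 2 - 1) + 2 * q * b) * e + 1 = 0)
    (he0 : 0 < e) (he1 : e ≤ 1) : e ≤ b1 * τ := by
  refine e_le he he0 he1 (mul_pos (by linarith) t0) (Or.inr ?_)
  have hb17 : 17 / 10 ≤ 2 * b := by
    by_contra h
    have := mul_self_lt_mul_self (by linarith : 0 ≤ 2 * b) (not_le.1 h)
    linarith
  have h7 : 7 / 10 ≤ b1 * (2 * q * (2 * b * τ)) := by
    have h8 : 7 / 5 * 1 ≤ 2 * q * (2 * b * τ) := mul_le_mul (by linarith) hbt (by norm_num) (by linarith)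
    have h9 := mul_le_mul (by linarith : 1 / 2 ≤ b1) h8 (by norm_num) (by linarith)
    linarith
  have h9 : 12 / 10 ≤ 2 * (4 * b ^ 2 - 1) * τ - τ ^ 2 := by
    have h11 : 17 / 10 * 1 ≤ 2 * b * (2 * b * τ) := mul_le_mul hb17 hbt (by norm_num) (by linarith)
    have h12 : τ * τ ≤ 1 * τ := mul_le_mul_of_nonneg_right t1.le t0.le
    have h14 : 2 * (4 * b ^ 2 - 1) * τ - τ ^ 2 = 2 * (2 * b * (2 * b * τ)) - 2 * τ - τ * τ := by ring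
    rw [h14]
    -- `τ ≤ 1`
    nlinarith
  have h13 : 1 / 4 ≤ b1 ^ 2 := by nlinarith
  have h14 : (1 / 4) * (12 / 10) ≤ b1 ^ 2 * (2 * (4 * b ^ 2 - 1) * τ - τ ^ 2) :=
    mul_le_mul h13 h9 (by norm_num) (sq_nonneg _)
  have h15 : 2 * (b1 * (4 * b ^ 2 - 1) + 2 * q * b) * (b1 * τ) = b1 * (2 * q * (2 * b * τ)) +
      b1 ^ 2 * (2 * (4 * b ^ 2 - 1) * τ - τ ^ 2) + (b1 * τ) ^ 2 := by ring
  rw [h15]
  linarith

/-- `j = 3`, `2 b1 = 1` -/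
theorem r_three1 {b q τ e : ℝ} (hτ : τ * (2 * b + 1) = 1) (hb : 7 / 10 ≤ b) (hq : 7 / 10 ≤ q) (t0 : 0 < τ)
    (he : e ^ 2 - 2 * (1 / 2 + 2 * q * b) * e + 1 = 0) (he0 : 0 < e) (he1 : e ≤ 1) : e < 2 * (1 / 2) * τ := by
  refine e_lt he he0 he1 (by linarith) ?_
  have h5 : (2 * b + 1) ^ 2 * ((2 * (1 / 2) * τ) ^ 2 + 1) <
      (2 * b + 1) ^ 2 * (2 * (1 / 2 + 2 * q * b) * (2 * (1 / 2) * τ)) := by
    have e1 : (2 * b + 1) ^ 2 * ((2 * (1 / 2) * τ) ^ 2 + 1) = (τ * (2 * b + 1)) ^ 2 + (2 * b + 1) ^ 2 := by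
      ring
    have e2 : (2 * b + 1) ^ 2 * (2 * (1 / 2 + 2 * q * b) * (2 * (1 / 2) * τ)) =
        (1 + 4 * (q * b)) * (2 * b + 1) * (τ * (2 * b + 1)) := by ring
    rw [e1, e2, hτ]
    have h6 : 7 / 10 * b ≤ q * b := mul_le_mul_of_nonneg_right hq (by linarith)
    have h7 := mul_le_mul_of_nonneg_right h6 (by linarith : 0 ≤ 2 * b + 1)
    nlinarith
  exact lt_of_mul_lt_mul_left h5 (by positivity)

/-- `j = 3`, `2 b1² = 1` -/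
theorem r_three2 {b q p τ e : ℝ} (hτ : τ * (2 * b + 1) = 1) (hb : 1 ≤ 2 * b) (hq : 1 ≤ 2 * q ^ 2) (hq0 : 0 < q)
    (hp : (2 * p) ^ 2 = 2) (hp0 : 0 < p) (t0 : 0 < τ)
    (he : e ^ 2 - 2 * (p + 2 * q * b) * e + 1 = 0) (he0 : 0 < e) (he1 : e ≤ 1) : e < 2 * p * τ := by
  refine e_lt he he0 he1 (by positivity) ?_
  have h5 : (2 * b + 1) ^ 2 * ((2 * p * τ) ^ 2 + 1) < (2 * b + 1) ^ 2 * (2 * (p + 2 * q * b) * (2 * p * τ)) := by
    have e1 : (2 * b + 1) ^ 2 * ((2 * p * τ) ^ 2 + 1) = (2 * p) ^ 2 * (τ * (2 * b + 1)) ^ 2 + (2 * b + 1) ^ 2 := by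
      ring
    have e2 : (2 * b + 1) ^ 2 * (2 * (p + 2 * q * b) * (2 * p * τ)) =
        ((2 * p) ^ 2 + 8 * (p * q) * b) * (2 * b + 1) * (τ * (2 * b + 1)) := by ring
    rw [e1, e2, hτ, hp]
    have h6 : 1 / 2 ≤ p * q := by
      have h7 : 1 / 2 * (1 / 2) ≤ p ^ 2 * q ^ 2 := mul_le_mul (by linarith) (by linarith) (by norm_num) (sq_nonneg _)
      by_contra h8
      have h9 := mul_self_lt_mul_self (by positivity : 0 ≤ p * q) (not_le.1 h8)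
      have h10 : p * q * (p * q) = p ^ 2 * q ^ 2 := by ring
      linarith
    have h9 : 1 / 2 * b ≤ p * q * b := mul_le_mul_of_nonneg_right h6 (by linarith)
    have h10 := mul_le_mul_of_nonneg_right h9 (by linarith : 0 ≤ 2 * b + 1)
    nlinarith
  exact lt_of_mul_lt_mul_left h5 (by positivity)

/-- `j = 3`, `(2 b1)² ≥ 2 b1 + 1` -/
theorem r_three3 {b q p τ e : ℝ} (hτ : τ * (2 * b + 1) = 1) (hb : 1 ≤ 2 * b) (hq : 7 / 10 ≤ q)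
    (hp : 4 / 5 ≤ p) (hp2 : 13 / 20 ≤ p ^ 2) (t0 : 0 < τ)
    (he : e ^ 2 - 2 * (p + 2 * q * b) * e + 1 = 0) (he0 : 0 < e) (he1 : e ≤ 1) : e ≤ p * τ := by
  refine e_le he he0 he1 (mul_pos (by linarith) t0) (Or.inr ?_)
  have h6 : (2 * b + 1) ^ 2 * ((p * τ) ^ 2 + 1) ≤ (2 * b + 1) ^ 2 * (2 * (p + 2 * q * b) * (p * τ)) := by
    have e4 : (2 * b + 1) ^ 2 * ((p * τ) ^ 2 + 1) = p ^ 2 * (τ * (2 * b + 1)) ^ 2 + (2 * b + 1) ^ 2 := by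
      ring
    have e5 : (2 * b + 1) ^ 2 * (2 * (p + 2 * q * b) * (p * τ)) =
        (2 * p ^ 2 + 4 * (p * q) * b) * (2 * b + 1) * (τ * (2 * b + 1)) := by ring
    rw [e4, e5, hτ]
    have h7 : 4 / 5 * (7 / 10) ≤ p * q := mul_le_mul hp hq (by norm_num) (by linarith)
    have h9 : 4 / 5 * (7 / 10) * b ≤ p * q * b := mul_le_mul_of_nonneg_right h7 (by linarith)
    have h10 : 4 / 5 * (7 / 10) * b * (2 * b + 1) ≤ p * q * b * (2 * b + 1) :=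
      mul_le_mul_of_nonneg_right h9 (by linarith)
    have h11 : 13 / 20 * (4 * b + 1) ≤ p ^ 2 * (4 * b + 1) := mul_le_mul_of_nonneg_right hp2 (by linarith)
    nlinarith
  exact le_of_mul_le_mul_left h6 (by positivity)

end DY.St29
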