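import Pool.Agent.Helper29.DY.GpA
import Pool.Agent.Helper29.DY.Rl

/-!
# Common facts for the case GAP with `h = d2` (MP_d13a5e_al)
-/

set_option autoImplicit false

namespace DY.St29

open Set
open Pool.Agent.Helper62.DY (RT rt_of_tri ult_low LA_one Sa_fin1)
open Pool.Agent.Helper32.DY (fw fe fe_mem fe_z fe_n fw_two z1_nonneg z1_one fm fm_rec bf Two)

namespace Co

variable {b1 b bO : ℝ} {R : ℝ → ℝ → ℝ → Prop} {κ f q1 r g x1 x2 g' x1' x2' : ℝ} {k : ℕ} {τ e : ℝ}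

theorem tau (C : Co b1 b bO R κ f q1 r g x1 x2 g' x1' x2' k τ) :
    0 < τ ∧ τ < 1 ∧ τ ≤ b ∧ 0 < 1 - 2 * b * τ + τ ^ 2 := by
  rcases C.I.alt with ⟨T, -, -⟩ | ⟨-, -, h1, h2, -⟩
  · refine ⟨T.t0, T.t1, ?_, T.dp⟩
    by_contra h
    have h := not_le.1 h
    have h1 := T.sone
    have h2 := T.bt
    have h3 := T.hd
    have h4 := T.hm
    have h5 := T.hS
    have h6 := T.t0
    obtain ⟨s, hs⟩ : ∃ s, s = sq b (k + 2) := ⟨_, rfl⟩
    obtain ⟨S, hSe⟩ : ∃ S, S = sq b (k + 3) := ⟨_, rfl⟩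
    rw [← hs] at h1 h3 h4 h5
    rw [← hSe] at h4 h5
    rw [h3] at h4
    have h7 : b * (s + 1) < τ * (s + 1) := mul_lt_mul_of_pos_right h (by linarith)
    have h8 : S < b * (s - 1) := by linarith
    have h9 : S * τ < b * (s - 1) * τ := mul_lt_mul_of_pos_right h8 h6
    have h10 : 0 < (1 - b * τ) * (s - 1) := mul_pos h2 (by linarith)
    rw [h5] at h9
    linarith
  · have hb := C.I.hb
    rw [h1]
    exact ⟨by linarith, h2, le_rfl, by nlinarith⟩

theorem b0 (C : Co b1 b bO R κ f q1 r g x1 x2 g' x1' x2' k τ) : 0 < b := by linarith [C.I.hb]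

/-- `B(x_R, a) < 0` if `x_L ≠ a` -/
theorem Da (C : Co b1 b bO R κ f q1 r g x1 x2 g' x1' x2' k τ) (hz' : 0 < x2' - 2 * bO * x1') :
    0 < (b1 + 2 * bO * b) * g - bO * (x2 - 2 * bO * x1) - x1 := by
  have hD : 0 < x2 * x1' - x2' * x1 := by linarith [C.T.st]
  have hn := C.T.h.n _ _ _ C.T.hy
  have hB := C.T.hB
  have ho := C.T.obt
  have hz := C.z
  have h1 : (x2 * x1' - x2' * x1) * ((b1 + 2 * bO * b) * g - bO * (x2 - 2 * bO * x1) - x1) =
      -((x2 - 2 * bO * x1) * bf b1 b bO g' x1' x2' g x1 x2) + (x2' - 2 * bO * x1') +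
        ((f - 2 * bO * κ) * (x2 * x1' - x2' * x1)) * (b1 * x1 + b * x2 - g) := by
    have h2 : (x2' - 2 * bO * x1') * g - (x2 - 2 * bO * x1) * g' =
        (f - 2 * bO * κ) * (x2 * x1' - x2' * x1) := by
      linear_combination (x2' - 2 * bO * x1') * C.T.fy - (x2 - 2 * bO * x1) * C.T.fx
    rw [← h2]
    unfold bf
    linear_combination (x2' - 2 * bO * x1') * hn
  have h3 : 0 ≤ -((x2 - 2 * bO * x1) * bf b1 b bO g' x1' x2' g x1 x2) := by
    have := mul_nonpos_of_nonneg_of_nonpos hz.le hB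
    linarith
  have h4 : 0 ≤ ((f - 2 * bO * κ) * (x2 * x1' - x2' * x1)) * (b1 * x1 + b * x2 - g) :=
    mul_nonneg (mul_nonneg C.fa hD.le) (by linarith)
  have h5 : 0 < (x2 * x1' - x2' * x1) * ((b1 + 2 * bO * b) * g - bO * (x2 - 2 * bO * x1) - x1) := by
    rw [h1]
    linarith
  exact (mul_pos_iff_of_pos_left hD).1 h5

/-- the differences are positive -/
theorem dpos (C : Co b1 b bO R κ f q1 r g x1 x2 g' x1' x2' k τ) {n : ℕ} (hn : n ≤ k + 1) :
    fe b1 b bO x1 x2 g (n + 2) < fe b1 b bO x1 x2 g n := by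
  have h1 := (C.T.diff n).1
  have h2 := C.I.hf (n + 1) (by omega)
  have h3 := C.I.pos (n + 1) (by omega) (by omega)
  have h4 := C.T.b_pos
  have h5 : 0 ≤ 2 * b1 * x1 + 2 * b * x2 - 2 * g := by linarith [C.T.obt]
  have h6 := mul_nonneg h2.le h5
  have h7 := mul_pos (by linarith : 0 < sq b (n + 1)) h4
  have h8 : 0 < fe b1 b bO x1 x2 g n - fe b1 b bO x1 x2 g (n + 2) := by
    rw [h1]
    exact add_pos_of_nonneg_of_pos h6 h7
  linarith

/-- facts for an even index -/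
theorem even_f (C : Co b1 b bO R κ f q1 r g x1 x2 g' x1' x2' k τ) {l : ℕ} (hk : k = 2 * l + 1) :
    1 ≤ 2 * b * τ ∧ 1 ≤ 2 * b ^ 2 ∧ (l = 0 → 2 * b * τ = 1) ∧
      (1 ≤ l → 2 * b ≤ τ * (4 * b ^ 2 - 1) ∧ 3 ≤ 4 * b ^ 2) := by
  subst hk
  have h2 : 0 < sq b (2 * l + 3) := by
    have := C.I.pos (2 * l + 3) (by omega) (by omega)
    linarith
  have hd : sq b (2 * l + 2) = τ * (sq b (2 * l + 3) + 1) := C.I.hd
  have h3 := (even_ix (b1 := b1) (bO := bO) h2 hd 0).1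
  have h4 := C.I.pos (l + 2) (by omega) (by omega)
  have h5 := C.sn (n := l) (by omega)
  have h6 : sq b (l + 2) = 2 * b * sq b (l + 1) - sq b l := rfl
  have s2 : sq b 2 = 2 * b := by
    show 2 * b * 1 - 0 = _
    ring
  have s3 : sq b 3 = 4 * b ^ 2 - 1 := by
    show 2 * b * sq b 2 - 1 = _
    rw [s2]
    ring
  have hb := C.b0
  refine ⟨?_, ?_, ?_, ?_⟩
  · have h7 : 1 * sq b (l + 2) ≤ (2 * b * τ) * sq b (l + 2) := by
      have : (2 * b * τ) * sq b (l + 2) = 2 * b * (τ * sq b (l + 2)) := by ring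
      rw [this, h3]
      linarith
    exact le_of_mul_le_mul_right h7 (by linarith)
  · have := C.I.pos 3 (by omega) (by omega)
    rw [s3] at this
    linarith
  · intro hl
    subst hl
    have e1 : sq b (0 + 2) = 2 * b := s2
    have e2 : sq b (0 + 1) = 1 := rfl
    rw [e1, e2] at h3
    linarith
  · intro hl
    obtain ⟨m, rfl⟩ : ∃ m, l = m + 1 := ⟨l - 1, by omega⟩
    have e1 : sq b (m + 1 + 2) = 2 * b * sq b (m + 2) - sq b (m + 1) := rfl
    have e2 : sq b (m + 1 + 1) = 2 * b * sq b (m + 1) - sq b m := rfl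
    have e3 : sq b (m + 1 + 1) = sq b (m + 2) := rfl
    have h7 := C.sn (n := m) (by omega)
    constructor
    · have h8 : 0 ≤ sq b (m + 1 + 2) * (τ * (4 * b ^ 2 - 1) - 2 * b) := by
        have h9 : sq b (m + 1 + 2) * (τ * (4 * b ^ 2 - 1) - 2 * b) = sq b m := by
          have h10 : sq b (m + 1 + 2) * (τ * (4 * b ^ 2 - 1) - 2 * b) =
              (τ * sq b (m + 1 + 2)) * (4 * b ^ 2 - 1) - 2 * b * sq b (m + 1 + 2) := by ring
          rw [h10, h3, e1, e3.symm, e2]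
          ring
        rw [h9]
        exact h7
      have h11 := nonneg_of_mul_nonneg_right h8 (by linarith)
      linarith
    · have s4 : sq b 4 = 2 * b * (4 * b ^ 2 - 1) - 2 * b := by
        show 2 * b * sq b 3 - sq b 2 = _
        rw [s2, s3]
      have s5 : sq b 5 = 2 * b * (2 * b * (4 * b ^ 2 - 1) - 2 * b) - (4 * b ^ 2 - 1) := by
        show 2 * b * sq b 4 - sq b 3 = _
        rw [s4, s3]
      have h12 := C.I.pos 5 (by omega) (by omega)
      rw [s5] at h12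
      have h13 : 0 ≤ (4 * b ^ 2) * (4 * b ^ 2 - 3) := by linarith
      have h14 := nonneg_of_mul_nonneg_right h13 (by positivity)
      linarith

/-- facts for an odd index -/
theorem odd_f (C : Co b1 b bO R κ f q1 r g x1 x2 g' x1' x2' k τ) {l : ℕ} (hk : k = 2 * l) :
    τ * (sq b (l + 2) + sq b (l + 1)) = sq b (l + 1) + sq b l ∧ 0 < sq b (l + 2) + sq b (l + 1) ∧
      (1 ≤ l → 2 * b + 1 ≤ 4 * b ^ 2 ∧ 2 * b + 1 ≤ τ * (4 * b ^ 2 + 2 * b - 1) ∧
        sq b (l + 1) ≤ 2 * b * sq b l ∧ 1 ≤ 2 * b * τ ∧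
        sq b l ≤ (2 * b * τ - 1) * (sq b (l + 2) + sq b (l + 1))) := by
  subst hk
  have h2 : 0 < sq b (2 * l + 2) := by
    have := C.I.pos (2 * l + 2) (by omega) (by omega)
    linarith
  have h3 := (odd_ix (b1 := b1) (bO := bO) h2 C.I.hd 0).1
  have h4 := C.I.pos (l + 1) (by omega) (by omega)
  have h4' := C.sn (n := l + 2) (by omega)
  have hS : 0 < sq b (l + 2) + sq b (l + 1) := by linarith
  refine ⟨h3, hS, ?_⟩
  intro hl
  obtain ⟨m, rfl⟩ : ∃ m, l = m + 1 := ⟨l - 1, by omega⟩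
  have e1 : sq b (m + 1 + 2) = 2 * b * sq b (m + 2) - sq b (m + 1) := rfl
  have e2 : sq b (m + 2) = 2 * b * sq b (m + 1) - sq b m := rfl
  have e3 : sq b (m + 1 + 1) = sq b (m + 2) := rfl
  rw [e3] at h3 h4 hS ⊢
  have h7 := C.sn (n := m) (by omega)
  have h8 := C.sn (n := m + 1) (by omega)
  have hb := C.b0
  have s2 : sq b 2 = 2 * b := by
    show 2 * b * 1 - 0 = _
    ring
  have s3 : sq b 3 = 4 * b ^ 2 - 1 := by
    show 2 * b * sq b 2 - 1 = _
    rw [s2]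
    ring
  have s4 : sq b 4 = 2 * b * (4 * b ^ 2 - 1) - 2 * b := by
    show 2 * b * sq b 3 - sq b 2 = _
    rw [s2, s3]
  have s5 : sq b 5 = 2 * b * (2 * b * (4 * b ^ 2 - 1) - 2 * b) - (4 * b ^ 2 - 1) := by
    show 2 * b * sq b 4 - sq b 3 = _
    rw [s4, s3]
  have hbb : 2 * b + 1 ≤ 4 * b ^ 2 := by
    have h9 : 0 ≤ sq b 5 := by
      rcases Nat.eq_zero_or_pos m with hm | hm
      · subst hm
        rcases C.I.alt with ⟨-, h, -⟩ | ⟨-, h, -⟩
        · have h10 : (1 : ℝ) ≤ sq b 5 := h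
          linarith
        · have h10 : sq b 5 = 0 := h
          rw [h10]
      · exact C.sn (by omega)
    have h10 := C.I.pos 4 (by omega) (by omega)
    rw [s5] at h9
    rw [s4] at h10
    have h11 : 0 < 4 * b ^ 2 - 2 := by
      by_contra h
      have := mul_nonpos_of_nonneg_of_nonpos (by linarith : 0 ≤ 2 * b) (not_lt.1 h)
      linarith
    have h12 : 0 ≤ (4 * b ^ 2 - 2 * b - 1) * (4 * b ^ 2 + 2 * b - 1) := by
      have : (4 * b ^ 2 - 2 * b - 1) * (4 * b ^ 2 + 2 * b - 1) =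
        2 * b * (2 * b * (4 * b ^ 2 - 1) - 2 * b) - (4 * b ^ 2 - 1) := by ring
      rw [this]
      exact h9
    have h13 := nonneg_of_mul_nonneg_left h12 (by linarith)
    linarith
  have hfin : sq b (m + 1) ≤ (2 * b * τ - 1) * (sq b (m + 1 + 2) + sq b (m + 2)) := by
    have h9 : (2 * b * τ - 1) * (sq b (m + 1 + 2) + sq b (m + 2)) =
        2 * b * (τ * (sq b (m + 1 + 2) + sq b (m + 2))) - (sq b (m + 1 + 2) + sq b (m + 2)) := by ring
    rw [h9, h3, e1]
    linarith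
  refine ⟨hbb, ?_, by linarith, ?_, hfin⟩
  · have h9 : 0 ≤ (sq b (m + 1 + 2) + sq b (m + 2)) * (τ * (4 * b ^ 2 + 2 * b - 1) - (2 * b + 1)) := by
      have h10 : (sq b (m + 1 + 2) + sq b (m + 2)) * (τ * (4 * b ^ 2 + 2 * b - 1) - (2 * b + 1)) =
          (2 * b + 2) * sq b m := by
        have h11 : (sq b (m + 1 + 2) + sq b (m + 2)) * (τ * (4 * b ^ 2 + 2 * b - 1) - (2 * b + 1)) =
            (τ * (sq b (m + 1 + 2) + sq b (m + 2))) * (4 * b ^ 2 + 2 * b - 1) -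
              (2 * b + 1) * (sq b (m + 1 + 2) + sq b (m + 2)) := by ring
        rw [h11, h3, e1, e2]
        ring
      rw [h10]
      exact mul_nonneg (by linarith) h7
    have h12 := nonneg_of_mul_nonneg_right h9 hS
    linarith
  · have h9 : 0 ≤ (2 * b * τ - 1) * (sq b (m + 1 + 2) + sq b (m + 2)) := by linarith
    have h10 := nonneg_of_mul_nonneg_left h9 hS
    linarith

end Co

end DY.St29
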