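import Pool.Agent.Helper29.DY.GpB
import Pool.Agent.Helper81.DY.N4
import Pool.Agent.Helper99.DY.N5

/-!
# The case GAP with `h = d2`, `m_O ≥ 4`, even index (MP_d13a5e_al)
-/

set_option autoImplicit false

namespace DY.St29

open Set
open Pool.Agent.Helper62.DY (RT rt_of_tri ult_low LA_one Sa_fin1)
open Pool.Agent.Helper32.DY (fw fe fe_mem fe_z fe_n fw_two z1_nonneg z1_one fm fm_rec bf Two)

namespace Co

variable {b1 b bO : ℝ} {R : ℝ → ℝ → ℝ → Prop} {κ f q1 r g x1 x2 g' x1' x2' : ℝ} {k : ℕ} {τ e : ℝ}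

/-- even index, `b1 ≥ 1/2` -/
theorem even1 (C : Co b1 b bO R κ f q1 r g x1 x2 g' x1' x2' k τ) {l : ℕ} (hk : k = 2 * l + 1)
    (hb1 : 1 ≤ 2 * b1) (hO : 1 ≤ 2 * bO ^ 2) (he : e ^ 2 - 2 * (b1 + 2 * bO * b) * e + 1 = 0) (he0 : 0 < e)
    (he1 : e ≤ 1) (hea : -e ≤ q1 + 2 * bO * r) : False := by
  refine C.finG hea ?_
  rw [C.G_even hk e]
  obtain ⟨h1, -, -, -⟩ := C.even_f hk
  obtain ⟨t0, t1, -, -⟩ := C.tau
  obtain ⟨p1, p2⟩ := r_pos hO C.T.h.bOn
  have h2 := r_even1 h1 t0 t1 hb1 hO p1 p2 he he0 he1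
  linarith

/-- even index `j ≥ 6`, `b1 = 0` -/
theorem even0 (C : Co 0 b bO R κ f q1 r g x1 x2 g' x1' x2' k τ) {l : ℕ} (hk : k = 2 * l + 1) (hl : 1 ≤ l)
    (hO : 1 ≤ 2 * bO ^ 2) (he : e ^ 2 - 2 * (2 * bO * b) * e + 1 = 0) (he0 : 0 < e)
    (he1 : e ≤ 1) (hea : -e ≤ q1 + 2 * bO * r) : False := by
  refine C.finG hea ?_
  rw [C.G_even hk e]
  obtain ⟨-, -, -, h1⟩ := C.even_f hk
  obtain ⟨h1, h2⟩ := h1 hl
  obtain ⟨t0, t1, -, -⟩ := C.tau
  obtain ⟨p1, p2⟩ := r_pos hO C.T.h.bOn
  have h4 := r_even0 h1 h2 C.I.hb t0 t1 hO p1 he he0 he1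
  linarith

/-- index `4`, `b1 = 0` -/
theorem four0 (C : Co 0 b bO R κ f q1 r g x1 x2 g' x1' x2' k τ) (hk : k = 1)
    (hO : 1 ≤ 2 * bO ^ 2) (hc : 1 < 2 * bO * b) (hz' : 0 < x2' - 2 * bO * x1')
    (he : e ^ 2 - 2 * (2 * bO * b) * e + 1 = 0) (he0 : 0 < e)
    (he1 : e ≤ 1) (hea : -e ≤ q1 + 2 * bO * r) : False := by
  obtain ⟨-, h2, h1, -⟩ := C.even_f (l := 0) hk
  have h1 := h1 rfl
  have hbO := C.T.h.bOn
  obtain ⟨hbO', -⟩ := r_pos hO hbO
  have hb := C.b0
  have hx := C.T.v1
  have hB := C.B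
  have hY := C.Y1
  have hf2 := C.I.hf (k + 2) le_rfl
  have hda := C.Da hz'
  have hd1 := C.dpos (n := 1) (by omega)
  have hG := fun h => C.finG hea h
  have hGe := C.G_even (l := 0) hk e
  subst hk
  obtain ⟨X, hX⟩ : ∃ X, X = fe 0 b bO x1 x2 g 2 := ⟨_, rfl⟩
  obtain ⟨Y, hYe⟩ : ∃ Y, Y = fe 0 b bO x1 x2 g 3 := ⟨_, rfl⟩
  have w2 : fw 0 bO 2 = 2 * 0 := rfl
  have w3 : fw 0 bO 3 = 2 * bO := rfl
  have eB1 : fe 0 b bO x1 x2 g (1 + 1) = X := hX.symm
  have eB2 : fe 0 b bO x1 x2 g (1 + 2) = Y := hYe.symm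
  have eB3 : fw 0 bO (1 + 2) = 2 * bO := rfl
  rw [eB1, eB2, eB3] at hB
  rw [eB2] at hY hd1
  have X2 : X = 2 * b * g - (x2 - 2 * bO * x1) := by
    rw [hX]
    show 2 * b * g + 2 * bO * x1 - x2 = _
    ring
  have Y2 : Y = 2 * b * X - g := by
    rw [hYe, hX]
    show 2 * b * fe 0 b bO x1 x2 g 2 + 2 * 0 * x1 - g = _
    ring
  have hn : Y ^ 2 + X ^ 2 + x1 ^ 2 - 2 * b * X * Y - 2 * bO * X * x1 = 1 := by
    have := fe_n C.T.h C.T.hy 2
    have e3 : fe 0 b bO x1 x2 g (2 + 1) = Y := hYe.symm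
    have e4 : fw 0 bO (2 + 1) = 2 * bO := rfl
    rw [e3, e4, w2, ← hX] at this
    linarith
  have hA : Y < b * X := by
    have e3 : fe 0 b bO x1 x2 g 1 = g := rfl
    rw [e3] at hd1
    linarith
  have hD : 0 < bO * X - x1 := by
    rw [X2]
    linarith
  have hmem : R Y x1 X := by
    rcases fe_mem C.T.h C.T.hy 2 with ⟨-, h3, -, -⟩ | ⟨h3, -⟩
    · have e3 : fe 0 b bO x1 x2 g (2 + 1) = Y := hYe.symm
      rw [e3, ← hX] at h3
      exact h3
    · norm_num at h3
  have hfin : 2 * b * (1 + e * x1) < X → False := by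
    intro h3
    refine C.fin hea ?_
    have h4 : 2 * b * 1 < 2 * b * (g - τ * (x2 - 2 * bO * x1) - e * x1) := by
      have : 2 * b * (g - τ * (x2 - 2 * bO * x1) - e * x1) =
          X + (1 - 2 * b * τ) * (x2 - 2 * bO * x1) - 2 * b * (e * x1) := by
        rw [X2]
        ring
      rw [this, h1]
      linarith
    exact lt_of_mul_lt_mul_left h4 (by linarith)
  have hGG : bO ^ 2 + 4 * b ^ 2 ≤ 8 * b ^ 2 * bO ^ 2 → False := by
    intro h3
    refine hG ?_
    rw [hGe]
    obtain ⟨t0, -, -, -⟩ := C.tau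
    have h4 := r_four h1 hb hbO' t0 h3 he he0 he1
    linarith
  have lb := lab C.T.h
  have lO := lab (rt_swap1 C.T.h)
  have hb2 : (2 * b) ^ 2 = 2 ∨ 2 * b + 1 ≤ (2 * b) ^ 2 := by
    rcases lb with h3 | h3 | h3 | h3 | h3
    · exfalso; linarith
    · exfalso
      have : b = 1 / 2 := by linarith
      rw [this] at h2
      norm_num at h2
    · exact Or.inl h3
    · exact Or.inr h3.ge
    · exact Or.inr (r_g h3 (by linarith))
  have hO2 : (2 * bO) ^ 2 = 2 ∨ 2 * bO + 1 ≤ (2 * bO) ^ 2 := by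
    rcases lO with h3 | h3 | h3 | h3 | h3
    · exfalso; linarith
    · exfalso
      have : bO = 1 / 2 := by linarith
      rw [this] at hO
      norm_num at hO
    · exact Or.inl h3
    · exact Or.inr h3.ge
    · exact Or.inr (r_g h3 (by linarith))
  rcases hO2 with hO2 | hO2
  · -- `bO² = 1/2`
    rcases hb2 with hb2 | hb2
    · exact (r_cc hb2 hO2 hc).elim
    · -- N4
      refine hfin (Pool.Agent.Helper81.DY.n4 (p := bO) (Y := Y) (by linarith) hbO' hb (by linarith) he0 he1
        (by linarith) hY hx hn hD hA ?_)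
      -- the reflected root
      have h3 := C.T.h.r2 _ _ _ (C.T.h.r1 _ _ _ (C.T.h.r2 _ _ _ hmem))
      have h4 := (C.T.h.z0 h3 (by linarith)).2.2
      have e7 : 2 * b * Y + 2 * bO * (2 * 0 * Y + 2 * bO * (2 * b * Y + 2 * bO * x1 - X) - x1) -
          (2 * b * Y + 2 * bO * x1 - X) = 4 * b * Y - X := by
        linear_combination (2 * b * Y + 2 * bO * x1 - X) * hO2
      rw [e7] at h4
      rcases h4 with h4 | h4
      · exfalso
        have h5 : Y ^ 2 + (bO * X - x1) ^ 2 = 1 := by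
          have h6 : X = 4 * b * Y := by linarith
          have h7 : Y ^ 2 + (bO * X - x1) ^ 2 = Y ^ 2 + X ^ 2 + x1 ^ 2 - 2 * b * X * Y - 2 * bO * X * x1 := by
            have h8 : 2 * b * X * Y = X ^ 2 / 2 := by
              rw [h6]
              ring
            rw [h8]
            linear_combination (X ^ 2 / 4) * hO2
          rw [h7, hn]
        exact r_nn hY hD h5
      · exact h4
  · rcases hb2 with hb2 | hb2
    · -- `b² = 1/2`
      rcases lO with h3 | h3 | h3 | h3 | h3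
      · linarith
      · rw [h3] at hO2
        norm_num at hO2
      · exact (r_cc hb2 h3 hc).elim
      · -- N5
        have hp1 : bO < 1 := r_gold1 h3
        have hK : bO ≠ 1 := hp1.ne
        refine hfin (Pool.Agent.Helper99.DY.n5 (p := bO) (K := b / (1 - bO)) (Y := Y) (by linarith) hb
          (by linarith) hbO' he0 he1 (by linarith) hY hx hn ?_ (by
            have : (1 - bO) ≠ 0 := by
              intro h; apply hK; linarith
            field_simp) ?_)
        · have h4 : τ = b := by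
            have h5 : 2 * b * (τ - b) = 0 := by linarith
            rcases mul_eq_zero.1 h5 with h6 | h6 <;> linarith
          rw [h4] at hB
          linarith
        · -- opposite chamber, `m = 5`
          have s2 : sq bO 2 = 2 * bO := by
            show 2 * bO * 1 - 0 = _
            ring
          have s3 : sq bO 3 = 2 * bO := by
            show 2 * bO * sq bO 2 - 1 = _
            rw [s2]
            linarith
          have s4 : sq bO 4 = 1 := by
            show 2 * bO * sq bO 3 - sq bO 2 = _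
            rw [s2, s3]
            linarith
          have s5 : sq bO 5 = 0 := by
            show 2 * bO * sq bO 4 - sq bO 3 = _
            rw [s4, s3]
            ring
          rcases opp C.T.h hmem (by linarith) (m := 3) s5 s4 hp1 with ⟨h4, -⟩ | ⟨-, h4⟩
          · norm_num at h4
          · have h5 := h4 (b / (1 - bO)) (by
              have : (1 - bO) ≠ 0 := by
                intro h; apply hK; linarith
              field_simp
              ring)
            obtain ⟨-, h6, h7⟩ := C.T.h.z0 h5 (by linarith)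
            have h8 := z1_nonneg h6
            rcases h7 with h7 | h7
            · exfalso
              have h9 : bO * X ≤ 1 * X := mul_le_mul_of_nonneg_right hp1.le (by
                have h11 := mul_pos hb (by linarith : 0 < Y)
                have h12 : 0 < b * X := by linarith
                exact ((mul_pos_iff_of_pos_left hb).1 h12).le)
              linarith
            · linarith
      · exact hGG (r_GG1 hb2 h3)
    · exact hGG (r_GG2 (r_G hb2 hb).2 (r_G hO2 hbO').2)

end Co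

end DY.St29
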