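import Pool.Agent.Helper29.DY.GpB
import Pool.Agent.Helper81.DY.N6

/-!
# The case GAP with `h = d2`, `m_O ≥ 4`, odd index (MP_d13a5e_al)
-/

set_option autoImplicit false

namespace DY.St29

open Set
open Pool.Agent.Helper62.DY (RT rt_of_tri ult_low LA_one Sa_fin1)
open Pool.Agent.Helper32.DY (fw fe fe_mem fe_z fe_n fw_two z1_nonneg z1_one fm fm_rec bf Two)

namespace Co

variable {b1 b bO : ℝ} {R : ℝ → ℝ → ℝ → Prop} {κ f q1 r g x1 x2 g' x1' x2' : ℝ} {k : ℕ} {τ e : ℝ}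

/-- odd index `j ≥ 5`, `b1 = 0` -/
theorem odd0 (C : Co 0 b bO R κ f q1 r g x1 x2 g' x1' x2' k τ) {l : ℕ} (hk : k = 2 * l) (hl : 1 ≤ l)
    (hO : 1 ≤ 2 * bO ^ 2) (he : e ^ 2 - 2 * (2 * bO * b) * e + 1 = 0) (he0 : 0 < e)
    (he1 : e ≤ 1) (hea : -e ≤ q1 + 2 * bO * r) : False := by
  obtain ⟨h1, hS, h2⟩ := C.odd_f hk
  obtain ⟨hbb, ht5, hsl, -, -⟩ := h2 hl
  obtain ⟨t0, t1, tb, tt⟩ := C.tau
  have hbO := C.T.h.bOn
  obtain ⟨hbO', -⟩ := r_pos hO hbO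
  have hb := C.b0
  have hx := C.T.v1
  have hf2 := C.I.hf (k + 2) le_rfl
  have hB := C.B
  have hG := C.G_odd hk e
  have w1 : fw 0 bO (k + 1) = 2 * bO := by unfold fw; rw [if_neg (by omega)]
  have w2 : fw 0 bO (k + 2) = 0 := by unfold fw; rw [if_pos (by omega)]; ring
  rw [w2] at hB
  have hN : x1 + 1 ≤ fw 0 bO (k + 2) * fe 0 b bO x1 x2 g (k + 1) +
      fw 0 bO (k + 1) * fe 0 b bO x1 x2 g (k + 2) :=
    C.T.r_pos (k := k + 1) (C.I.hf _ (by omega)) hf2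
  rw [w1, w2] at hN
  have hn := fe_n C.T.h C.T.hy (k + 1)
  have e1 : fe 0 b bO x1 x2 g (k + 1 + 1) = fe 0 b bO x1 x2 g (k + 2) := rfl
  have e2 : fw 0 bO (k + 1 + 1) = fw 0 bO (k + 2) := rfl
  rw [e1, e2, w1, w2] at hn
  have hz := fe_z C.T.h C.T.hy (by linarith) (k + 3)
  have e3 : fe 0 b bO x1 x2 g (k + 3) = 2 * b * fe 0 b bO x1 x2 g (k + 2) + fw 0 bO (k + 2) * x1 -
      fe 0 b bO x1 x2 g (k + 1) := rfl
  rw [e3, w2] at hz
  have hA : (sq b l / (sq b (l + 2) + sq b (l + 1))) * (sq b (l + 2) + sq b (l + 1)) = sq b l :=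
    div_mul_cancel₀ _ hS.ne'
  obtain ⟨A, hAe⟩ : ∃ A, A = sq b l / (sq b (l + 2) + sq b (l + 1)) := ⟨_, rfl⟩
  rw [← hAe] at hA
  have hG2 : fw 0 bO (k + 2) / 2 * τ + ev 0 b bO τ (2 * bO * τ - e) (k + 1) = 2 * bO * A - e := by
    have h3 : (fw 0 bO (k + 2) / 2 * τ + ev 0 b bO τ (2 * bO * τ - e) (k + 1) - (2 * bO * A - e)) *
        (sq b (l + 2) + sq b (l + 1)) = 0 := by
      linear_combination hG - 2 * bO * hA
    rcases mul_eq_zero.1 h3 with h4 | h4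
    · linarith
    · exfalso
      linarith
  have hAt : τ ≤ A * (2 * b + 1) := by
    have h3 : τ * (sq b (l + 2) + sq b (l + 1)) ≤ A * (2 * b + 1) * (sq b (l + 2) + sq b (l + 1)) := by
      rw [h1]
      have : A * (2 * b + 1) * (sq b (l + 2) + sq b (l + 1)) =
        (2 * b + 1) * (A * (sq b (l + 2) + sq b (l + 1))) := by ring
      rw [this, hA]
      linarith
    exact le_of_mul_le_mul_right h3 hS
  refine C.fin hea ?_
  rw [C.L_eq e, hG2, w2]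
  have h6 := Pool.Agent.Helper81.DY.n6 (b := b) (q := bO) (τ := τ) (e := e) (A := A)
    (X := fe 0 b bO x1 x2 g (k + 1)) (Y := fe 0 b bO x1 x2 g (k + 2)) (x := x1) hO hbO' hb hbb t0 tb t1 tt
    ht5 hAt he0 he1 (by linarith) C.Y1 hx (by linarith) (by
      rcases hz with h | h
      · left; linarith
      · right; linarith) (by linarith) (by linarith)
  linarith

/-- the final step with the root `e_3` -/
theorem finG3 (C : Co b1 b bO R κ f q1 r g x1 x2 g' x1' x2' k τ)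
    (hea : -e ≤ 2 * b1 + q1 + (2 * bO + 4 * b1 * b) * r) (hz3 : 0 < x2 - (2 * bO + 4 * b1 * b) * x1)
    (hG : 0 ≤ fw b1 bO (k + 2) / 2 * τ + ev b1 b bO τ (2 * bO * τ - (e - 2 * b1 * (2 * b * τ - 1))) (k + 1)) :
    False := by
  obtain ⟨h1, h2⟩ := C.sta
  have h3 := C.L_eq (e - 2 * b1 * (2 * b * τ - 1))
  have hx := C.T.v1
  have h4 := mul_nonneg hG (by linarith : 0 ≤ x1)
  have h5 := C.r1
  have h7 := mul_le_mul_of_nonneg_right hea (by linarith : 0 ≤ x1)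
  have h8 : g + x1 * q1 + x2 * r = g - 2 * b1 * x1 + r * (x2 - (2 * bO + 4 * b1 * b) * x1) +
      (2 * b1 + q1 + (2 * bO + 4 * b1 * b) * r) * x1 := by ring
  rw [h8] at h5
  rcases h2 with h2 | h2
  · have h6 := mul_lt_mul_of_pos_right h2 hz3
    linarith
  · have h9 : -τ ≤ r := by rcases C.I.alt with ⟨-, -, h⟩ | ⟨-, -, -, -, h⟩ <;> linarith
    have h6 := mul_le_mul_of_nonneg_right h9 hz3.le
    linarith

/-- odd index `j ≥ 5`, `b1 ≥ 1/2` -/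
theorem odd1 (C : Co b1 b bO R κ f q1 r g x1 x2 g' x1' x2' k τ) {l : ℕ} (hk : k = 2 * l) (hl : 1 ≤ l)
    (hb1 : 1 ≤ 2 * b1) (hO : 1 ≤ 2 * bO ^ 2)
    (he : e ^ 2 - 2 * (b1 + 2 * bO * b) * e + 1 = 0) (he0 : 0 < e) (he1 : e ≤ 1) (hea : -e ≤ q1 + 2 * bO * r)
    (he3 : ∀ e3, e3 ^ 2 - 2 * (b1 * (4 * b ^ 2 - 1) + 2 * bO * b) * e3 + 1 = 0 → 0 < e3 → e3 < 1 →
      -e3 ≤ 2 * b1 + q1 + (2 * bO + 4 * b1 * b) * r) : False := by
  obtain ⟨h1, hS, h2⟩ := C.odd_f hk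
  obtain ⟨hbb, ht5, hsl, hbt, hsl2⟩ := h2 hl
  obtain ⟨t0, t1, tb, tt⟩ := C.tau
  have hbO := C.T.h.bOn
  obtain ⟨hbO', hO7⟩ := r_pos hO hbO
  have hb := C.b0
  have hx := C.T.v1
  have s2 : sq b 2 = 2 * b := by
    show 2 * b * 1 - 0 = _
    ring
  have s3 : sq b 3 = 4 * b ^ 2 - 1 := by
    show 2 * b * sq b 2 - 1 = _
    rw [s2]
    ring
  rcases lab C.T.h with h3 | h3 | h3 | h3 | h3
  · exfalso; linarith
  · exfalso
    have : b = 1 / 2 := by linarith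
    rw [this] at hbb
    norm_num at hbb
  · exfalso
    have h4 := (r_G (by linarith) hb).2
    linarith
  · -- golden ratio, `j = 5`, `F` beyond
    have hl1 : l = 1 := by
      by_contra h
      have s4 : sq b 4 = 2 * b * (4 * b ^ 2 - 1) - 2 * b := by
        show 2 * b * sq b 3 - sq b 2 = _
        rw [s2, s3]
      have s5 : sq b 5 = 2 * b * (2 * b * (4 * b ^ 2 - 1) - 2 * b) - (4 * b ^ 2 - 1) := by
        show 2 * b * sq b 4 - sq b 3 = _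
        rw [s4, s3]
      have h5 := C.I.pos 5 (by omega) (by omega)
      rw [s5] at h5
      have h6 : 2 * b * (2 * b * (4 * b ^ 2 - 1) - 2 * b) - (4 * b ^ 2 - 1) = 0 := by
        linear_combination (4 * b ^ 2 + 2 * b - 1) * h3
      linarith
    subst hl1
    have hG := C.G_odd hk e
    have e1 : sq b (1 + 2) = 4 * b ^ 2 - 1 := s3
    have e2 : sq b (1 + 1) = 2 * b := s2
    have e3 : sq b 1 = 1 := rfl
    rw [e1, e2, e3] at hG
    refine C.finG hea ?_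
    have h4b : 4 * b ^ 2 - 1 + 2 * b = 4 * b := by linarith
    rw [h4b] at hG
    refine nonneg_of_mul_nonneg_left (b := 4 * b) ?_ (by linarith)
    rw [hG]
    have h6 := r_odd5 h3 C.I.hb (r_G h3.ge hb).1 hb1 hO hO7 he he0 he1
    linarith
  · -- the root `e_3`
    have hc3 : 1 < b1 * (4 * b ^ 2 - 1) + 2 * bO * b := by
      have h4 : (1 / 2) * 2 ≤ b1 * (4 * b ^ 2 - 1) := mul_le_mul (by linarith) (by linarith) (by norm_num) (by linarith)
      have h5 := mul_pos hbO' hb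
      linarith
    obtain ⟨e3, k1, k2, k3⟩ := kinf_ex hc3
    have hz3 : 0 < x2 - (2 * bO + 4 * b1 * b) * x1 := by
      have hd := C.dpos (n := 2) (by omega)
      have hE3 : 1 ≤ fe b1 b bO x1 x2 g 3 := C.T.e_pos (C.I.hf 3 (by omega))
      obtain ⟨Z2, hZ2⟩ : ∃ Z, Z = fe b1 b bO x1 x2 g 2 := ⟨_, rfl⟩
      obtain ⟨Z3, hZ3⟩ : ∃ Z, Z = fe b1 b bO x1 x2 g 3 := ⟨_, rfl⟩
      have e4 : fe b1 b bO x1 x2 g (2 + 2) = 2 * b * fe b1 b bO x1 x2 g 3 + 2 * bO * x1 -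
        fe b1 b bO x1 x2 g 2 := rfl
      have e2 : Z2 = 2 * b * g + 2 * bO * x1 - x2 := hZ2
      have e3' : Z3 = 2 * b * Z2 + 2 * b1 * x1 - g := by
        rw [hZ3, hZ2]
        rfl
      rw [e4, ← hZ2, ← hZ3] at hd
      rw [← hZ3] at hE3
      have h5 : x2 - (2 * bO + 4 * b1 * b) * x1 = Z2 * (4 * b ^ 2 - 1) - 2 * b * Z3 := by
        rw [e3', e2]
        ring
      have h6 : b * Z3 < Z2 := by
        have := mul_pos hbO' (by linarith : 0 < x1)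
        linarith
      have h7 : (b * Z3) * (4 * b ^ 2 - 1) < Z2 * (4 * b ^ 2 - 1) := mul_lt_mul_of_pos_right h6 (by linarith)
      have h8 : (b * Z3) * 2 ≤ (b * Z3) * (4 * b ^ 2 - 1) :=
        mul_le_mul_of_nonneg_left (by linarith) (mul_nonneg hb.le (by linarith))
      rw [h5]
      linarith
    refine C.finG3 (he3 e3 k1 k2 k3) hz3 ?_
    have hG := C.G_odd hk (e3 - 2 * b1 * (2 * b * τ - 1))
    refine nonneg_of_mul_nonneg_left (b := sq b (l + 2) + sq b (l + 1)) ?_ hS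
    rw [hG]
    have h5 : e3 ≤ b1 * τ := r_e3 h3 hb hbt t0 t1 hb1 hO7 k1 k2 k3.le
    have h6 : 2 * b1 * sq b l ≤ 2 * b1 * ((2 * b * τ - 1) * (sq b (l + 2) + sq b (l + 1))) :=
      mul_le_mul_of_nonneg_left hsl2 (by linarith)
    have h7 : e3 * (sq b (l + 2) + sq b (l + 1)) ≤ b1 * τ * (sq b (l + 2) + sq b (l + 1)) :=
      mul_le_mul_of_nonneg_right h5 hS.le
    have h8 : b1 * τ * (sq b (l + 2) + sq b (l + 1)) = b1 * (sq b (l + 1) + sq b l) := by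
      rw [← h1]
      ring
    have h9 := mul_nonneg hbO'.le (C.sn (n := l) (by omega))
    rw [h8] at h7
    have h10 : (e3 - 2 * b1 * (2 * b * τ - 1)) * (sq b (l + 2) + sq b (l + 1)) =
        e3 * (sq b (l + 2) + sq b (l + 1)) - 2 * b1 * ((2 * b * τ - 1) * (sq b (l + 2) + sq b (l + 1))) := by
      ring
    rw [h10]
    linarith

end Co

end DY.St29
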