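import Pool.Agent.Helper29.DY.GpB
import Pool.Agent.Helper23.DY.N1
import Pool.Agent.Helper23.DY.N3

/-!
# The case GAP with `h = d2`, `m_O ≥ 4`, index 3 (MP_d13a5e_al)
-/

set_option autoImplicit false

namespace DY.St29

open Set
open Pool.Agent.Helper62.DY (RT rt_of_tri ult_low LA_one Sa_fin1)
open Pool.Agent.Helper32.DY (fw fe fe_mem fe_z fe_n fw_two z1_nonneg z1_one fm fm_rec bf Two)

namespace Co

variable {b1 b bO : ℝ} {R : ℝ → ℝ → ℝ → Prop} {κ f q1 r g x1 x2 g' x1' x2' : ℝ} {k : ℕ} {τ e : ℝ}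

/-- index 3 -/
theorem three1 (C : Co b1 b bO R κ f q1 r g x1 x2 g' x1' x2' k τ) (hk : k = 0)
    (hb1 : 1 ≤ 2 * b1) (hO : 1 ≤ 2 * bO ^ 2) (hz' : 0 < x2' - 2 * bO * x1')
    (he : e ^ 2 - 2 * (b1 + 2 * bO * b) * e + 1 = 0) (he0 : 0 < e) (he1 : e ≤ 1) (hea : -e ≤ q1 + 2 * bO * r)
    (hcan : 2 * b = 1 → 2 * b1 = 1 → 2 * b * (2 * b * g - (x2 - 2 * bO * x1)) + 2 * b1 * x1 - g ≠ 0) :
    False := by
  obtain ⟨ht, hS, -⟩ := C.odd_f (l := 0) hk
  obtain ⟨t0, t1, tb, tt⟩ := C.tau
  have hbO := C.T.h.bOn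
  obtain ⟨hbO', hO7⟩ := r_pos hO hbO
  have hb := C.b0
  have hbb := C.I.hb
  have hx := C.T.v1
  have hf2 := C.I.hf (k + 2) le_rfl
  have hB := C.B
  have hY := C.Y1
  have hda := C.Da hz'
  have halt := C.I.alt
  subst hk
  have s2 : sq b 2 = 2 * b := by
    show 2 * b * 1 - 0 = _
    ring
  have s3 : sq b 3 = 4 * b ^ 2 - 1 := by
    show 2 * b * sq b 2 - 1 = _
    rw [s2]
    ring
  have hτ : τ * (2 * b + 1) = 1 := by
    have e1 : sq b (0 + 2) = 2 * b := s2
    have e2 : sq b (0 + 1) = 1 := rfl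
    have e3 : sq b 0 = 0 := rfl
    rw [e1, e2, e3] at ht
    linarith only [ht]
  obtain ⟨Y, hYe⟩ : ∃ Y, Y = fe b1 b bO x1 x2 g 2 := ⟨_, rfl⟩
  obtain ⟨W, hWe⟩ : ∃ W, W = fe b1 b bO x1 x2 g 3 := ⟨_, rfl⟩
  have eB1 : fe b1 b bO x1 x2 g (0 + 1) = g := rfl
  have eB2 : fe b1 b bO x1 x2 g (0 + 2) = Y := hYe.symm
  have eB3 : fw b1 bO (0 + 2) = 2 * b1 := rfl
  rw [eB1, eB2, eB3] at hB
  rw [eB2] at hY
  have Y2 : Y = 2 * b * g - (x2 - 2 * bO * x1) := by
    rw [hYe]
    show 2 * b * g + 2 * bO * x1 - x2 = _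
    ring
  have W2 : W = 2 * b * Y + 2 * b1 * x1 - g := by
    rw [hWe, hYe]
    rfl
  have hWz : Z1 W := by
    rw [hWe]
    exact fe_z C.T.h C.T.hy (by linarith only [hx]) 3
  have hW0 := z1_nonneg hWz
  have hmem : R W x1 Y := by
    rcases fe_mem C.T.h C.T.hy 2 with ⟨-, h3, -, -⟩ | ⟨h3, -⟩
    · have e3 : fe b1 b bO x1 x2 g (2 + 1) = W := hWe.symm
      rw [e3, ← hYe] at h3
      exact h3
    · norm_num at h3
  have hn : Y ^ 2 + g ^ 2 + x1 ^ 2 - 2 * b * g * Y - 2 * b1 * g * x1 - 2 * bO * Y * x1 = 1 := by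
    have := fe_n C.T.h C.T.hy 1
    have e3 : fe b1 b bO x1 x2 g (1 + 1) = Y := hYe.symm
    have e4 : fw b1 bO (1 + 1) = 2 * b1 := rfl
    have e5 : fw b1 bO 1 = 2 * bO := rfl
    have e6 : fe b1 b bO x1 x2 g 1 = g := rfl
    rw [e3, e4, e5, e6] at this
    linarith only [this]
  have hD : 0 < b1 * g + bO * Y - x1 := by
    rw [Y2]
    linarith only [hda]
  have hfin : 1 < τ * (g + Y) - e * x1 → False := by
    intro h3
    refine C.fin hea ?_
    have : g - τ * (x2 - 2 * bO * x1) = τ * (g + Y) := by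
      rw [Y2]
      linear_combination (-g) * hτ
    linarith only [h3, this]
  have hL : τ * (g + Y) - e * x1 = Y - τ * W + (2 * b1 * τ - e) * x1 := by
    rw [W2]
    linear_combination (Y) * hτ
  have hRT' : RT bO b b1 (fun g x1 x2 => R x2 x1 g) := C.T.h.swap0
  -- the case `E_3 < 2 b Y`
  have hI : e < 2 * b1 * τ → W < 2 * b * Y → (b = 1 / 2 → b1 = 1 / 2 → False) → False := by
    intro h3 h4 h5
    refine hfin ?_
    rw [hL]
    have h6 : 0 < (2 * b1 * τ - e) * x1 := mul_pos (by linarith only [h3]) (by linarith only [hx])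
    rcases halt with ⟨T, h7, -⟩ | ⟨h7, h8, h9, h10, -⟩
    · have h8 : 1 + τ * W ≤ Y := by
        have h9 := LA_one hRT' (s := sq b) rfl rfl (fun _ => rfl) (k := 1) le_rfl (by
          intro n hn1 hn2
          rcases (show n = 1 ∨ n = 2 ∨ n = 3 by omega) with h | h | h
          · rw [h]; exact le_rfl
          · rw [h]; exact C.I.pos 2 (by omega) (by omega)
          · rw [h]; exact h7) (g := Y) (x1 := x1) (x2 := W) hmem hW0 (by
          have e1 : sq b 1 = 1 := rfl
          have e2 : sq b (1 + 1) = 2 * b := s2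
          rw [e1, e2, div_mul_eq_mul_div, div_lt_iff₀ (by linarith only [hbb])]
          linarith only [h4])
        have e2 : sq b (1 + 1) = 2 * b := s2
        have e3 : sq b (1 + 2) = 4 * b ^ 2 - 1 := s3
        rw [e2, e3] at h9
        have h10 : (2 * b - 1) / (4 * b ^ 2 - 1) = τ := by
          have e4 : sq b (0 + 3) = 4 * b ^ 2 - 1 := s3
          rw [e4] at h7
          rw [div_eq_iff (by linarith only [h7])]
          linear_combination (1 - 2 * b) * hτ
        rw [h10] at h9
        exact h9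
      linarith only [h6, h8]
    · -- beyond, `b = 1/2`
      have e1 : sq b (0 + 2) = 2 * b := s2
      rw [e1] at h7
      have hb2 : b = 1 / 2 := by linarith only [h7]
      have hτ2 : τ = 1 / 2 := by rw [h9, hb2]
      rcases hWz with h11 | h11
      · rw [h11]
        linarith only [hY, h6]
      · have h12 := Sa_fin1 hRT' (m := 0) (by
          intro n hn1 hn2
          rcases (show n = 1 ∨ n = 2 by omega) with h | h
          · rw [h]; exact le_rfl
          · rw [h, s2]; linarith only [hb2]) (by rw [e1]; exact h7) hb1 (g := Y) (x1 := x1) (x2 := W) hmem hx (by linarith only [h11]) (by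
            show (1 : ℝ) = 2 * b
            linarith only [hb2]) (by
            show (1 : ℝ) * W < Y
            rw [h7] at h4
            linarith only [h4])
        have e5 : sq b (0 + 1) = 1 := rfl
        rw [e5] at h12
        rw [hτ2]
        rw [hτ2] at h6
        linarith only [h6, h12]
  rcases lab (rt_swap1 C.T.h).swap with h3 | h3 | h3 | h3 | h3
  · linarith only [hb1, h3]
  · -- `2 b1 = 1`
    have hb12 : b1 = 1 / 2 := by linarith only [h3]
    subst hb12
    by_cases hb2 : 2 * b = 1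
    · -- beyond or not, `b = 1/2`: N3
      have hb2' : b = 1 / 2 := by linarith only [hb2]
      have hτ2 : τ = 1 / 2 := by rw [hb2] at hτ; linarith only [hτ]
      have h4 : 1 ≤ W := by
        rcases hWz with h | h
        · exfalso
          refine hcan hb2 (by norm_num) ?_
          rw [← Y2, ← W2]
          exact h
        · exact h
      refine hfin ?_
      have h5 := Pool.Agent.Helper23.DY.N3 (q := bO) (e := e) (Y := Y) (X := g) (x := x1) hO hbO' he0 he1
        (by rw [hb2'] at he; linarith only [he]) hY hx (by rw [hb2'] at hn; linarith only [hn]) (by linarith only [hD])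
        (by rw [W2, hb2'] at h4; linarith only [h4]) (by
          have h9 : τ < g - b * Y - 2 * (1 / 2) / 2 * x1 := by linarith only [hf2, hB]
          rw [hb2', hτ2] at h9
          linarith only [h9])
      rw [hτ2]
      linarith only [h5]
    · have hb2n : 1 ≤ 2 * b ^ 2 := by
        rcases lab C.T.h with h | h | h | h | h
        · linarith only [hbb, h]
        · exact absurd h hb2
        · linarith only [h]
        · linarith only [hbb, h]
        · linarith only [h]
      have hb7 : 7 / 10 ≤ b := (r_pos hb2n hb.le).2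
      have h4 : e < 2 * (1 / 2) * τ := r_three1 hτ hb7 hO7 t0 he he0 he1
      by_cases h5 : W < 2 * b * Y
      · exact hI h4 h5 (by
          intro h6
          exfalso
          apply hb2
          linarith only [h6])
      · have h6 := not_lt.1 h5
        refine n2 (b := b) (q := bO) (X := g) (Y := Y) (x := x1) (by
          have := mul_le_mul hb7 hO7 (by norm_num) hb.le
          linarith only [this]) hY (by linarith only [hn]) (by linarith only [hD])
          (by linarith only [t0, hf2, hB]) (by rw [W2] at h6; linarith only [h6])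
  · -- `2 b1² = 1`
    have hb1' : 0 < b1 := by linarith only [hb1]
    have h4 : e < 2 * b1 * τ := r_three2 hτ hbb hO hbO' h3 hb1' t0 he he0 he1
    by_cases h5 : W < 2 * b * Y
    · exact hI h4 h5 (by
        intro _ h6
        rw [h6] at h3
        norm_num at h3)
    · have h6 := not_lt.1 h5
      refine hfin (Pool.Agent.Helper23.DY.N1 (b := b) (q := bO) (p := b1) (e := e) (τ := τ) (X := g) (Y := Y)
        (x := x1) hbb hO hbO' (by linarith only [h3]) hb1' hτ he0 he1 he hY (by linarith only [hx]) hn (by linarith only [hD])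
        (by linarith only [t0, hf2, hB]) (by rw [W2] at h6; linarith only [h6]))
  all_goals
    refine C.finG hea ?_
    have hG := C.G_odd (l := 0) rfl e
    have e1 : sq b (0 + 2) = 2 * b := s2
    have e2 : sq b (0 + 1) = 1 := rfl
    have e3 : sq b 0 = 0 := rfl
    rw [e1, e2, e3] at hG
    refine nonneg_of_mul_nonneg_left (b := 2 * b + 1) ?_ (by linarith only [hbb])
    rw [hG]
    have h3' : 2 * b1 + 1 ≤ (2 * b1) ^ 2 := by
      first
        | exact h3.ge
        | exact r_g h3 (by linarith only [hb1])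
    obtain ⟨hb14, -⟩ := r_G h3' (by linarith only [hb1])
    have hb16 : 13 / 20 ≤ b1 ^ 2 := by linarith
    have h5 : e ≤ b1 * τ := r_three3 hτ hbb hO7 hb14 hb16 t0 he he0 he1
    have h6 : e * (2 * b + 1) ≤ b1 * τ * (2 * b + 1) := mul_le_mul_of_nonneg_right h5 (by linarith only [hbb])
    have h7 : b1 * τ * (2 * b + 1) = b1 := by rw [mul_assoc, hτ, mul_one]
    linarith only [h6, h7]

end Co

end DY.St29
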