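import Pool.Agent.Helper29.DY.Gq
import Pool.Agent.Helper29.DY.Gr
import Pool.Agent.Helper29.DY.Gs
import Pool.Agent.Helper89.DY.Mir2
import Pool.Agent.Helper32.DY.Gap1

/-!
# [GAP1] with `h = d2`: `x_L = a`, and `m_O ≥ 4` (MP_d13a5e_al)
-/

set_option autoImplicit false

namespace DY.St29

open Set
open Pool.Agent.Helper62.DY (RT rt_of_tri ult_low canon_neg)
open Pool.Agent.Helper32.DY (fw fe fe_mem fe_z fe_n fw_two z1_nonneg z1_one fm fm_rec bf Two)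

namespace Co

variable {b1 b bO : ℝ} {R : ℝ → ℝ → ℝ → Prop} {κ f q1 r g x1 x2 g' x1' x2' : ℝ} {k : ℕ} {τ e : ℝ}

/-- for `b1 = 0` the index is not 3 -/
theorem three0 (C : Co 0 b bO R κ f q1 r g x1 x2 g' x1' x2' k τ) (hk : k = 0) : False := by
  have hx := C.T.v1
  have hY := C.Y1
  have h2 := C.I.hf (k + 2) le_rfl
  have h3 := C.I.hf3
  have hE := z1_nonneg (fe_z C.T.h C.T.hy (by linarith) 3)
  have h4 := fan_val 0 b bO κ f x1 x2 g 2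
  have h5 := C.T.fy
  have h6 := C.fa
  subst hk
  have e1 : ev 0 b bO κ f 2 = f - 2 * bO * κ := by
    show f - fw 0 bO 1 * fm b κ 1 - fw 0 bO 2 * fm b κ 2 = _
    have w1 : fw 0 bO 1 = 2 * bO := rfl
    have w2 : fw 0 bO 2 = 2 * 0 := rfl
    have m1 : fm b κ 1 = κ * 1 - 0 := rfl
    rw [w1, w2, m1]
    ring
  have e2 : fe 0 b bO x1 x2 g (2 + 1) = fe 0 b bO x1 x2 g 3 := rfl
  have e3 : fm b κ (2 + 1) = fm b κ 3 := rfl
  have e4 : fm b κ (0 + 2) = fm b κ 2 := rfl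
  have e5 : fm b κ (0 + 3) = fm b κ 3 := rfl
  have e6 : fe 0 b bO x1 x2 g (0 + 2) = fe 0 b bO x1 x2 g 2 := rfl
  rw [e1, e2, e3] at h4
  rw [e4] at h2
  rw [e5] at h3
  rw [e6] at hY
  have h7 := mul_nonneg hE h2.le
  have h8 := mul_pos (by linarith : 0 < fe 0 b bO x1 x2 g 2) (neg_pos.2 h3)
  have h9 := mul_nonneg (by linarith : 0 ≤ x1) h6
  have h10 : g - κ * x2 + x1 * f = 0 := by rw [h5]; ring
  linarith

end Co

/-- **`b1 = 0`, `m_O ≥ 4`**, the real theorem -/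
theorem g1r4 : G1R (fun _ bO => 1 ≤ 2 * bO ^ 2) := by
  intro b bO R κ f q1 r g x1 x2 g' x1' x2' k τ e C hO hc he he0 he1 hea hz'
  obtain ⟨l, hl | hl⟩ : ∃ l, k = 2 * l ∨ k = 2 * l + 1 := ⟨k / 2, by omega⟩
  · rcases Nat.eq_zero_or_pos l with h | h
    · exact C.three0 (by omega)
    · exact C.odd0 hl h hO he he0 he1.le hea
  · rcases Nat.eq_zero_or_pos l with h | h
    · exact C.four0 (by omega) hO hc hz' he he0 he1.le hea
    · exact C.even0 hl h hO he he0 he1.le hea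

/-- **`b1 ≥ 1/2`, `m_O ≥ 4`**, the real theorem -/
theorem gp4_1 {b1 b bO : ℝ} {R : ℝ → ℝ → ℝ → Prop} {κ f q1 r g x1 x2 g' x1' x2' : ℝ} {k : ℕ} {τ e : ℝ}
    (C : Co b1 b bO R κ f q1 r g x1 x2 g' x1' x2' k τ) (hb1 : 1 ≤ 2 * b1) (hO : 1 ≤ 2 * bO ^ 2)
    (hz' : 0 < x2' - 2 * bO * x1')
    (he : e ^ 2 - 2 * (b1 + 2 * bO * b) * e + 1 = 0) (he0 : 0 < e) (he1 : e ≤ 1) (hea : -e ≤ q1 + 2 * bO * r)
    (he3 : ∀ e3, e3 ^ 2 - 2 * (b1 * (4 * b ^ 2 - 1) + 2 * bO * b) * e3 + 1 = 0 → 0 < e3 → e3 < 1 →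
      -e3 ≤ 2 * b1 + q1 + (2 * bO + 4 * b1 * b) * r)
    (hcan : k = 0 → 2 * b = 1 → 2 * b1 = 1 →
      2 * b * (2 * b * g - (x2 - 2 * bO * x1)) + 2 * b1 * x1 - g ≠ 0) : False := by
  obtain ⟨l, hl | hl⟩ : ∃ l, k = 2 * l ∨ k = 2 * l + 1 := ⟨k / 2, by omega⟩
  · rcases Nat.eq_zero_or_pos l with h | h
    · have hk : k = 0 := by omega
      exact C.three1 hk hb1 hO hz' he he0 he1 hea (hcan hk)
    · exact C.odd1 hl h hb1 hO he he0 he1 hea he3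
  · exact C.even1 hl hb1 hO he he0 he1 hea

section

variable {E : Type*} [AddCommGroup E] [Module ℝ E]
variable {Ψ : Set E} {B : E →ₗ[ℝ] E →ₗ[ℝ] ℝ} {ρ φ : E →ₗ[ℝ] ℝ} {t d1 d2 x x' : E}
variable {g x1 x2 g' x1' x2' : ℝ}

/-- `b1 ≥ 1/2`, `m_O ≥ 4`, `h = d2` -/
theorem gap4_1 (X : Xs Ψ B ρ φ t d1 d2 x x' g x1 x2 g' x1' x2') (hb1 : 1 ≤ 2 * -B t d1)
    (hO : 1 ≤ 2 * (-B d1 d2) ^ 2) (hO0 : 0 < -B d1 d2) (hc : 1 < -B t d1 + 2 * -B d1 d2 * -B t d2)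
    (hfa : 0 ≤ φ d1 + 2 * -B d1 d2 * φ d2) (v0 : 2 * -B d1 d2 * x1 < x2) (v0' : 2 * -B d1 d2 * x1' ≤ x2') :
    False := by
  obtain ⟨k, τ, C⟩ := co_of X hfa (by linarith)
  rcases v0'.eq_or_lt with h5 | h5
  · exact C.xLa h5.symm
  obtain ⟨e, he, he0, he1⟩ := kinf_ex hc
  have hea := X.xa.hea hO0 hc he he1
  have hT := rt_of_tri X.L.tri
  have hm3 : (2 * -B t d1) • t + (1 : ℝ) • d1 + (2 * -B d1 d2 + 4 * -B t d1 * -B t d2) • d2 ∈ Ψ := by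
    have h1 := hT.r2 _ _ _ (hT.r0 _ _ _ hT.e1)
    have e1 : 2 * -B t d1 * 1 + 2 * -B t d2 * 0 - 0 = 2 * -B t d1 := by ring
    have e2 : 2 * -B t d2 * (2 * -B t d1) + 2 * -B d1 d2 * 1 - 0 =
      2 * -B d1 d2 + 4 * -B t d1 * -B t d2 := by ring
    rw [e1, e2] at h1
    exact h1
  have hb0 := C.b0
  refine gp4_1 C hb1 hO (by linarith) he he0 he1.le hea ?_ ?_
  · intro e3 k1 k2 k3
    have hc3 : 1 < -B t d1 * (4 * (-B t d2) ^ 2 - 1) + 2 * -B d1 d2 * -B t d2 := by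
      have h1 : 0 < e3 * (-B t d1 * (4 * (-B t d2) ^ 2 - 1) + 2 * -B d1 d2 * -B t d2 - 1) := by
        nlinarith [sq_nonneg (1 - e3)]
      have h2 := (mul_pos_iff_of_pos_left k2).1 h1
      linarith
    have h1 := X.xa.low hm3 (by
      have := mul_pos (by linarith : 0 < 4 * -B t d1) hb0
      linarith) (c := -B t d1 * (4 * (-B t d2) ^ 2 - 1) + 2 * -B d1 d2 * -B t d2) (e := e3) (by ring)
      hc3.le (by linarith) (by linarith)
    linarith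
  · intro hk h1 h2 h3
    have hY := C.Y1
    subst hk
    have e1 : fe (-B t d1) (-B t d2) (-B d1 d2) x1 x2 g (0 + 2) =
        2 * -B t d2 * g + 2 * -B d1 d2 * x1 - x2 := rfl
    rw [e1, h1] at hY
    have hb2 : -B t d2 = 1 / 2 := by linarith
    have hb1' : -B t d1 = 1 / 2 := by linarith
    have hx := X.p1
    rw [hb1', hb2] at hm3
    rw [h1, h2] at h3
    have hx0 : x1 ≠ 0 := by linarith
    refine canon_neg X.L.cxt hm3 (α := 1 / x1) (β := -((g + 2 * -B d1 d2 * x1 - x2) / x1)) ?_ (by positivity) ?_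
    · have h4 : x2 = x1 + 2 * -B d1 d2 * x1 := by linarith
      have h5 : g - (g + 2 * -B d1 d2 * x1 - x2) = x1 := by rw [h4]; ring
      rw [X.e]
      have h6 : (1 / x1) * g + -((g + 2 * -B d1 d2 * x1 - x2) / x1) = 1 := by
        have : (1 / x1) * g + -((g + 2 * -B d1 d2 * x1 - x2) / x1) =
            (g - (g + 2 * -B d1 d2 * x1 - x2)) / x1 := by ring
        rw [this, h5]
        exact div_self hx0
      have h7 : (1 / x1) * x1 = 1 := by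
        rw [one_div]
        exact inv_mul_cancel₀ hx0
      have h8 : (1 / x1) * x2 = 1 + 2 * -B d1 d2 := by
        rw [h4]
        field_simp
      have h9 : (1 / x1) • (g • t + x1 • d1 + x2 • d2) + -((g + 2 * -B d1 d2 * x1 - x2) / x1) • t =
          ((1 / x1) * g + -((g + 2 * -B d1 d2 * x1 - x2) / x1)) • t + ((1 / x1) * x1) • d1 +
            ((1 / x1) * x2) • d2 := by
        module
      rw [h9, h6, h7, h8]
      have h10 : 2 * (1 / 2 : ℝ) = 1 := by norm_num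
      have h11 : 2 * -B d1 d2 + 4 * (1 / 2) * (1 / 2) = 1 + 2 * -B d1 d2 := by ring
      rw [h10, h11]
    · have : 0 < (g + 2 * -B d1 d2 * x1 - x2) / x1 := div_pos (by linarith) (by linarith)
      linarith

end

end DY.St29

namespace DY

open DY.St29

variable {E : Type*} [AddCommGroup E] [Module ℝ E]

/-- **GAP1, `h = d2`, `x_L = a`** -/
theorem g1xLa29 (Ψ : Set E) (B : E →ₗ[ℝ] E →ₗ[ℝ] ℝ) : G1xLa Ψ B := by
  intro ρ φ t d1 d2 x x' g x1 x2 X _ _ _ h1 h2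
  obtain ⟨k, τ, C⟩ := co_of X h1.ge (by linarith)
  exact C.xLa (by ring)

/-- **GAP1, `h = d2`, `b1 = 0`, `m_O ≥ 4`** -/
theorem g1d (Ψ : Set E) (B : E →ₗ[ℝ] E →ₗ[ℝ] ℝ) : G1d Ψ B := by
  rintro ρ φ t d1 d2 x x' g x1 x2 g' x1' x2' X _ _ hO hc hfa v0 v0' ⟨hb1, hO2, -⟩
  refine g1m_of g1r4 X.xa (by linarith) hO (by linarith) (by rw [hb1] at hc; linarith) hfa v0 v0'

/-- **GAP1, `h = d2`, `b1 ≥ 1/2`, `m_O ≥ 4`** -/
theorem g1h (Ψ : Set E) (B : E →ₗ[ℝ] E →ₗ[ℝ] ℝ) : G1h Ψ B := by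
  rintro ρ φ t d1 d2 x x' g x1 x2 g' x1' x2' X _ _ hO hc hfa v0 v0' ⟨hb1, hO2, -⟩
  exact gap4_1 X (by linarith) (by linarith) (by linarith) hc hfa v0 v0'

end DY
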