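import Pool.Agent.Helper29.DY.Chm
import Pool.Agent.Helper9.DY.NG
import Pool.Agent.Helper9.DY.Pencil
import Pool.Agent.Helper32.DY.Ineq
import Pool.Agent.Helper9.DY.Str
import Pool.Agent.Helper62.DY.NG0

/-!
# The index of `F` at `V_2` in the case GAP with `h = d2`, and the case `x_L = a` (MP_d13a5e_al)
-/

set_option autoImplicit false

namespace DY.St29

open Set
open Pool.Agent.Helper62.DY (RT rt_of_tri)
open Pool.Agent.Helper32.DY (fw fe fe_mem fe_z fe_n fw_two z1_nonneg z1_one fm fm_rec bf Two)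

/-- classification of a label -/
theorem lab {b1 b2 bO : ℝ} {R : ℝ → ℝ → ℝ → Prop} (h : RT b1 b2 bO R) :
    2 * b2 = 0 ∨ 2 * b2 = 1 ∨ (2 * b2) ^ 2 = 2 ∨ (2 * b2) ^ 2 = 2 * b2 + 1 ∨ 3 ≤ (2 * b2) ^ 2 := by
  obtain ⟨w, hw⟩ : ∃ w, w = 2 * b2 := ⟨_, rfl⟩
  have s1 : sq b2 1 = 1 := rfl
  have s2 : sq b2 2 = w := by
    show 2 * b2 * 1 - 0 = w
    rw [hw]
    ring
  have s3 : sq b2 3 = w ^ 2 - 1 := by
    show 2 * b2 * sq b2 2 - sq b2 1 = _
    rw [s2, s1, hw]
    ring
  have s4 : sq b2 4 = w ^ 3 - 2 * w := by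
    show 2 * b2 * sq b2 3 - sq b2 2 = _
    rw [s3, s2, hw]
    ring
  have s5 : sq b2 5 = w ^ 4 - 3 * w ^ 2 + 1 := by
    show 2 * b2 * sq b2 4 - sq b2 3 = _
    rw [s4, s3, hw]
    ring
  have s6 : sq b2 6 = w ^ 5 - 4 * w ^ 3 + 3 * w := by
    show 2 * b2 * sq b2 5 - sq b2 4 = _
    rw [s5, s4, hw]
    ring
  rw [← hw]
  have z2 := rt_sq_next h (k := 1) (by rw [s1]; norm_num)
  have e2 : sq b2 (1 + 1) = w := s2
  rw [e2] at z2
  rcases z2 with h0 | h0
  · exact Or.inl h0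
  right
  have z3 := rt_sq_next h (k := 2) (by rw [s2]; linarith)
  have e3 : sq b2 (2 + 1) = w ^ 2 - 1 := s3
  rw [e3] at z3
  rcases z3 with h1 | h1
  · left
    nlinarith
  right
  rcases (show 2 ≤ w ^ 2 by linarith).eq_or_lt with h2 | h2
  · exact Or.inl h2.symm
  right
  have z5 := rt_sq_next h (k := 4) (by
    rw [s4]
    have : w ^ 3 - 2 * w = w * (w ^ 2 - 2) := by ring
    rw [this]
    exact mul_pos (by linarith) (by linarith))
  have e5 : sq b2 (4 + 1) = w ^ 4 - 3 * w ^ 2 + 1 := s5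
  rw [e5] at z5
  have h3 : w + 1 ≤ w ^ 2 := by
    have h4 := z1_nonneg z5
    have h5 : 0 ≤ (w ^ 2 - w - 1) * (w ^ 2 + w - 1) := by
      have : (w ^ 2 - w - 1) * (w ^ 2 + w - 1) = w ^ 4 - 3 * w ^ 2 + 1 := by ring
      rw [this]
      exact h4
    have h6 := nonneg_of_mul_nonneg_left h5 (by linarith)
    linarith
  rcases h3.eq_or_lt with h4 | h4
  · exact Or.inl h4.symm
  right
  have z6 := rt_sq_next h (k := 5) (by
    rw [s5]
    have : w ^ 4 - 3 * w ^ 2 + 1 = (w ^ 2 - w - 1) * (w ^ 2 + w - 1) := by ring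
    rw [this]
    exact mul_pos (by linarith) (by linarith))
  have e6 : sq b2 (5 + 1) = w ^ 5 - 4 * w ^ 3 + 3 * w := s6
  rw [e6] at z6
  have h5 := z1_nonneg z6
  have h6 : 0 ≤ w * (w ^ 2 - 1) * (w ^ 2 - 3) := by
    have : w * (w ^ 2 - 1) * (w ^ 2 - 3) = w ^ 5 - 4 * w ^ 3 + 3 * w := by ring
    rw [this]
    exact h5
  have h7 := nonneg_of_mul_nonneg_right h6 (mul_pos (by linarith) (by linarith))
  linarith

variable {E : Type*} [AddCommGroup E] [Module ℝ E]
variable {Ψ : Set E} {B : E →ₗ[ℝ] E →ₗ[ℝ] ℝ} {ρ φ : E →ₗ[ℝ] ℝ} {t d1 d2 x x' : E}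
variable {g x1 x2 g' x1' x2' : ℝ}

/-- no root in the plane of `t` and `d2` vanishes at `F` -/
theorem no_flat (L : Loc Ψ B ρ φ t d1 d2 x x') (e : x = g • t + x1 • d1 + x2 • d2)
    (e' : x' = g' • t + x1' • d1 + x2' • d2) (h1 : 1 ≤ x1) (h1' : 1 ≤ x1') {α β : ℝ}
    (hm : α • t + β • d2 ∈ Ψ) (h0 : α + β * φ d2 = 0) : False := by
  have hφ : φ (α • t + β • d2) = 0 := by
    rw [map_add, map_smul, map_smul, L.ft]
    simp only [smul_eq_mul]
    linarith
  obtain ⟨a, b, h0'⟩ := L.sp _ hm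
  have h : α • t + β • d2 = a • x + b • x' := by
    rw [hφ] at h0'
    rw [h0']
    module
  have h2 : α • t + (0 : ℝ) • d1 + β • d2 =
      (a * g + b * g') • t + (a * x1 + b * x1') • d1 + (a * x2 + b * x2') • d2 := by
    have e0 : α • t + (0 : ℝ) • d1 + β • d2 = α • t + β • d2 := by module
    rw [e0, h, e, e']
    module
  obtain ⟨-, h3, -⟩ := L.tri.coordW h2
  rcases L.cxx _ hm a b h with (⟨k1, k2⟩ | ⟨k1, k2⟩ | ⟨k1, k2⟩) | (⟨k1, k2⟩ | ⟨k1, k2⟩ | ⟨k1, k2⟩)
  · rw [k1, k2] at h3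
    linarith
  · rw [k1, k2] at h3
    linarith
  · nlinarith
  · have k3 : a = 0 := by linarith
    have k4 : b = -1 := by linarith
    rw [k3, k4] at h3
    linarith
  · have k3 : a = -1 := by linarith
    have k4 : b = 0 := by linarith
    rw [k3, k4] at h3
    linarith
  · nlinarith

/-- the data of the fan -/
theorem two (X : Xs Ψ B ρ φ t d1 d2 x x' g x1 x2 g' x1' x2') :
    Two (-B t d1) (-B t d2) (-B d1 d2) (fun g x1 x2 => g • t + x1 • d1 + x2 • d2 ∈ Ψ) (-φ d2) (φ d1)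
      g' x1' x2' g x1 x2 where
  h := rt_of_tri X.L.tri
  hx := by
    show g' • t + x1' • d1 + x2' • d2 ∈ Ψ
    rw [← X.e']
    exact X.L.xm'
  hy := by
    show g • t + x1 • d1 + x2 • d2 ∈ Ψ
    rw [← X.e]
    exact X.L.xm
  p1 := X.p1'
  v1 := X.p1
  p2 := X.p2'
  q2 := X.p2
  fx := by linarith [X.c'.fz]
  fy := by linarith [X.c.fz]
  hf := X.h1
  hκ := by linarith [X.h2]
  st := by linarith [X.st]
  hB := by
    have hBxx := X.L.cxx.nonpos X.L.tri.sys X.L.xm X.L.xm'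
    rw [X.e, X.e', X.L.val_B] at hBxx
    unfold bf
    linarith
  obt := X.c.obt

/-- the index `j = k + 3` of `F` at `V_2` -/
structure Ix (b κ r : ℝ) (k : ℕ) (τ : ℝ) : Prop where
  pos : ∀ n, 1 ≤ n → n ≤ k + 2 → 1 ≤ sq b n
  hS : sq b (k + 3) * τ = sq b (k + 2) - 1
  hd : sq b (k + 1) = τ * (sq b (k + 2) + 1)
  hf : ∀ i ≤ k + 2, 0 < fm b κ i
  hf3 : fm b κ (k + 3) < 0
  alt : (Ta b τ (sq b (k + 2)) (sq b (k + 3)) (sq b (k + 1)) ∧ 1 ≤ sq b (k + 3) ∧ -τ < r) ∨
    (sq b (k + 2) = 1 ∧ sq b (k + 3) = 0 ∧ τ = b ∧ b < 1 ∧ -τ ≤ r)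
  hb : 1 ≤ 2 * b

/-- Ta from the Chebyshev sequence -/
theorem ta_of {b τ : ℝ} {k : ℕ} (h3 : 1 ≤ sq b (k + 3)) (h2 : 1 ≤ sq b (k + 2)) (h1 : 1 ≤ sq b (k + 1))
    (hS : sq b (k + 3) * τ = sq b (k + 2) - 1) :
    Ta b τ (sq b (k + 2)) (sq b (k + 3)) (sq b (k + 1)) := by
  have hc := sq_cassini b (k + 1)
  have e1 : sq b (k + 1 + 1) = sq b (k + 2) := rfl
  have e2 : sq b (k + 1 + 2) = sq b (k + 3) := rfl
  rw [e1, e2] at hc
  have hm : sq b (k + 3) + sq b (k + 1) = 2 * b * sq b (k + 2) := by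
    have : sq b (k + 3) = 2 * b * sq b (k + 2) - sq b (k + 1) := rfl
    linarith
  have hdf := sq_diff b (k + 1)
  rw [e1, e2] at hdf
  obtain ⟨s, hs⟩ : ∃ s, s = sq b (k + 2) := ⟨_, rfl⟩
  obtain ⟨S, hSe⟩ : ∃ S, S = sq b (k + 3) := ⟨_, rfl⟩
  obtain ⟨d, hd⟩ : ∃ d, d = sq b (k + 1) := ⟨_, rfl⟩
  have hinc : 1 ≤ b → s + 1 ≤ S := by
    intro hb
    have := (sq_incr hb (k + 2)).2
    rw [hs, hSe]
    exact this
  rw [← hSe] at h3 hm hc hS hdf
  rw [← hs] at h2 hc hm hS hdf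
  rw [← hd] at h1 hc hm hdf
  rw [← hs, ← hSe, ← hd]
  clear hs hSe hd
  have hs2 : 2 ≤ s ^ 2 := by nlinarith
  have hb0 : 0 < b := by
    by_contra h
    have := mul_nonpos_of_nonpos_of_nonneg (by linarith : 2 * b ≤ 0) (by linarith : 0 ≤ s)
    linarith
  have hss : s - 1 < S := by
    rcases le_or_gt 1 b with hb | hb
    · linarith [hinc hb]
    · by_contra h
      have h := not_lt.1 h
      have h4 : S * (s + 1) ≤ S * d := by nlinarith
      have h5 := le_of_mul_le_mul_left h4 (by linarith)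
      have h6 : 4 ≤ (S - d) ^ 2 := by nlinarith
      have h7 : (b ^ 2 - 1) * s ^ 2 < 0 := mul_neg_of_neg_of_pos (by nlinarith) (by linarith)
      linarith
  have ht0 : 0 < τ := by
    by_contra h
    have h4 : S * τ ≤ 0 := mul_nonpos_of_nonneg_of_nonpos (by linarith) (not_lt.1 h)
    nlinarith
  exact
    { hS := hS
      hd := by
        have h4 : S * (d - τ * (s + 1)) = 0 := by
          linear_combination (-1 : ℝ) * hc - (s + 1) * hS
        rcases mul_eq_zero.1 h4 with h5 | h5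
        · linarith
        · linarith
      hm := hm
      s2 := hs2
      s0 := by linarith
      t0 := ht0
      t1 := by
        by_contra h
        have h4 : S * 1 ≤ S * τ := mul_le_mul_of_nonneg_left (not_lt.1 h) (by linarith)
        linarith
      b2 := by
        have h4 : 4 * (b ^ 2 * s ^ 2) = (S - d) ^ 2 + 4 * (s ^ 2 - 1) := by
          have h5 : (2 * b * s) ^ 2 = (S + d) ^ 2 := by rw [hm]
          linear_combination h5 - 4 * hc
        have h5 : s ^ 2 * 1 ≤ s ^ 2 * (2 * b ^ 2) := by nlinarith [sq_nonneg (S - d)]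
        exact le_of_mul_le_mul_left h5 (by linarith)
      b0 := hb0 }

/-- **the index**, general form: `h0` is `d2`, or the root `h` in the mirror case -/
theorem ix_gen {h0 : E} {R : ℝ → ℝ → ℝ → Prop} {b1 bO f r : ℝ} (hC : CP Ψ B t h0 (-B t h0)) (hft : φ t = 1)
    (hf : φ h0 < 0) (nf : ∀ α β : ℝ, α • t + β • h0 ∈ Ψ → α + β * φ h0 ≠ 0)
    (T : Two b1 (-B t h0) bO R (-φ h0) f g' x1' x2' g x1 x2) (hS : Str (-B t h0) (φ h0) r)
    (ha : 0 ≤ f + 2 * bO * φ h0) (hz : 0 < x2 - 2 * bO * x1) : ∃ k τ, Ix (-B t h0) (-φ h0) r k τ := by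
  have hp1 := T.v1
  have hκ := T.hκ
  have hfm : ∀ k, φ (pu (-B t h0) t h0 k) = -fm (-B t h0) (-φ h0) (k + 1) := by
    intro k
    rw [pu_val, hft]
    show _ = -(-φ h0 * sq (-B t h0) (k + 1) - sq (-B t h0) k)
    ring
  have hne : ∀ k, 0 ≤ fm (-B t h0) (-φ h0) (k + 1) → 0 < fm (-B t h0) (-φ h0) (k + 1) := by
    intro k hk
    rcases hk.lt_or_eq with h3 | h3
    · exact h3
    · exfalso
      have hm := hC.mem k
      unfold pu at hm
      refine nf _ _ hm ?_
      have h4 : -φ h0 * sq (-B t h0) (k + 1) - sq (-B t h0) k = 0 := h3.symm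
      linarith
  -- `2 b2 κ ≥ 1`
  have hE2 : 0 ≤ 2 * -B t h0 * g - (x2 - 2 * bO * x1) := by
    have h1 := z1_nonneg (fe_z T.h T.hy (by linarith) 2)
    have h2 : fe b1 (-B t h0) bO x1 x2 g 2 = 2 * -B t h0 * g + (2 * bO) * x1 - x2 := rfl
    rw [h2] at h1
    linarith
  have hgz : g ≤ -φ h0 * (x2 - 2 * bO * x1) := by
    have h1 := T.fy
    have h2 := mul_nonneg ha (by linarith : 0 ≤ x1)
    linarith
  have hb0 := hC.b_nonneg
  have hj2 : 1 ≤ 2 * -B t h0 * -φ h0 := by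
    by_contra h
    have h := not_le.1 h
    have h3 := mul_le_mul_of_nonneg_left hgz (by linarith : 0 ≤ 2 * -B t h0)
    have h4 := mul_lt_mul_of_pos_right h hz
    linarith
  have hb1 : 1 ≤ 2 * -B t h0 := by
    rcases hC.b_cases with h | h
    · exfalso
      rw [h] at hj2
      linarith
    · linarith
  have hfoot := hS.foot
  have hnk := hS.nk hf
  rcases hC.select hf with ⟨n, hn1, hn2, hn3⟩ | ⟨hb, hn⟩ | ⟨hb, hn⟩
  · -- between two lines
    rcases n with _ | k
    · exfalso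
      rw [hfm] at hn3
      have h1 : fm (-B t h0) (-φ h0) (0 + 1 + 1) = -φ h0 * (2 * -B t h0 * 1 - 0) - 1 := rfl
      rw [h1] at hn3
      linarith
    · have hs : ∀ i, 1 ≤ i → i ≤ k + 3 → 1 ≤ sq (-B t h0) i := by
        intro i hi1 hi2
        obtain ⟨m, rfl⟩ : ∃ m, i = m + 1 := ⟨i - 1, by omega⟩
        exact hn1 m (by omega)
      have h3 := hs (k + 3) (by omega) le_rfl
      have h2 := hs (k + 2) (by omega) (by omega)
      have h1 := hs (k + 1) (by omega) (by omega)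
      obtain ⟨τ, hτ⟩ : ∃ τ, τ = (sq (-B t h0) (k + 2) - 1) / sq (-B t h0) (k + 3) := ⟨_, rfl⟩
      have hS' : sq (-B t h0) (k + 3) * τ = sq (-B t h0) (k + 2) - 1 := by
        rw [hτ]
        exact mul_div_cancel₀ _ (by linarith)
      have hT := ta_of h3 h2 h1 hS'
      refine ⟨k, τ, fun i hi1 hi2 => hs i hi1 (by omega), hS', hT.hd, ?_, ?_, Or.inl ⟨hT, h3, ?_⟩, hb1⟩
      · intro i hi
        cases i with
        | zero => exact one_pos
        | succ i =>
          apply hne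
          have := hn2 i (by omega)
          rw [hfm] at this
          linarith
      · rw [hfm] at hn3
        have e1 : fm (-B t h0) (-φ h0) (k + 1 + 1 + 1) = fm (-B t h0) (-φ h0) (k + 3) := rfl
        rw [e1] at hn3
        linarith
      · have h4 := hnk (k + 2) (fun i hi => by linarith [hn1 i (by omega)]) (fun i hi => by
          have h5 := hn2 i (by omega)
          rw [pu_val, hft] at h5
          linarith) (by
          have h5 : 0 < φ (pu (-B t h0) t h0 (k + 2)) := hn3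
          rw [pu_val, hft] at h5
          linarith)
        have e1 : sq (-B t h0) (k + 2 + 1) = sq (-B t h0) (k + 3) := rfl
        rw [e1] at h4
        have h5 : sq (-B t h0) (k + 3) * -τ < sq (-B t h0) (k + 3) * r := by linarith
        exact lt_of_mul_lt_mul_left h5 (by linarith)
  · -- infinite order
    exfalso
    refine T.no_inf hb fun k => ?_
    cases k with
    | zero => exact one_pos
    | succ k =>
      apply hne
      have := hn k
      rw [hfm] at this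
      linarith
  · -- beyond, finite order
    rw [hft, mul_one] at hn
    rcases hC.sq_dich with ⟨h1, -⟩ | ⟨m, h1, h2, -, h4⟩
    · linarith
    · rcases m with _ | k
      · exfalso
        have h5 : sq (-B t h0) (0 + 2) = 2 * -B t h0 * 1 - 0 := rfl
        rw [h5] at h1
        linarith
      · have e1 : sq (-B t h0) (k + 1 + 2) = sq (-B t h0) (k + 3) := rfl
        have e2 : sq (-B t h0) (k + 1 + 1) = sq (-B t h0) (k + 2) := rfl
        rw [e1] at h1
        rw [e2] at h2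
        have h5 : sq (-B t h0) (k + 3) = 2 * -B t h0 * sq (-B t h0) (k + 2) - sq (-B t h0) (k + 1) := rfl
        rw [h1, h2] at h5
        have hs : ∀ i, i ≤ k + 3 → 0 ≤ sq (-B t h0) i := by
          intro i hi
          rcases Nat.eq_zero_or_pos i with h6 | h6
          · rw [h6]
            exact le_rfl
          · rcases hi.eq_or_lt with h7 | h7
            · rw [h7, h1]
            · obtain ⟨m, rfl⟩ : ∃ m, i = m + 1 := ⟨i - 1, by omega⟩
              linarith [h4 m (by omega)]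
        have hfs : ∀ i, i ≤ k + 1 → 0 ≤ fm (-B t h0) (-φ h0) (i + 1) := by
          intro i hi
          show 0 ≤ -φ h0 * sq (-B t h0) (i + 1) - sq (-B t h0) i
          have h6 := mul_le_mul_of_nonneg_right (by linarith : 2 * -B t h0 ≤ -φ h0) (hs (i + 1) (by omega))
          have h7 := hs (i + 2) (by omega)
          have h8 : sq (-B t h0) (i + 2) = 2 * -B t h0 * sq (-B t h0) (i + 1) - sq (-B t h0) i := rfl
          rw [h8] at h7
          linarith
        refine ⟨k, -B t h0, fun i hi1 hi2 => ?_, ?_, ?_, ?_, ?_, Or.inr ⟨h2, h1, rfl, hb, by linarith⟩, hb1⟩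
        · obtain ⟨m, rfl⟩ : ∃ m, i = m + 1 := ⟨i - 1, by omega⟩
          exact h4 m (by omega)
        · rw [h1, h2]
          ring
        · rw [h2]
          linarith
        · intro i hi
          cases i with
          | zero => exact one_pos
          | succ i => exact hne i (hfs i (by omega))
        · have h6 : fm (-B t h0) (-φ h0) (k + 3) = -φ h0 * sq (-B t h0) (k + 3) - sq (-B t h0) (k + 2) := rfl
          rw [h6, h1, h2]
          linarith

/-- **the index** -/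
theorem ix (X : Xs Ψ B ρ φ t d1 d2 x x' g x1 x2 g' x1' x2') (ha : 0 ≤ φ d1 + 2 * -B d1 d2 * φ d2)
    (hz : 0 < x2 - 2 * -B d1 d2 * x1) : ∃ k τ, Ix (-B t d2) (-φ d2) (ρ d2) k τ :=
  ix_gen X.L.tri.cp' X.L.ft X.h2 (fun _ _ hm h0 => no_flat X.L X.e X.e' X.p1 X.p1' hm h0) (two X) X.L.str_2
    ha hz

end DY.St29
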