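import Pool.Agent.Helper32.DY.Root
import Pool.Agent.Helper9.DY.Sq

/-!
# An inequality for a root in the chamber before `F` (MP_d13a5e_al)

`RT q b p R`: coefficient triples `(Y, x, X)` of the roots in a chamber `(α, e, u)`, labels `q = (α, e)`,
`b = (α, u)`, `p = (e, u)`.
-/

set_option autoImplicit false

namespace DY.St29

open Pool.Agent.Helper62.DY (RT)
open Pool.Agent.Helper32.DY (fw fe fe_mem fe_z fe_n fw_two z1_nonneg z1_one)

section rt

variable {b1 b2 bO : ℝ} {R : ℝ → ℝ → ℝ → Prop}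

/-- exchange of the first two simple roots -/
theorem rt_swap1 (h : RT b1 b2 bO R) : RT b1 bO b2 (fun g x1 x2 => R x1 g x2) where
  z := by
    intro g x1 x2 hx
    rcases h.z _ _ _ hx with ⟨a, b, c⟩ | ⟨a, b, c⟩
    · exact Or.inl ⟨b, a, c⟩
    · exact Or.inr ⟨b, a, c⟩
  n := by
    intro g x1 x2 hx
    linear_combination h.n _ _ _ hx
  r0 := fun g x1 x2 hx => h.r1 _ _ _ hx
  r1 := fun g x1 x2 hx => h.r0 _ _ _ hx
  r2 := by
    intro g x1 x2 hx
    have := h.r2 _ _ _ hx
    have e : 2 * b2 * x1 + 2 * bO * g - x2 = 2 * bO * g + 2 * b2 * x1 - x2 := by ring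
    rw [e] at this
    exact this
  e0 := h.e1
  e1 := h.e0
  e2 := h.e2

theorem fe_sq (k : ℕ) : fe b1 b2 bO 0 0 1 k = sq b2 k ∧ fe b1 b2 bO 0 0 1 (k + 1) = sq b2 (k + 1) := by
  induction k with
  | zero => exact ⟨rfl, rfl⟩
  | succ k ih =>
    refine ⟨ih.2, ?_⟩
    have e1 : fe b1 b2 bO 0 0 1 (k + 1 + 1) = 2 * b2 * fe b1 b2 bO 0 0 1 (k + 1) +
        fw b1 bO (k + 1) * 0 - fe b1 b2 bO 0 0 1 k := rfl
    have e2 : sq b2 (k + 1 + 1) = 2 * b2 * sq b2 (k + 1) - sq b2 k := rfl
    rw [e1, e2, ih.1, ih.2]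
    ring

/-- signs of the Chebyshev sequence of a label -/
theorem rt_sq (h : RT b1 b2 bO R) (k : ℕ) :
    (Z1 (sq b2 k) ∧ Z1 (sq b2 (k + 1))) ∨ (Z1 (-sq b2 k) ∧ Z1 (-sq b2 (k + 1))) := by
  obtain ⟨e1, e2⟩ := fe_sq (b1 := b1) (b2 := b2) (bO := bO) k
  rcases fe_mem h h.e0 k with ⟨-, h1, -, -⟩ | ⟨-, h1, -, -⟩
  · rw [e1, e2] at h1
    rcases h.z _ _ _ h1 with ⟨a, -, c⟩ | ⟨a, -, c⟩
    · exact Or.inl ⟨c, a⟩
    · exact Or.inr ⟨c, a⟩
  · rw [e1, e2] at h1
    rcases h.z _ _ _ h1 with ⟨a, -, c⟩ | ⟨a, -, c⟩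
    · exact Or.inl ⟨a, c⟩
    · exact Or.inr ⟨a, c⟩

theorem rt_sq_next (h : RT b1 b2 bO R) {k : ℕ} (h0 : 0 < sq b2 k) : Z1 (sq b2 (k + 1)) := by
  rcases rt_sq h k with ⟨-, h2⟩ | ⟨h1, -⟩
  · exact h2
  · exfalso
    have := z1_nonneg h1
    linarith only [h0, this]

theorem rt_sq_one (h : RT b1 b2 bO R) {k : ℕ} (h0 : 0 < sq b2 k) : 1 ≤ sq b2 k := by
  rcases rt_sq h k with ⟨h1, -⟩ | ⟨h1, -⟩
  · exact z1_one h1 h0
  · exfalso
    have := z1_nonneg h1
    linarith only [h0, this]

/-- dichotomy: infinite or finite order -/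
theorem rt_dich (h : RT b1 b2 bO R) : (1 ≤ b2 ∧ ∀ n, 1 ≤ sq b2 (n + 1)) ∨
    ∃ m, sq b2 (m + 2) = 0 ∧ sq b2 (m + 1) = 1 ∧ b2 < 1 ∧ ∀ k ≤ m, 1 ≤ sq b2 (k + 1) := by
  classical
  by_cases hh : ∀ n, 1 ≤ sq b2 (n + 1)
  · exact Or.inl ⟨one_le_of_sq hh, hh⟩
  · right
    push Not at hh
    have h1 := Nat.find_spec hh
    have h2 := fun k hk => Nat.find_min hh (m := k) hk
    set n := Nat.find hh with hn
    cases hn' : n with
    | zero =>
      rw [hn'] at h1
      simp at h1
    | succ m =>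
      rw [hn'] at h1 h2
      have h3 : ∀ k ≤ m, 1 ≤ sq b2 (k + 1) := fun k hk => by
        have := h2 k (by omega)
        exact not_lt.1 this
      have h4 := h3 m le_rfl
      have h5 : sq b2 (m + 2) = 0 := by
        rcases rt_sq_next h (k := m + 1) (by linarith only [h4]) with h6 | h6
        · exact h6
        · exfalso
          exact absurd h6 (not_le.2 h1)
      refine ⟨m, h5, ?_, ?_, h3⟩
      · have h6 := sq_norm b2 (m + 1)
        have h7 : sq b2 (m + 1 + 1) = 0 := h5
        rw [h7] at h6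
        nlinarith only [h4, h6]
      · by_contra hb1
        have := sq_ge_one (not_lt.1 hb1) (m + 1)
        have h7 : sq b2 (m + 1 + 1) = 0 := h5
        linarith only [this, h7]

end rt

/-- the centre of the star -/
noncomputable def cc (q b p : ℝ) (k : ℕ) : ℝ := if k % 2 = 0 then b + p * q else q + p * b

theorem cc_two (q b p : ℝ) (k : ℕ) : cc q b p (k + 2) = cc q b p k := by
  unfold cc
  rw [Nat.add_mod_right]

theorem cc_rec (q b p : ℝ) (k : ℕ) :
    2 * p * cc q b p (k + 1) - 2 * cc q b p k + (1 - p ^ 2) * fw q b (k + 1) = 0 := by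
  unfold cc fw
  rcases Nat.mod_two_eq_zero_or_one k with hk | hk
  · rw [if_neg (by omega), if_pos hk, if_neg (by omega)]
    ring
  · rw [if_pos (by omega), if_neg (by omega), if_pos (by omega)]
    ring

/-- deviations from the centre -/
theorem dev (q b p Y X x : ℝ) (k : ℕ) :
    ((1 - p ^ 2) * fe q p b Y X x (k + 1) - cc q b p (k + 1) * Y =
      sq p (k + 1) * ((1 - p ^ 2) * x - (q + p * b) * Y) - sq p k * ((1 - p ^ 2) * X - (b + p * q) * Y)) ∧
    ((1 - p ^ 2) * fe q p b Y X x (k + 2) - cc q b p (k + 2) * Y =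
      sq p (k + 2) * ((1 - p ^ 2) * x - (q + p * b) * Y) -
        sq p (k + 1) * ((1 - p ^ 2) * X - (b + p * q) * Y)) := by
  induction k with
  | zero =>
    constructor
    · show (1 - p ^ 2) * x - (q + p * b) * Y = 1 * _ - 0 * _
      ring
    · show (1 - p ^ 2) * (2 * p * x + (2 * b) * Y - X) - (b + p * q) * Y = (2 * p * 1 - 0) * _ - 1 * _
      ring
  | succ k ih =>
    refine ⟨ih.2, ?_⟩
    have e1 : fe q p b Y X x (k + 1 + 2) = 2 * p * fe q p b Y X x (k + 2) +
        fw q b (k + 2) * Y - fe q p b Y X x (k + 1) := rfl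
    have e2 : sq p (k + 1 + 2) = 2 * p * sq p (k + 2) - sq p (k + 1) := rfl
    have e3 : sq p (k + 1 + 1) = 2 * p * sq p (k + 1) - sq p k := rfl
    have e4 := cc_rec q b p (k + 1)
    have e5 : cc q b p (k + 1 + 2) = cc q b p (k + 1) := cc_two q b p (k + 1)
    have e6 : sq p (k + 2) = 2 * p * sq p (k + 1) - sq p k := rfl
    have e7 : cc q b p (k + 1 + 1) = cc q b p (k + 2) := rfl
    have e8 : fw q b (k + 1 + 1) = fw q b (k + 2) := rfl
    rw [e7, e8] at e4
    rw [e5, e1, e2, e3]
    have i1 := ih.1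
    have i2 := ih.2
    rw [e6] at i2
    linear_combination 2 * p * i2 - i1 + Y * e4

section star

variable {q b p : ℝ} {R : ℝ → ℝ → ℝ → Prop}

/-- the opposite chamber of the star of `(u, e)` -/
theorem opp (h : RT q b p R) {Y x X : ℝ} (hR : R Y x X) (hY : 0 < Y) {m : ℕ} (hm : sq p (m + 2) = 0)
    (hm1 : sq p (m + 1) = 1) (hp : p < 1) :
    (m % 2 = 0 ∧ 0 ≤ 2 * (q + p * b) * Y - (1 - p ^ 2) * x ∧ 0 ≤ 2 * (b + p * q) * Y - (1 - p ^ 2) * X) ∨
    (m % 2 = 1 ∧ ∀ K, K * (1 - p) = b + q → R Y (K * Y - X) (K * Y - x)) := by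
  have h2 := rt_swap1 h
  have hR2 : (fun g x1 x2 => R x1 g x2) x Y X := hR
  obtain ⟨-, d1⟩ := dev q b p Y X x m
  obtain ⟨-, d2⟩ := dev q b p Y X x (m + 1)
  have e1 : sq p (m + 1 + 2) = 2 * p * sq p (m + 2) - sq p (m + 1) := rfl
  have e2 : sq p (m + 1 + 1) = sq p (m + 2) := rfl
  rw [hm, hm1] at d1
  rw [e1, e2, hm, hm1] at d2
  have hp0 : 0 ≤ p := h.bOn
  rcases Nat.mod_two_eq_zero_or_one m with hk | hk
  · left
    have c1 : cc q b p (m + 2) = b + p * q := by
      unfold cc
      rw [if_pos (by omega)]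
    have c2 : cc q b p (m + 1 + 2) = q + p * b := by
      unfold cc
      rw [if_neg (by omega)]
    rw [c1] at d1
    rw [c2] at d2
    have z1 := z1_nonneg (fe_z h2 hR2 hY (m + 2))
    have z2 := z1_nonneg (fe_z h2 hR2 hY (m + 1 + 2))
    have hp2 : 0 ≤ 1 - p ^ 2 := by nlinarith only [hp, hp0]
    have k1 := mul_nonneg hp2 z1
    have k2 := mul_nonneg hp2 z2
    exact ⟨hk, by linarith only [d2, k2], by linarith only [d1, k1]⟩
  · right
    refine ⟨hk, fun K hK => ?_⟩
    have c1 : cc q b p (m + 2) = q + p * b := by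
      unfold cc
      rw [if_neg (by omega)]
    have c2 : cc q b p (m + 1 + 2) = b + p * q := by
      unfold cc
      rw [if_pos (by omega)]
    rw [c1] at d1
    rw [c2] at d2
    have hp2 : 0 < 1 - p ^ 2 := by nlinarith only [hp, hp0]
    have f1 : fe q p b Y X x (m + 2) = K * Y - X := by
      have : (1 - p ^ 2) * (fe q p b Y X x (m + 2) - (K * Y - X)) = 0 := by
        linear_combination d1 - (1 + p) * Y * hK
      rcases mul_eq_zero.1 this with h3 | h3
      · exact absurd h3 hp2.ne'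
      · linarith only [h3]
    have f2 : fe q p b Y X x (m + 1 + 2) = K * Y - x := by
      have : (1 - p ^ 2) * (fe q p b Y X x (m + 1 + 2) - (K * Y - x)) = 0 := by
        linear_combination d2 - (1 + p) * Y * hK
      rcases mul_eq_zero.1 this with h3 | h3
      · exact absurd h3 hp2.ne'
      · linarith only [h3]
    have f3 : fe q p b Y X x (m + 2 + 1) = K * Y - x := f2
    rcases fe_mem h2 hR2 (m + 2) with ⟨h3, -⟩ | ⟨-, h3, -⟩
    · omega
    · rw [f1, f3] at h3
      exact h3

/-- roots of the plane of `α` and `e` -/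
theorem flat2 (h : RT q b p R) {Y c : ℝ} (hR : R Y c 0) (hY : 1 ≤ Y) (hY2 : Y < 2) (hc : c < q * Y) :
    (Y = 1 ∧ c = 0) ∨ (Y = 2 * q ∧ c = 1) := by
  have hn := h.n _ _ _ hR
  have hn' : Y ^ 2 + c ^ 2 - 2 * q * Y * c = 1 := by linear_combination hn
  have hq := h.b1n
  rcases (h.z0 hR (by linarith only [hY])).2.1 with h1 | h1
  · left
    rw [h1] at hn'
    exact ⟨by nlinarith only [hc, hn', hq, h1], h1⟩
  · have hR1 := h.r0 _ _ _ hR
    have e1 : 2 * q * c + 2 * b * 0 - Y = 2 * q * c - Y := by ring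
    rw [e1] at hR1
    obtain ⟨Z, hZ⟩ : ∃ Z, Z = 2 * q * c - Y := ⟨_, rfl⟩
    rw [← hZ] at hR1
    rcases (h.z1 hR1 (by linarith only [h1])).1 with h2 | h2
    · right
      have h3 : Y = 2 * q * c := by linarith only [hZ, h2]
      have h4 : c ^ 2 = 1 := by
        rw [h3] at hn'
        linear_combination hn'
      have h5 : c = 1 := by nlinarith only [h1, h4]
      rw [h5] at h3
      exact ⟨by linarith only [h3], h5⟩
    · exfalso
      have hYZ : Y * Z = c ^ 2 - 1 := by
        rw [hZ]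
        linear_combination -hn'
      have hcY : c < Y := by
        by_contra h3
        have h3 := not_lt.1 h3
        have h4 : 0 < c * (q * Y - c) := mul_pos (by linarith only [h1]) (by linarith only [hc])
        nlinarith only [hY, hY2, hZ, h2, hYZ, h4]
      have hZY : Z < Y := by
        have h3 : Y * Z < Y * Y := by nlinarith only [h1, hYZ, hcY]
        exact lt_of_mul_lt_mul_left h3 (by linarith only [h1, hcY])
      have hq2 : 3 < 4 * q ^ 2 := by
        have h3 : c ^ 2 < (q * Y) ^ 2 := by nlinarith only [hc, h1]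
        have h4 : 1 + Y ≤ c ^ 2 := by nlinarith only [h2, hYZ, hZY]
        have h5 : 3 * Y ^ 2 < 4 * q ^ 2 * Y ^ 2 := by nlinarith only [hc, hn, h1, hcY, h3, h4]
        exact lt_of_mul_lt_mul_right h5 (by positivity)
      have hc2 : c < 2 * q := by
        by_contra h3
        have h3 := not_lt.1 h3
        have h4 : q * 2 < q * Y := by linarith only [hc, h3]
        have h5 : (2 : ℝ) < Y := lt_of_mul_lt_mul_left h4 hq
        linarith only [hY2, h5]
      have hR2 := h.r1 _ _ _ hR1
      have e2 : 2 * q * Z + 2 * p * 0 - c = 2 * q * Z - c := by ring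
      rw [e2] at hR2
      obtain ⟨d, hd⟩ : ∃ d, d = 2 * q * Z - c := ⟨_, rfl⟩
      rw [← hd] at hR2
      have hn1 := h.n _ _ _ hR1
      have hcd : c * d = Z ^ 2 - 1 := by
        rw [hd]
        linear_combination -hn1
      rcases (h.z0 hR2 (by linarith only [h2])).2.1 with h3 | h3
      · rw [h3] at hcd
        have h4 : Z = 1 := by nlinarith only [h2, hcd]
        rw [h3, h4] at hd
        linarith only [hc2, hd]
      · have h4 : (2 * q - c) * (2 * q - d) = (Z - 1) * (Z + 1 - 4 * q ^ 2) := by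
          have h5 : c + d = 2 * q * Z := by linarith only [hd]
          linear_combination hcd - 2 * q * h5
        have h5 : (Z - 1) * (Z + 1 - 4 * q ^ 2) ≤ 0 :=
          mul_nonpos_of_nonneg_of_nonpos (by linarith only [h2]) (by linarith only [hY2, hZY, hq2])
        have h6 : 2 * q ≤ d := by
          by_contra h7
          have := mul_pos (by linarith only [hc2] : 0 < 2 * q - c) (by linarith only [not_le.1 h7] : 0 < 2 * q - d)
          linarith only [h4, h5, this]
        have h7 : c * d < c * c := by nlinarith only [hY2, hc, hq, h1, hZ, h2, hYZ]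
        have h8 := lt_of_mul_lt_mul_left h7 (by linarith only [h1] : 0 ≤ c)
        linarith only [hc2, h6, h8]

/-- the exceptional position is impossible -/
theorem excl (h : RT q b p R) {K Y c ra qu f Y' x' X' : ℝ} (hp : 1 / 2 ≤ p) (hp1 : p < 1)
    (hK : K * (1 - p) = b + q) (hb : 1 ≤ 2 * b ^ 2) (hR : R Y c 0) (hY : 1 ≤ Y) (hY2 : Y < 2)
    (hB : c < q * Y) (hq : 0 < qu) (hφ : Y * ra - (K * Y - c) * qu + K * Y * f = 0)
    (hφ' : Y' * ra - X' * qu + x' * f = 0) (hY' : 0 ≤ Y') (hX' : 0 ≤ X') (hx' : 1 ≤ x')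
    (hcr : (K * Y - c) * x' - K * Y * X' ≠ 0) (hL : 0 < Y' → R Y' (K * Y' - X') (K * Y' - x'))
    (hbb : 0 < qu * (Y - b * (K * Y - c) - q * (K * Y)) + ra * (q * Y - c)) : False := by
  have hn := h.n _ _ _ hR
  have hn' : Y ^ 2 + c ^ 2 - 2 * q * Y * c = 1 := by linear_combination hn
  have hqn := h.b1n
  have hbn := h.b2n
  have hb0 : 0 < b := by
    rcases hbn.lt_or_eq with h1 | h1
    · exact h1
    · rw [← h1] at hb
      norm_num at hb
  have hKb : 2 * (b + q) ≤ K := by
    have h1 : 0 < 1 - p := by linarith only [hp1]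
    have h2 : 0 < K := by
      by_contra h3
      have := mul_nonpos_of_nonpos_of_nonneg (not_lt.1 h3) h1.le
      linarith only [hK, hqn, hb0, this]
    nlinarith
  -- the inequality (b)
  have key : qu * (K * Y * (b * Y + p * c) - 1) < (q * Y - c) * K * Y * -f := by
    have h1 : 0 < Y * (qu * (Y - b * (K * Y - c) - q * (K * Y)) + ra * (q * Y - c)) :=
      mul_pos (by linarith only [hY]) hbb
    have h2 : Y * (qu * (Y - b * (K * Y - c) - q * (K * Y)) + ra * (q * Y - c)) =
        (q * Y - c) * K * Y * -f - qu * (K * Y * (b * Y + p * c) - 1) := by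
      linear_combination (q * Y - c) * hφ + qu * hn' - qu * c * Y * hK
    linarith only [h1, h2]
  rcases flat2 h hR hY hY2 hB with ⟨h1, h2⟩ | ⟨h1, h2⟩
  · subst h1 h2
    have hq0 : 0 < q := by linarith only [hB]
    have hW : 0 < -f := by
      have h3 : 0 ≤ qu * (K * 1 * (b * 1 + p * 0) - 1) := by
        apply mul_nonneg hq.le
        nlinarith only [hp, hp1, hK, hb, hqn, hbn]
      have h4 : 0 < (q * 1 - 0) * K * 1 * -f := by linarith only [key, h3]
      have h5 : 0 < (q * 1 - 0) * K * 1 := by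
        have : 0 < q * K := mul_pos hq0 (by linarith only [hb0, hKb, hB])
        linarith only [this]
      exact (mul_pos_iff_of_pos_left h5).1 h4
    have hval : (K * Y' - X') * qu + (K * Y' - x') * -f = 0 := by
      linear_combination hφ' - Y' * hφ
    rcases hY'.lt_or_eq with h3 | h3
    · obtain ⟨-, z1, z2⟩ := h.z0 (hL h3) h3
      have z1 := z1_nonneg z1
      have z2 := z1_nonneg z2
      have h4 := mul_nonneg z1 hq.le
      have h5 := mul_nonneg z2 hW.le
      have h6 : (K * Y' - X') * qu = 0 := by linarith only [hval, h4, h5]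
      have h7 : (K * Y' - x') * -f = 0 := by linarith only [hval, h6]
      have h8 : K * Y' - X' = 0 := by
        rcases mul_eq_zero.1 h6 with h9 | h9
        · exact h9
        · exact absurd h9 hq.ne'
      have h9 : K * Y' - x' = 0 := by
        rcases mul_eq_zero.1 h7 with h9 | h9
        · exact h9
        · exact absurd h9 hW.ne'
      apply hcr
      have : X' = x' := by linarith only [h8, h9]
      rw [this]
      ring
    · rw [← h3] at hval
      have h4 := mul_nonneg hX' hq.le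
      have h5 := mul_pos (by linarith only [hx'] : 0 < x') hW
      linarith only [hval, h4, h5]
  · subst h1 h2
    have hq2 : 0 < 2 * q ^ 2 - 1 := by nlinarith only [hB]
    have hq0 : 0 < q := by linarith only [hY]
    have hK0 : 0 < K := by linarith only [hb0, hKb, hY]
    have hW : b * qu < q * -f := by
      have h3 : (2 * q ^ 2 - 1) * (2 * K) * (b * qu) ≤ qu * (K * (2 * q) * (b * (2 * q) + p * 1) - 1) := by
        have h4 : 0 ≤ qu * (2 * K * (p * q + b) - 1) := by
          apply mul_nonneg hq.le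
          have h5 : 0 ≤ p * q := mul_nonneg (by linarith only [hp]) hqn
          nlinarith only [hK, hb, hqn, hb0, hKb]
        nlinarith only [h4]
      have h4 : (2 * q ^ 2 - 1) * (2 * K) * (b * qu) < (2 * q ^ 2 - 1) * (2 * K) * (q * -f) := by
        have h5 : (q * (2 * q) - 1) * K * (2 * q) * -f = (2 * q ^ 2 - 1) * (2 * K) * (q * -f) := by ring
        linarith only [key, h3]
      exact lt_of_mul_lt_mul_left h4 (by positivity)
    have hW0 : 0 < -f := by
      have h3 : 0 < q * -f := by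
        have := mul_pos hb0 hq
        linarith only [hW, this]
      exact (mul_pos_iff_of_pos_left hq0).1 h3
    have hval : 2 * q * ((K * Y' - X') * qu + (K * Y' - x') * -f) = Y' * qu := by
      linear_combination 2 * q * hφ' - Y' * hφ
    rcases hY'.lt_or_eq with h3 | h3
    · obtain ⟨-, z1, z2⟩ := h.z0 (hL h3) h3
      have z1' := z1_nonneg z1
      have z2' := z1_nonneg z2
      have hL0 := h.r0 _ _ _ (hL h3)
      obtain ⟨c', hc'⟩ : ∃ c', c' = K * Y' - X' := ⟨_, rfl⟩
      obtain ⟨d', hd'⟩ : ∃ d', d' = K * Y' - x' := ⟨_, rfl⟩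
      rw [← hc', ← hd'] at hL0 hval
      rw [← hc'] at z1'
      rw [← hd'] at z2'
      have hy : 0 ≤ 2 * q * c' + 2 * b * d' - Y' := by
        rcases z1'.lt_or_eq with h4 | h4
        · exact z1_nonneg (h.z1 hL0 h4).1
        · rcases z2'.lt_or_eq with h5 | h5
          · exact z1_nonneg (h.z2 hL0 h5).1
          · exfalso
            rw [← h4, ← h5] at hval
            have := mul_pos h3 hq
            linarith only [hval, this]
      have h4 : (2 * q * c' + 2 * b * d' - Y') * qu + 2 * d' * (q * -f - b * qu) = 0 := by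
        linear_combination hval
      have h5 := mul_nonneg hy hq.le
      have h6 : 0 ≤ 2 * d' * (q * -f - b * qu) := mul_nonneg (by linarith only [z2']) (by linarith only [hW])
      have h7 : (2 * q * c' + 2 * b * d' - Y') * qu = 0 := by linarith only [h4, h5, h6]
      have h8 : 2 * d' * (q * -f - b * qu) = 0 := by linarith only [h4, h5, h6]
      have h9 : d' = 0 := by
        rcases mul_eq_zero.1 h8 with h10 | h10
        · linarith only [h10]
        · linarith only [hW, h10]
      have h10 : Y' = 2 * q * c' := by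
        rcases mul_eq_zero.1 h7 with h11 | h11
        · rw [h9] at h11
          linarith only [h11]
        · exact absurd h11 hq.ne'
      apply hcr
      have h11 : x' = K * Y' := by linarith only [hd', h9]
      have h12 : X' = K * Y' - c' := by linarith only [hc']
      rw [h11, h12, h10]
      ring
    · rw [← h3] at hval
      have h4 := mul_nonneg hX' hq.le
      have h5 := mul_pos (by linarith only [hx'] : 0 < x') hW0
      have h6 : 2 * q * ((K * 0 - X') * qu + (K * 0 - x') * -f) < 0 := by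
        apply mul_neg_of_pos_of_neg (by linarith only [hq0])
        linarith only [h4, h5]
      linarith only [hval, h6]

end star

/-- the data of the index of `F` at the vertex of `α` and `u` -/
structure Ta (b τ s S d : ℝ) : Prop where
  hS : S * τ = s - 1
  hd : d = τ * (s + 1)
  hm : S + d = 2 * b * s
  s2 : 2 ≤ s ^ 2
  s0 : 0 < s
  t0 : 0 < τ
  t1 : τ < 1
  b2 : 1 ≤ 2 * b ^ 2
  b0 : 0 < b

namespace Ta

variable {b τ s S d Y B : ℝ} (T : Ta b τ s S d)
include T

theorem e1 : 2 * s * (1 - b * τ) = (s + 1) * (1 - τ ^ 2) := by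
  linear_combination τ * T.hm - T.hS - τ * T.hd

theorem e2 : s * (1 - 2 * b * τ + τ ^ 2) = 1 - τ ^ 2 := by
  linear_combination τ * T.hm - T.hS - τ * T.hd

theorem tt : 0 < 1 - τ ^ 2 := by nlinarith only [T.t0, T.t1]

theorem bt : 0 < 1 - b * τ := by
  have h1 := T.e1
  have h2 := T.tt
  have h3 := T.s0
  have h4 : 0 < 2 * s * (1 - b * τ) := by
    rw [h1]
    positivity
  exact (mul_pos_iff_of_pos_left (by linarith only [h3])).1 h4

theorem dp : 0 < 1 - 2 * b * τ + τ ^ 2 := by
  have h1 := T.e2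
  have h2 := T.tt
  have h3 := T.s0
  rw [← h1] at h2
  exact (mul_pos_iff_of_pos_left h3).1 h2

theorem r2 : τ ^ 2 * (1 + (b ^ 2 - 1) * Y ^ 2) = (1 - (1 - b * τ) * Y) ^ 2 +
    (1 - 2 * b * τ + τ ^ 2) * ((Y - 1) * (s - Y)) := by
  linear_combination (1 - Y) * T.e2

theorem sone : 1 < s := by nlinarith only [T.s2, T.s0]

theorem Ys (h : (s + 1) * Y < 2 * s) : Y < s := by
  have h1 := T.sone
  nlinarith only [h, h1]

theorem Y2 (h : (s + 1) * Y < 2 * s) : Y < 2 := by
  have h1 := T.s0
  nlinarith only [h, h1]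

theorem sb : s ≤ b * (s + 1) := by
  have h1 := T.sone
  have h0 := T.b0
  have h2 : s ^ 2 - 1 ≤ b ^ 2 * s ^ 2 := by
    have h3 : S * d = s ^ 2 - 1 := by
      rw [T.hd]
      linear_combination (s + 1) * T.hS
    have h4 : 4 * (b ^ 2 * s ^ 2) = (S - d) ^ 2 + 4 * (s ^ 2 - 1) := by
      rw [← h3]
      have := T.hm
      have h5 : (2 * b * s) ^ 2 = (S + d) ^ 2 := by rw [this]
      linear_combination h5
    nlinarith only [h4, sq_nonneg (S - d)]
  have h3 : s ^ 4 ≤ (s ^ 2 - 1) * (s + 1) ^ 2 := by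
    have h4 := T.s2
    nlinarith only [h1, mul_nonneg T.s0.le (by linarith only [h4] : 0 ≤ s ^ 2 - 2)]
  have h4 : s ^ 2 * s ^ 2 ≤ s ^ 2 * (b * (s + 1)) ^ 2 := by
    have h5 := mul_le_mul_of_nonneg_right h2 (sq_nonneg (s + 1))
    nlinarith only [h3, h5]
  have h5 : s ^ 2 ≤ (b * (s + 1)) ^ 2 := le_of_mul_le_mul_left h4 (by positivity)
  exact (abs_le_of_sq_le_sq' h5 (by positivity)).2

theorem Yb (h : (s + 1) * Y < 2 * s) : Y < 2 * b := by
  have h1 := T.sone
  have h2 := T.sb
  have h3 : (s + 1) * Y < (s + 1) * (2 * b) := by linarith only [h, h2]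
  exact lt_of_mul_lt_mul_left h3 (by linarith only [h1])

theorem big (h : 2 * s ≤ (s + 1) * Y) (hB : τ ≤ B) : 1 ≤ (1 - b * τ) * Y + τ * B := by
  have h1 := T.e1
  have h2 := T.tt
  have h3 := T.s0
  have h4 := T.t0
  have h5 : 2 * s * 1 ≤ 2 * s * ((1 - b * τ) * Y + τ * B) := by
    have h6 : (1 - τ ^ 2) * (2 * s) ≤ (1 - τ ^ 2) * ((s + 1) * Y) := mul_le_mul_of_nonneg_left h h2.le
    have h7 : 2 * s * (τ * τ) ≤ 2 * s * (τ * B) := by
      apply mul_le_mul_of_nonneg_left _ (by linarith only [h3])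
      exact mul_le_mul_of_nonneg_left hB h4.le
    have h8 : 2 * s * (1 - b * τ) * Y = (s + 1) * (1 - τ ^ 2) * Y := by rw [h1]
    nlinarith only [h6, h7, h8]
  exact le_of_mul_le_mul_left h5 (by linarith only [h3])

theorem small (hY : 1 ≤ Y) (h : (s + 1) * Y < 2 * s) (hB : τ ≤ B) (h2 : 1 + (b ^ 2 - 1) * Y ^ 2 ≤ B ^ 2) :
    1 ≤ (1 - b * τ) * Y + τ * B := by
  have h3 := T.r2 (Y := Y)
  have h4 := T.Ys h
  have h5 := T.dp
  have h6 := T.t0
  have h7 : 0 ≤ (1 - 2 * b * τ + τ ^ 2) * ((Y - 1) * (s - Y)) :=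
    mul_nonneg h5.le (mul_nonneg (by linarith only [hY]) (by linarith only [h4]))
  have h8 : (1 - (1 - b * τ) * Y) ^ 2 ≤ (τ * B) ^ 2 := by
    have h9 := mul_le_mul_of_nonneg_left h2 (sq_nonneg τ)
    nlinarith only [h3, h7, h9]
  have h9 := (abs_le_of_sq_le_sq' h8 (mul_nonneg h6.le (by linarith only [hB, h6]))).2
  linarith only [h9]

theorem ge_b (hY : 1 ≤ Y) (hB : b ≤ B) : 1 ≤ (1 - b * τ) * Y + τ * B := by
  have h1 := T.bt
  have h2 := T.t0
  have h3 := mul_le_mul_of_nonneg_left hY h1.le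
  have h4 := mul_le_mul_of_nonneg_left hB h2.le
  linarith only [h3, h4]

theorem r2nn (hY : 1 ≤ Y) (h : (s + 1) * Y < 2 * s) : 0 ≤ 1 + (b ^ 2 - 1) * Y ^ 2 := by
  have h3 := T.r2 (Y := Y)
  have h4 := T.Ys h
  have h5 := T.dp
  have h6 := T.t0
  have h7 : 0 ≤ (1 - 2 * b * τ + τ ^ 2) * ((Y - 1) * (s - Y)) :=
    mul_nonneg h5.le (mul_nonneg (by linarith only [hY]) (by linarith only [h4]))
  have h8 : 0 ≤ τ ^ 2 * (1 + (b ^ 2 - 1) * Y ^ 2) := by
    rw [h3]
    have := sq_nonneg (1 - (1 - b * τ) * Y)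
    linarith only [h7, this]
  exact nonneg_of_mul_nonneg_right h8 (by positivity)

end Ta

/-- the lower window: `B ≥ b` -/
theorem window {q b p K Y x B w : ℝ} (hb : 1 ≤ 2 * b ^ 2) (hb0 : 0 < b) (hp : 1 / 2 ≤ p) (hp1 : p < 1)
    (hK : K * (1 - p) = b + q) (hY : 1 ≤ Y) (hY2 : Y < 2) (hYb : Y < 2 * b) (hx : 1 ≤ x)
    (hq : q = 0 ∨ 1 ≤ 2 * q) (hps : 2 * p = 1 ∨ 2 ≤ (2 * p) ^ 2) (hB0 : 0 ≤ B)
    (hB : B ^ 2 = 1 + (b ^ 2 - 1) * Y ^ 2 - (1 - p ^ 2) * x ^ 2 + 2 * (b * p + q) * Y * x)
    (hw0 : 0 ≤ w) (hw : w ^ 2 = 1 + (b ^ 2 - 1) * Y ^ 2) (hl : x ≤ (K - b) * Y - w) : b ≤ B := by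
  have hb7 : 7 / 10 ≤ b := by
    by_contra h
    have := mul_self_lt_mul_self hb0.le (not_le.1 h)
    linarith only [hb, this]
  have hq0 : 0 ≤ q := by rcases hq with h | h <;> linarith only [h]
  have hbw : b * Y - 1 < w := by
    by_contra h1
    have h1 := not_lt.1 h1
    have h2 : w ^ 2 ≤ (b * Y - 1) ^ 2 := by
      apply pow_le_pow_left₀ hw0 h1
    have h3 : Y * (2 * b) ≤ Y * Y := by
      rw [hw] at h2
      linarith only [h2]
    have h4 := le_of_mul_le_mul_left h3 (by linarith only [hY])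
    linarith only [hYb, h4]
  have hcase : 1 ≤ 2 * q ∨ (q = 0 ∧ 1 ≤ 2 * p ^ 2) := by
    rcases hq with h | h
    · right
      refine ⟨h, ?_⟩
      rcases hps with h1 | h1
      · exfalso
        have h2 : K = 2 * b := by
          have : p = 1 / 2 := by linarith only [h1]
          rw [this, h] at hK
          linarith only [hK]
        rw [h2] at hl
        have h3 : (2 * b - b) * Y - w = b * Y - w := by ring
        rw [h3] at hl
        linarith only [hx, hl, hbw]
      · linarith only [h1]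
    · exact Or.inl h
  have hp2 : 0 < 1 - p ^ 2 := by nlinarith
  -- the value at `1`
  have hQ1 : b ^ 2 ≤ 1 + (b ^ 2 - 1) * Y ^ 2 - (1 - p ^ 2) * 1 ^ 2 + 2 * (b * p + q) * Y * 1 := by
    rcases hcase with h | ⟨h, h1⟩
    · have h2 : (b + 1) * Y ≤ 2 * (b * p + q) * Y := by
        apply mul_le_mul_of_nonneg_right _ (by linarith only [hY])
        have := mul_le_mul_of_nonneg_left hp hb0.le
        linarith only [h, this]
      have h3 : 1 / 4 ≤ p ^ 2 := by
        have := mul_self_le_mul_self (by norm_num : (0 : ℝ) ≤ 1 / 2) hp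
        linarith only [this]
      have h4 : (1 - Y) / 2 ≤ (Y + 1) * b ^ 2 - Y := by
        have := mul_le_mul_of_nonneg_left (by linarith only [hb] : 1 / 2 ≤ b ^ 2) (by linarith only [hY] : 0 ≤ Y + 1)
        linarith only [this]
      have h5 : (Y - 1) * ((1 - Y) / 2) ≤ (Y - 1) * ((Y + 1) * b ^ 2 - Y) :=
        mul_le_mul_of_nonneg_left h4 (by linarith only [hY])
      have h6 : -(1 / 2) ≤ (Y - 1) * ((1 - Y) / 2) := by
        have := mul_le_mul (by linarith only [hY2] : Y - 1 ≤ 1) (by linarith only [hY2] : Y - 1 ≤ 1) (by linarith only [hY]) zero_le_one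
        linarith only [this]
      have h7 : b ≤ b * Y := le_mul_of_one_le_right hb0.le hY
      linarith only [hb7, h2, h3, h5, h6, h7]
    · have h2 : 1 / 2 ≤ b * p := by
        have h3 : (1 / 2) ^ 2 ≤ (b * p) ^ 2 := by
          have : (b * p) ^ 2 = b ^ 2 * p ^ 2 := by ring
          rw [this]
          have := mul_le_mul (by linarith only [hb] : 1 / 2 ≤ b ^ 2) (by linarith only [h1] : 1 / 2 ≤ p ^ 2) (by norm_num) (sq_nonneg _)
          linarith only [this]
        exact (abs_le_of_sq_le_sq' h3 (mul_nonneg hb0.le (by linarith only [hp]))).2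
      rw [h]
      have h3 : (1 / 2) * (Y ^ 2 - 1) ≤ b ^ 2 * (Y ^ 2 - 1) :=
        mul_le_mul_of_nonneg_right (by linarith only [hb]) (by
          have := mul_self_le_mul_self zero_le_one hY
          linarith only [this])
      have h4 : 1 / 2 * Y ≤ b * p * Y := mul_le_mul_of_nonneg_right h2 (by linarith only [hY])
      have h5 := mul_nonneg (by linarith only [hY] : 0 ≤ Y) (by linarith only [hY2] : 0 ≤ 2 - Y)
      linarith
  -- the value at the end of the window
  obtain ⟨v, hv⟩ : ∃ v, v = (K - b) * Y - w := ⟨_, rfl⟩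
  have hval : ∀ t, 1 + (b ^ 2 - 1) * Y ^ 2 - (1 - p ^ 2) * t ^ 2 + 2 * (b * p + q) * Y * t =
      w ^ 2 + ((K - b) * Y - p * t) ^ 2 - ((K - b) * Y - t) ^ 2 := by
    intro t
    rw [hw]
    linear_combination (-2 * Y * t) * hK
  have hQv : b ^ 2 ≤ 1 + (b ^ 2 - 1) * Y ^ 2 - (1 - p ^ 2) * v ^ 2 + 2 * (b * p + q) * Y * v := by
    rw [hval v]
    have h1 : (K - b) * Y - v = w := by rw [hv]; ring
    have h2 : (K - b) * Y - p * v = (q + b * p) * Y + p * w := by
      rw [hv]
      linear_combination Y * hK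
    rw [h1, h2]
    have h3 : b ^ 2 ≤ ((q + b * p) * Y + p * w) ^ 2 := by
      rcases hcase with h | ⟨h, h4⟩
      · have h5 : b ≤ (q + b * p) * Y + p * w := by
          have h6 : (1 + b) / 2 ≤ (q + b * p) * Y := by
            have h7 : (1 + b) / 2 ≤ q + b * p := by
              have := mul_le_mul_of_nonneg_left hp hb0.le
              linarith only [h, this]
            have h8 := le_mul_of_one_le_right (by linarith only [hb7, h7] : 0 ≤ q + b * p) hY
            linarith only [h7, h8]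
          have h7 : 1 / 2 * w ≤ p * w := mul_le_mul_of_nonneg_right hp hw0
          rcases le_or_gt b 1 with h8 | h8
          · linarith only [hw0, h6, h7, h8]
          · have h9 : b ^ 2 ≤ w ^ 2 := by
              rw [hw]
              have h10 : 0 ≤ (b ^ 2 - 1) * (Y ^ 2 - 1) := mul_nonneg (by
                have := mul_self_le_mul_self zero_le_one h8.le
                linarith only [this]) (by
                have := mul_self_le_mul_self zero_le_one hY
                linarith only [this])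
              linarith only [h10]
            have h10 := (abs_le_of_sq_le_sq' h9 hw0).2
            linarith only [h6, h7, h10]
        exact pow_le_pow_left₀ hb0.le h5 2
      · rw [h]
        have h5 : 2 * b ^ 2 ≤ (b * Y + w) ^ 2 := by
          have h6 : (b * Y + w) ^ 2 = (2 * b ^ 2 - 1) * Y ^ 2 + 1 + 2 * (b * Y * w) := by
            linear_combination hw
          rw [h6]
          have h7 : 0 ≤ b * Y * w := mul_nonneg (mul_nonneg hb0.le (by linarith only [hY])) hw0
          have h8 : 0 ≤ (2 * b ^ 2 - 1) * (Y ^ 2 - 1) := mul_nonneg (by linarith only [hb]) (by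
            have := mul_self_le_mul_self zero_le_one hY
            linarith only [this])
          linarith only [h7, h8]
        have h6 : ((0 + b * p) * Y + p * w) ^ 2 = p ^ 2 * (b * Y + w) ^ 2 := by ring
        rw [h6]
        have h7 := mul_le_mul_of_nonneg_left h5 (sq_nonneg p)
        have h8 : 0 ≤ (2 * p ^ 2 - 1) * b ^ 2 := mul_nonneg (by linarith only [h4]) (sq_nonneg b)
        linarith only [h7, h8]
    linarith
  -- concavity
  have hmain : b ^ 2 ≤ B ^ 2 := by
    rw [hB]
    rcases (hx.trans hl).eq_or_lt with h1 | h1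
    · have h2 : x = 1 := by linarith only [hx, hl, h1]
      rw [h2]
      exact hQ1
    · rw [← hv] at h1 hl
      have h2 : (v - 1) * b ^ 2 ≤ (v - 1) * (1 + (b ^ 2 - 1) * Y ^ 2 - (1 - p ^ 2) * x ^ 2 +
          2 * (b * p + q) * Y * x) := by
        have h3 : (v - 1) * (1 + (b ^ 2 - 1) * Y ^ 2 - (1 - p ^ 2) * x ^ 2 + 2 * (b * p + q) * Y * x) =
            (v - x) * (1 + (b ^ 2 - 1) * Y ^ 2 - (1 - p ^ 2) * 1 ^ 2 + 2 * (b * p + q) * Y * 1) +
            (x - 1) * (1 + (b ^ 2 - 1) * Y ^ 2 - (1 - p ^ 2) * v ^ 2 + 2 * (b * p + q) * Y * v) +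
            (1 - p ^ 2) * ((x - 1) * (v - x) * (v - 1)) := by ring
        rw [h3]
        have h4 : 0 ≤ (1 - p ^ 2) * ((x - 1) * (v - x) * (v - 1)) :=
          mul_nonneg hp2.le (mul_nonneg (mul_nonneg (by linarith only [hx]) (by linarith only [hl])) (by linarith only [h1]))
        have h5 := mul_le_mul_of_nonneg_left hQ1 (by linarith only [hl] : 0 ≤ v - x)
        have h6 := mul_le_mul_of_nonneg_left hQv (by linarith only [hx] : 0 ≤ x - 1)
        have h7 : (v - 1) * b ^ 2 = (v - x) * b ^ 2 + (x - 1) * b ^ 2 := by ring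
        linarith only [h4, h5, h6]
      exact le_of_mul_le_mul_left h2 (by linarith only [h1])
  exact (abs_le_of_sq_le_sq' hmain hB0).2

/-- **the inequality (*)** -/
theorem star {q b p : ℝ} {R : ℝ → ℝ → ℝ → Prop} (h : RT q b p R) {τ s S d Y x X Y' x' X' ra qu f : ℝ}
    (T : Ta b τ s S d) (hR : R Y x X) (hR' : R Y' x' X') (hY : 1 ≤ Y) (hx : 1 ≤ x) (hY' : 0 ≤ Y')
    (hX' : 0 ≤ X') (hx' : 1 ≤ x') (hq : 0 < qu) (hφ : Y * ra - X * qu + x * f = 0)
    (hφ' : Y' * ra - X' * qu + x' * f = 0) (hcr : X * x' - x * X' ≠ 0)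
    (hbb : 0 < qu * (Y - b * X - q * x) + ra * (X - b * Y - p * x)) (hB : τ ≤ X - b * Y - p * x) :
    1 ≤ (1 - b * τ) * Y + τ * (X - b * Y - p * x) := by
  rcases le_or_gt (2 * s) ((s + 1) * Y) with h1 | h1
  · exact T.big h1 hB
  obtain ⟨B, hBe⟩ : ∃ B, B = X - b * Y - p * x := ⟨_, rfl⟩
  have hn := h.n _ _ _ hR
  have hB2 : B ^ 2 = 1 + (b ^ 2 - 1) * Y ^ 2 - (1 - p ^ 2) * x ^ 2 + 2 * (b * p + q) * Y * x := by
    rw [hBe]
    linear_combination hn
  have hqn := h.b1n
  have hpn := h.bOn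
  have hb0 := T.b0
  have ht0 := T.t0
  rw [← hBe] at hB hbb ⊢
  have hY0 : 0 < Y := by linarith only [hY]
  have hx0 : 0 < x := by linarith only [hx]
  have hYx : 0 < Y * x := mul_pos hY0 hx0
  rcases rt_dich (rt_swap1 h) with ⟨hp1, -⟩ | ⟨m, hm, hm1, hp1, hmp⟩
  · -- `p ≥ 1`
    apply T.small hY h1 hB
    rw [hB2]
    have h2 : 0 ≤ (p ^ 2 - 1) * x ^ 2 := mul_nonneg (by
      have := mul_self_le_mul_self zero_le_one hp1
      linarith only [this]) (sq_nonneg x)
    have h3 : 0 ≤ 2 * (b * p + q) * (Y * x) :=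
      mul_nonneg (by have := mul_nonneg hb0.le hpn; linarith only [hqn, this]) hYx.le
    linarith only [h2, h3]
  · rcases opp h hR hY0 hm hm1 hp1 with ⟨-, h2, -⟩ | ⟨hmo, ho⟩
    · -- even order
      apply T.small hY h1 hB
      rw [hB2]
      have h3 := mul_nonneg hx0.le h2
      linarith only [h3]
    · -- odd order
      have hphalf : 1 / 2 ≤ p := by
        rcases h.bOz with h2 | h2
        · exfalso
          have h3 := hmp 1 (by omega)
          have h4 : sq p (1 + 1) = 2 * p * 1 - 0 := rfl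
          rw [h4] at h3
          linarith only [h2, h3]
        · linarith only [h2]
      obtain ⟨K, hKe⟩ : ∃ K, K = (b + q) / (1 - p) := ⟨_, rfl⟩
      have hK : K * (1 - p) = b + q := by
        rw [hKe]
        exact div_mul_cancel₀ _ (by linarith only [hp1])
      have ho' := ho K hK
      obtain ⟨-, zn, zN⟩ := h.z0 ho' hY0
      have hn0 := z1_nonneg zn
      have hY2 := T.Y2 h1
      have hYb := T.Yb h1
      have hR2 := T.r2nn hY h1
      obtain ⟨w, hw0, hw⟩ : ∃ w, 0 ≤ w ∧ w ^ 2 = 1 + (b ^ 2 - 1) * Y ^ 2 :=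
        ⟨Real.sqrt (1 + (b ^ 2 - 1) * Y ^ 2), Real.sqrt_nonneg _, Real.sq_sqrt hR2⟩
      have hwin : w ^ 2 ≤ ((K - b) * Y - x) ^ 2 := by
        have h2 : B ≤ (K - b) * Y - p * x := by
          rw [hBe]
          linarith only [hn0]
        have h3 : B ^ 2 ≤ ((K - b) * Y - p * x) ^ 2 := pow_le_pow_left₀ (by linarith only [hB, ht0]) h2 2
        have h4 : B ^ 2 = w ^ 2 + ((K - b) * Y - p * x) ^ 2 - ((K - b) * Y - x) ^ 2 := by
          rw [hB2, hw]
          linear_combination (-2 * Y * x) * hK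
        linarith only [h3, h4]
      have habs : x ≤ (K - b) * Y - w ∨ (K - b) * Y + w ≤ x := by
        have h2 := sq_le_sq.1 hwin
        rw [abs_of_nonneg hw0] at h2
        rcases le_abs.1 h2 with h3 | h3
        · left
          linarith only [h3]
        · right
          linarith only [h3]
      rcases habs with h2 | h2
      · apply T.ge_b hY
        refine window T.b2 hb0 hphalf hp1 hK hY hY2 hYb hx ?_ ?_ (by linarith only [hB, ht0]) hB2 hw0 hw h2
        · rcases h.b1z with h3 | h3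
          · left
            linarith only [h3]
          · right
            exact h3
        · rcases h.bOs with h3 | h3 | h3
          · linarith only [hphalf, h3]
          · exact Or.inl h3
          · exact Or.inr h3
      · exfalso
        have hN : K * Y - x < 1 := by
          have h3 : b * Y - 1 < w := by
            by_contra h4
            have h4 := not_lt.1 h4
            have h5 : w ^ 2 ≤ (b * Y - 1) ^ 2 := pow_le_pow_left₀ hw0 h4 2
            rw [hw] at h5
            have h6 : Y * (2 * b) ≤ Y * Y := by linarith only [h5]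
            have h7 := le_of_mul_le_mul_left h6 hY0
            linarith only [hYb, h7]
          linarith only [h2, h3]
        have hN0 : K * Y - x = 0 := by
          rcases zN with h3 | h3
          · exact h3
          · linarith only [hN, h3]
        have hxe : x = K * Y := by linarith only [hN0]
        obtain ⟨c, hc⟩ : ∃ c, c = K * Y - X := ⟨_, rfl⟩
        have hXe : X = K * Y - c := by linarith only [hc]
        rw [← hc, hN0] at ho'
        have hBq : B = q * Y - c := by
          rw [hBe, hxe, hXe]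
          linear_combination Y * hK
        refine excl h (K := K) (ra := ra) (qu := qu) (f := f) (Y' := Y') (x' := x') (X' := X') hphalf hp1
          hK T.b2 ho' hY hY2 (by linarith only [hB, ht0, hBq]) hq ?_ hφ' hY' hX' hx' ?_ (fun h3 => ?_) ?_
        · rw [hXe, hxe] at hφ
          linarith only [hφ]
        · rw [hXe, hxe] at hcr
          exact hcr
        · exact (by
            rcases opp h hR' h3 hm hm1 hp1 with ⟨h4, -⟩ | ⟨-, h4⟩
            · omega
            · exact h4 K hK)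
        · rw [hXe, hxe, hBq] at hbb
          exact hbb

end DY.St29
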